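import Mathlib.LinearAlgebra.FreeModule.PID
import Mathlib.LinearAlgebra.Determinant
import Mathlib.RingTheory.Flat.TorsionFree
import Mathlib.Algebra.Module.StablyFree.Basic
import Mathlib.RingTheory.PicardGroup
import Mathlib.LinearAlgebra.Matrix.FiniteDimensional
import Mathlib.RingTheory.SimpleRing.Principal
import Mathlib.RingTheory.Henselian
import Mathlib.RingTheory.RegularLocalRing.Defs

set_option autoImplicit false
set_option linter.unusedSectionVars false

namespace Pool.Agent.MP_93f6c2_al

open Module Filter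

/-- Polynomial maps from the field to a vector space. -/
inductive PF {K W : Type} [Field K] [AddCommGroup W] [Module K W] : (K → W) → Prop
  | const (w : W) : PF (fun _ => w)
  | add {g h : K → W} : PF g → PF h → PF (fun s => g s + h s)
  | smulX {g : K → W} : PF g → PF (fun s => s • g s)

namespace PF

variable {K W W1 W2 : Type} [Field K] [AddCommGroup W] [Module K W] [AddCommGroup W1]
  [Module K W1] [AddCommGroup W2] [Module K W2]

theorem congr {g h : K → W} (hg : PF g) (e : ∀ s, g s = h s) : PF h := by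
  have : g = h := funext e
  exact this ▸ hg

theorem map (φ : W →ₗ[K] W1) {g : K → W} (hg : PF g) : PF (fun s => φ (g s)) := by
  induction hg with
  | const w => exact const _
  | add _ _ h1 h2 => exact (h1.add h2).congr fun s => by simp
  | smulX _ h1 => exact h1.smulX.congr fun s => by simp

theorem bilin (B : W →ₗ[K] W1 →ₗ[K] W2) {g : K → W} {h : K → W1} (hg : PF g) (hh : PF h) :
    PF (fun s => B (g s) (h s)) := by
  induction hg with
  | const w => exact hh.map (B w)
  | add _ _ h1 h2 => exact (h1.add h2).congr fun s => by simp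
  | smulX _ h1 => exact h1.smulX.congr fun s => by simp

theorem smul {c : K → K} {g : K → W} (hc : PF c) (hg : PF g) : PF (fun s => c s • g s) :=
  (bilin (LinearMap.lsmul K W) hc hg).congr fun s => by simp

theorem mul {c d : K → K} (hc : PF c) (hd : PF d) : PF (fun s => c s * d s) :=
  (hc.smul hd).congr fun s => by simp

theorem app {g : K → (W →ₗ[K] W1)} {h : K → W} (hg : PF g) (hh : PF h) :
    PF (fun s => g s (h s)) :=
  (bilin LinearMap.id hg hh).congr fun s => by simp

theorem comp {g : K → (W1 →ₗ[K] W2)} {h : K → (W →ₗ[K] W1)} (hg : PF g) (hh : PF h) :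
    PF (fun s => g s ∘ₗ h s) :=
  (bilin (LinearMap.llcomp K W W1 W2) hg hh).congr fun s => rfl

theorem line (a b : W) : PF (fun s : K => a + s • b) := (const a).add (const b).smulX

theorem sum {I : Type} (t : Finset I) {g : I → K → W} (hg : ∀ i ∈ t, PF (g i)) :
    PF (fun s => ∑ i ∈ t, g i s) := by
  classical
  induction t using Finset.induction_on with
  | empty => exact (const 0).congr fun s => by simp
  | insert a t ha ih =>
    exact ((hg a (by simp)).add (ih fun i hi => hg i (by simp [hi]))).congr fun s => by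
      rw [Finset.sum_insert ha]

theorem prod {I : Type} (t : Finset I) {g : I → K → K} (hg : ∀ i ∈ t, PF (g i)) :
    PF (fun s => ∏ i ∈ t, g i s) := by
  classical
  induction t using Finset.induction_on with
  | empty => exact (const 1).congr fun s => by simp
  | insert a t ha ih =>
    exact ((hg a (by simp)).mul (ih fun i hi => hg i (by simp [hi]))).congr fun s => by
      rw [Finset.prod_insert ha]

theorem poly {g : K → K} (hg : PF g) : ∃ p : Polynomial K, ∀ s, g s = p.eval s := by
  induction hg with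
  | const w => exact ⟨Polynomial.C w, by simp⟩
  | add _ _ h1 h2 =>
    obtain ⟨p, hp⟩ := h1
    obtain ⟨q, hq⟩ := h2
    exact ⟨p + q, by simp [hp, hq]⟩
  | smulX _ h1 =>
    obtain ⟨p, hp⟩ := h1
    exact ⟨Polynomial.X * p, by simp [hp]⟩

theorem ne_zero {g : K → K} (hg : PF g) {s0 : K} (h : g s0 ≠ 0) :
    ∀ᶠ s in cofinite, g s ≠ 0 := by
  obtain ⟨p, hp⟩ := hg.poly
  have hp0 : p ≠ 0 := by
    rintro rfl
    exact h (by simp [hp])
  rw [eventually_cofinite]
  simpa [hp] using Polynomial.finite_setOfPred_isRoot hp0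

theorem of_basis {I : Type} [Fintype I] (b : Basis I K W) {g : K → W}
    (hg : ∀ i, PF fun s => b.repr (g s) i) : PF g :=
  (sum Finset.univ fun i _ => (hg i).smul (const (b i))).congr fun s => b.sum_repr (g s)

theorem matdet {I : Type} [Fintype I] [DecidableEq I] {A : K → Matrix I I K}
    (hA : ∀ i j, PF fun s => A s i j) : PF fun s => (A s).det :=
  (sum Finset.univ fun σ _ => (const ((Equiv.Perm.sign σ : ℤ) : K)).mul
    (prod Finset.univ fun i _ => hA (σ i) i)).congr fun s => by rw [Matrix.det_apply']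

theorem entry {I : Type} [Fintype I] [DecidableEq I] (b : Basis I K W) {g : K → (W →ₗ[K] W)}
    (hg : PF g) (i j : I) : PF fun s => LinearMap.toMatrix b b (g s) i j :=
  ((hg.app (const (b j))).map (b.coord i)).congr fun s => by simp [LinearMap.toMatrix_apply]

theorem det [FiniteDimensional K W] {g : K → (W →ₗ[K] W)} (hg : PF g) :
    PF fun s => LinearMap.det (g s) :=
  (matdet (hg.entry (Module.finBasis K W))).congr fun s => LinearMap.det_toMatrix _ _

theorem constr {I : Type} [Fintype I] (b : Basis I K W) {g : I → K → W1} (hg : ∀ i, PF (g i)) :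
    PF fun s => b.constr K fun i => g i s :=
  (sum Finset.univ fun i _ => (hg i).map (LinearMap.smulRightₗ (b.coord i))).congr fun s => by
    classical
    refine b.ext fun j => ?_
    simp [Finsupp.single_apply]

theorem adj [FiniteDimensional K W] {g : K → (W →ₗ[K] W)} (hg : PF g) :
    ∃ h : K → (W →ₗ[K] W), PF h ∧ (∀ s x, g s (h s x) = LinearMap.det (g s) • x) ∧
      ∀ s x, h s (g s x) = LinearMap.det (g s) • x := by
  let b := Module.finBasis K W
  refine ⟨fun s => Matrix.toLin b b (LinearMap.toMatrix b b (g s)).adjugate, ?_, ?_, ?_⟩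
  · have h1 : ∀ i j, PF fun s => (LinearMap.toMatrix b b (g s)).adjugate i j := by
      intro i j
      refine (matdet (A := fun s => (LinearMap.toMatrix b b (g s)).updateRow j (Pi.single i 1))
        fun k l => ?_).congr fun s => (Matrix.adjugate_apply _ _ _).symm
      by_cases hk : k = j
      · exact (const ((Pi.single i 1 : _ → K) l)).congr fun s => by simp [hk]
      · exact (hg.entry b k l).congr fun s => by simp [Matrix.updateRow_ne hk]
    refine (constr b (g := fun j s => ∑ i, (LinearMap.toMatrix b b (g s)).adjugate i j • b i)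
      fun j => sum _ fun i _ => (h1 i j).smul (const _)).congr fun s => ?_
    refine b.ext fun j => ?_
    simp [Matrix.toLin_self]
  · intro s x
    have := congrArg (Matrix.toLin b b) (Matrix.mul_adjugate (LinearMap.toMatrix b b (g s)))
    rw [Matrix.toLin_mul b b b, Matrix.toLin_toMatrix, map_smul, Matrix.toLin_one,
      LinearMap.det_toMatrix] at this
    exact LinearMap.congr_fun this x
  · intro s x
    have := congrArg (Matrix.toLin b b) (Matrix.adjugate_mul (LinearMap.toMatrix b b (g s)))
    rw [Matrix.toLin_mul b b b, Matrix.toLin_toMatrix, map_smul, Matrix.toLin_one,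
      LinearMap.det_toMatrix] at this
    exact LinearMap.congr_fun this x

theorem det_ne_iff [FiniteDimensional K W] (g : W →ₗ[K] W) :
    LinearMap.det g ≠ 0 ↔ Function.Injective g := by
  rw [← LinearMap.ker_eq_bot, Ne, LinearMap.det_eq_zero_iff_ker_ne_bot, not_not]

theorem span_top [FiniteDimensional K W] {I : Type} {g : I → K → W} (hg : ∀ i, PF (g i)) {s0 : K}
    (h : Submodule.span K (Set.range fun i => g i s0) = ⊤) :
    ∀ᶠ s in cofinite, Submodule.span K (Set.range fun i => g i s) = ⊤ := by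
  let b := Module.finBasis K W
  have h1 : ∀ j, ∃ c : I →₀ K, (c.sum fun i a => a • g i s0) = b j := fun j =>
    Finsupp.mem_span_range_iff_exists_finsupp.1 (h ▸ Submodule.mem_top)
  choose c hc using h1
  let Φ : K → (W →ₗ[K] W) := fun s => b.constr K fun j => (c j).sum fun i a => a • g i s
  have hΦ : PF Φ := constr b fun j => sum _ fun i _ => (const _).smul (hg i)
  have h0 : Φ s0 = LinearMap.id := b.ext fun j => by simp [Φ, hc]
  have h2 := hΦ.det.ne_zero (s0 := s0) (by simp [h0])
  filter_upwards [h2] with s hs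
  rw [det_ne_iff, LinearMap.injective_iff_surjective, ← LinearMap.range_eq_top,
    Basis.constr_range] at hs
  rw [eq_top_iff, ← hs]
  refine Submodule.span_le.2 ?_
  rintro _ ⟨j, rfl⟩
  exact Submodule.sum_mem _ fun i _ => Submodule.smul_mem _ _ (Submodule.subset_span ⟨i, rfl⟩)

end PF

section good

variable {K P S : Type} [Field K] [AddCommGroup P] [Module K P] [AddCommGroup S] [Module K S]

def Good0 (ε : P →ₗ[K] K) (s0 : S) (X1 : P →ₗ[K] S) : Prop :=
  Function.Injective (X1 + ε.smulRight s0)

def Good (f : P) (X1 Xb : P →ₗ[K] S) (R : S →ₗ[K] S) : Prop :=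
  Function.Injective Xb ∧ ∀ W : Submodule K S, (∀ p, Xb p ∈ W → X1 p ∈ W) → (∀ s ∈ W, R s ∈ W) →
    (Xb f ∈ W → W = ⊤) ∧ (W ≤ LinearMap.range X1 → W = ⊥)

/-- Words in two operators. -/
def op (Y R : S →ₗ[K] S) : List Bool → (S →ₗ[K] S)
  | [] => LinearMap.id
  | true :: l => Y ∘ₗ op Y R l
  | false :: l => R ∘ₗ op Y R l

theorem op_concat_true (Y R : S →ₗ[K] S) (l : List Bool) (x : S) :
    op Y R (l ++ [true]) x = op Y R l (Y x) := by
  induction l with
  | nil => rfl
  | cons a l ih => cases a <;> simp [op, ih]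

theorem op_concat_false (Y R : S →ₗ[K] S) (l : List Bool) (x : S) :
    op Y R (l ++ [false]) x = op Y R l (R x) := by
  induction l with
  | nil => rfl
  | cons a l ih => cases a <;> simp [op, ih]

theorem op_mem (Y R : S →ₗ[K] S) (W : Submodule K S) (hY : ∀ s ∈ W, Y s ∈ W)
    (hR : ∀ s ∈ W, R s ∈ W) (l : List Bool) (x : S) (hx : x ∈ W) : op Y R l x ∈ W := by
  induction l with
  | nil => exact hx
  | cons a l ih =>
    cases a
    · exact hR _ ih
    · exact hY _ ih

theorem PF.op {Y R : K → (S →ₗ[K] S)} (hY : PF Y) (hR : PF R) (l : List Bool) :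
    PF fun s => op (Y s) (R s) l := by
  induction l with
  | nil => exact PF.const _
  | cons a l ih =>
    cases a
    · exact hR.comp ih
    · exact hY.comp ih

theorem good0_open [FiniteDimensional K S] (ε : S →ₗ[K] K) (s0 : S) {X1 : K → (S →ₗ[K] S)}
    (h1 : PF X1) {t : K} (h : Good0 ε s0 (X1 t)) : ∀ᶠ s in cofinite, Good0 ε s0 (X1 s) := by
  have := (h1.add (PF.const (ε.smulRight s0))).det.ne_zero ((PF.det_ne_iff _).2 h)
  filter_upwards [this] with s hs
  exact (PF.det_ne_iff _).1 hs

theorem good_open [FiniteDimensional K S] (ε : S →ₗ[K] K) (s0 f : S) (hf : ε f = 1)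
    {X1 Xb R : K → (S →ₗ[K] S)} (h1 : PF X1) (hb : PF Xb) (hR : PF R) (h1f : ∀ s, X1 s f = 0)
    {t : K} (h0 : Good0 ε s0 (X1 t)) (h : Good f (X1 t) (Xb t) (R t)) :
    ∀ᶠ s in cofinite, Good f (X1 s) (Xb s) (R s) := by
  obtain ⟨A, hA, hA1, hA2⟩ := hb.adj
  obtain ⟨C, hC, hC1, hC2⟩ := (h1.add (PF.const (ε.smulRight s0))).adj
  let Y : K → (S →ₗ[K] S) := fun s => X1 s ∘ₗ A s
  have hY : PF Y := h1.comp hA
  let η : K → (S →ₗ[K] K) := fun s => ε ∘ₗ C s
  have hη : PF η := (PF.const ε).comp hC
  have hYX : ∀ s p, Y s (Xb s p) = LinearMap.det (Xb s) • X1 s p := fun s p => by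
    simp [Y, hA2]
  have hηX : ∀ s p, η s (X1 s p) = 0 := fun s p => by
    have h2 : X1 s p = (X1 s + ε.smulRight s0) (p - ε p • f) := by simp [h1f, hf]
    rw [h2]
    simp only [η, LinearMap.comp_apply, hC2]
    simp [hf]
  have hd := (PF.det_ne_iff _).2 h.1
  have hd0 := (PF.det_ne_iff _).2 h0
  have hinv : ∀ W : Submodule K S, (∀ x ∈ W, Y t x ∈ W) → ∀ p, Xb t p ∈ W → X1 t p ∈ W := by
    intro W hW p hp
    have := hW _ hp
    rw [hYX] at this
    exact (W.smul_mem_iff hd).1 this
  have hgen : Submodule.span K (Set.range fun l => op (Y t) (R t) l (Xb t f)) = ⊤ := by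
    refine (h.2 _ (hinv _ ?_) ?_).1 (Submodule.subset_span ⟨[], rfl⟩)
    · intro x hx
      refine Submodule.span_induction (p := fun x _ => Y t x ∈ _) ?_ (by simp)
        (fun x y _ _ hx hy => by rw [map_add]; exact Submodule.add_mem _ hx hy)
        (fun c x _ hx => by rw [map_smul]; exact Submodule.smul_mem _ _ hx) hx
      rintro _ ⟨l, rfl⟩
      exact Submodule.subset_span ⟨true :: l, rfl⟩
    · intro x hx
      refine Submodule.span_induction (p := fun x _ => R t x ∈ _) ?_ (by simp)
        (fun x y _ _ hx hy => by rw [map_add]; exact Submodule.add_mem _ hx hy)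
        (fun c x _ hx => by rw [map_smul]; exact Submodule.smul_mem _ _ hx) hx
      rintro _ ⟨l, rfl⟩
      exact Submodule.subset_span ⟨false :: l, rfl⟩
  have hcog : Submodule.span K (Set.range fun l => η t ∘ₗ op (Y t) (R t) l) = ⊤ := by
    have h2 : ⨅ l, LinearMap.ker (η t ∘ₗ op (Y t) (R t) l) = ⊥ := by
      refine (h.2 _ (hinv _ ?_) ?_).2 ?_
      · intro x hx
        simp only [Submodule.mem_iInf, LinearMap.mem_ker, LinearMap.comp_apply] at hx ⊢
        intro l
        rw [← op_concat_true]
        exact hx _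
      · intro x hx
        simp only [Submodule.mem_iInf, LinearMap.mem_ker, LinearMap.comp_apply] at hx ⊢
        intro l
        rw [← op_concat_false]
        exact hx _
      · intro x hx
        simp only [Submodule.mem_iInf, LinearMap.mem_ker, LinearMap.comp_apply] at hx
        have h3 : ε (C t x) = 0 := hx []
        have h4 := hC1 t x
        simp only [LinearMap.add_apply, LinearMap.smulRight_apply, h3, zero_smul, add_zero] at h4
        exact ((LinearMap.range (X1 t)).smul_mem_iff hd0).1 (h4 ▸ LinearMap.mem_range_self _ _)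
    rw [eq_top_iff]
    intro φ _
    exact FiniteDimensional.mem_span_of_iInf_ker_le_ker (h2 ▸ bot_le)
  have e1 := hb.det.ne_zero hd
  have e2 := PF.span_top (fun l => (PF.op hY hR l).app (hb.app (PF.const f))) hgen
  have e3 := PF.span_top (fun l => hη.comp (PF.op hY hR l)) hcog
  filter_upwards [e1, e2, e3] with s h1s h2s h3s
  have hinj := (PF.det_ne_iff _).1 h1s
  refine ⟨hinj, fun W hW hWR => ?_⟩
  have hWY : ∀ x ∈ W, Y s x ∈ W := by
    intro x hx
    obtain ⟨p, rfl⟩ := LinearMap.injective_iff_surjective.1 hinj x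
    rw [hYX]
    exact W.smul_mem _ (hW p hx)
  constructor
  · intro hfW
    rw [eq_top_iff, ← h2s]
    refine Submodule.span_le.2 ?_
    rintro _ ⟨l, rfl⟩
    exact op_mem _ _ W hWY hWR l _ hfW
  · intro hWr
    rw [eq_bot_iff]
    intro x hx
    rw [Submodule.mem_bot, ← Module.forall_dual_apply_eq_zero_iff K]
    intro φ
    have hφ : φ ∈ Submodule.span K (Set.range fun l => η s ∘ₗ op (Y s) (R s) l) :=
      h3s ▸ Submodule.mem_top
    refine Submodule.span_induction (p := fun φ _ => φ x = 0) ?_ (by simp)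
      (fun x y _ _ hx hy => by simp [hx, hy]) (fun c x _ hx => by simp [hx]) hφ
    rintro _ ⟨l, rfl⟩
    obtain ⟨p, hp⟩ := hWr (op_mem _ _ W hWY hWR l _ hx)
    simp only [LinearMap.comp_apply]
    rw [← hp, hηX]

theorem Good0.comp {P' : Type} [AddCommGroup P'] [Module K P'] {ε : P →ₗ[K] K} {s0 : S}
    {X1 : P →ₗ[K] S} (h : Good0 ε s0 X1) (κ : P' ≃ₗ[K] P) :
    Good0 (ε ∘ₗ κ.toLinearMap) s0 (X1 ∘ₗ κ.toLinearMap) := by
  intro x y hxy
  exact κ.injective (h (by simpa using hxy))

theorem Good.comp {P' : Type} [AddCommGroup P'] [Module K P'] {f : P} {X1 Xb : P →ₗ[K] S}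
    {R : S →ₗ[K] S} (h : Good f X1 Xb R) (κ : P' ≃ₗ[K] P) :
    Good (κ.symm f) (X1 ∘ₗ κ.toLinearMap) (Xb ∘ₗ κ.toLinearMap) R := by
  refine ⟨h.1.comp κ.injective, fun W hW hR => ?_⟩
  have := h.2 W (fun p hp => by simpa using hW (κ.symm p) (by simpa using hp)) hR
  simpa [LinearMap.range_comp] using this

theorem Good0.smul {ε : P →ₗ[K] K} {s0 : S} {X1 : P →ₗ[K] S} (h : Good0 ε s0 X1) {c : K}
    (hc : c ≠ 0) : Good0 ε (c • s0) (c • X1) := by
  intro x y hxy
  apply h
  apply smul_right_injective S hc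
  simpa [smul_comm c] using hxy

theorem Good.smul {f : P} {X1 Xb : P →ₗ[K] S} {R : S →ₗ[K] S} (h : Good f X1 Xb R) {c d : K}
    (hc : c ≠ 0) (hd : d ≠ 0) : Good f (c • X1) Xb (d • R) := by
  refine ⟨h.1, fun W hW hR => ?_⟩
  have := h.2 W (fun p hp => (W.smul_mem_iff hc).1 (hW p hp))
    (fun p hp => (W.smul_mem_iff hd).1 (hR p hp))
  rwa [LinearMap.range_smul _ _ hc]

end good

/-- Finitely many nonempty conditions that are open on lines have a common point. -/
theorem exists_common {K L I : Type} [Field K] [Infinite K] [AddCommGroup L] [Module K L]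
    (Q0 : L → Prop) (Q : I → L → Prop) (F : Set I) (hF : F.Finite)
    (h0 : ∀ x y : L, Q0 x → ∀ᶠ s : K in cofinite, Q0 (x + s • y))
    (h1 : ∀ i ∈ F, ∀ x y : L, Q i x → ∀ᶠ s : K in cofinite, Q i (x + s • y))
    (n0 : ∃ x, Q0 x) (n1 : ∀ i ∈ F, ∃ x, Q i x) : ∃ x, Q0 x ∧ ∀ i ∈ F, Q i x := by
  induction F, hF using Set.Finite.induction_on with
  | empty => simpa using n0
  | @insert a F _ hF ih =>
    obtain ⟨x, hx0, hx⟩ := ih (fun i hi => h1 i (Set.mem_insert_of_mem _ hi))
      (fun i hi => n1 i (Set.mem_insert_of_mem _ hi))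
    obtain ⟨z, hz⟩ := n1 a (Set.mem_insert _ _)
    have e0 := h0 x (z - x) hx0
    have e1 : ∀ᶠ s : K in cofinite, ∀ i ∈ F, Q i (x + s • (z - x)) :=
      (eventually_all_finite hF).2 fun i hi => h1 i (Set.mem_insert_of_mem _ hi) x _ (hx i hi)
    have e2 := (Function.Injective.tendsto_cofinite (sub_left_injective (b := (1 : K)))).eventually
      (h1 a (Set.mem_insert _ _) z (z - x) hz)
    obtain ⟨s, hs0, hs1, hs2⟩ := (e0.and (e1.and e2)).exists
    refine ⟨_, hs0, fun i hi => ?_⟩
    rcases hi with rfl | hi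
    · convert hs2 using 1
      module
    · exact hs1 i hi

end Pool.Agent.MP_93f6c2_al
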