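import Mathlib.Algebra.DualNumber
import Mathlib.LinearAlgebra.ExteriorAlgebra.Basis
import Pool.Agent.MP_93f6c2_al.Poly

-- ======== part 0: formerly Pool.Agent.MP_93f6c2_al.Lam
section MrgPart0

set_option autoImplicit false

namespace Pool.Agent.MP_93f6c2_al

open Module

/-- The exterior algebra in characteristic two, as a commutative ring. -/
def Lam (K V : Type) [Field K] [CharP K 2] [AddCommGroup V] [Module K V] : Type :=
  ExteriorAlgebra K V

namespace Lam

variable {K V : Type} [Field K] [CharP K 2] [AddCommGroup V] [Module K V]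

noncomputable instance instRing : Ring (Lam K V) := inferInstanceAs (Ring (ExteriorAlgebra K V))

theorem ext_add_self (x : ExteriorAlgebra K V) : x + x = 0 := by
  have h : (2 : K) = 0 := CharTwo.two_eq_zero
  rw [← two_smul K x, h, zero_smul]

theorem ext_comm_io (a : V) (y : ExteriorAlgebra K V) :
    ExteriorAlgebra.ι K a * y = y * ExteriorAlgebra.ι K a := by
  induction y using ExteriorAlgebra.induction with
  | algebraMap r => exact (Algebra.commutes r _).symm
  | ι b =>
    have h := ExteriorAlgebra.ι_add_mul_swap (R := K) a b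
    have h2 := ext_add_self (ExteriorAlgebra.ι K b * ExteriorAlgebra.ι K a)
    exact add_right_cancel (h.trans h2.symm)
  | mul x y hx hy => rw [← mul_assoc, hx, mul_assoc, hy, mul_assoc]
  | add x y hx hy => rw [mul_add, add_mul, hx, hy]

theorem ext_comm (x y : ExteriorAlgebra K V) : x * y = y * x := by
  induction x using ExteriorAlgebra.induction with
  | algebraMap r => exact Algebra.commutes r _
  | ι b => exact ext_comm_io b y
  | mul x z hx hz => rw [mul_assoc, hz, ← mul_assoc, hx, mul_assoc]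
  | add x z hx hz => rw [mul_add, add_mul, hx, hz]

noncomputable instance instCommRing : CommRing (Lam K V) :=
  { (instRing : Ring (Lam K V)) with mul_comm := ext_comm }

noncomputable instance instAlgebra : Algebra K (Lam K V) :=
  inferInstanceAs (Algebra K (ExteriorAlgebra K V))

/-- The generators. -/
noncomputable def io : V →ₗ[K] Lam K V := ExteriorAlgebra.ι K

theorem io_sq (a : V) : (io a : Lam K V) * io a = 0 := ExteriorAlgebra.ι_sq_zero a

theorem add_self (x : Lam K V) : x + x = 0 := ext_add_self x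

theorem two_eq : (2 : Lam K V) = 0 := by
  rw [← one_add_one_eq_two]; exact add_self 1

theorem ind {C : Lam K V → Prop} (h1 : ∀ r : K, C (algebraMap K (Lam K V) r))
    (h2 : ∀ a : V, C (io a)) (h3 : ∀ x y, C x → C y → C (x * y))
    (h4 : ∀ x y, C x → C y → C (x + y)) (x : Lam K V) : C x :=
  ExteriorAlgebra.induction (R := K) (M := V) (C := C) h1 h2 h3 h4 x

/-- The augmentation. -/
noncomputable def eps : Lam K V →ₐ[K] K := ExteriorAlgebra.algebraMapInv

theorem eps_io (a : V) : eps (io a : Lam K V) = 0 := by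
  unfold eps io
  exact ExteriorAlgebra.lift_ι_apply K _ _ a

/-- A basis indexed by finite sets. -/
noncomputable def bas {I : Type} [LinearOrder I] (b : Basis I K V) : Basis (Finset I) K (Lam K V) :=
  b.ExteriorAlgebra

instance [FiniteDimensional K V] : FiniteDimensional K (Lam K V) :=
  Module.Finite.of_basis (bas (Module.finBasis K V))

noncomputable def derHom (X : V →ₗ[K] Lam K V) :
    Lam K V →ₐ[K] TrivSqZeroExt (Lam K V) (Lam K V) :=
  ExteriorAlgebra.lift K ⟨(TrivSqZeroExt.inlAlgHom K (Lam K V) (Lam K V)).toLinearMap ∘ₗ io +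
      ((TrivSqZeroExt.inrHom (Lam K V) (Lam K V)).restrictScalars K) ∘ₗ X, fun a => by
    ext
    · simp [io_sq]
    · simp [mul_comm (X a), add_self]⟩

theorem derHom_io (X : V →ₗ[K] Lam K V) (a : V) :
    derHom X (io a) = TrivSqZeroExt.inl (io a) + TrivSqZeroExt.inr (X a) :=
  ExteriorAlgebra.lift_ι_apply K _ _ a

theorem derHom_fst (X : V →ₗ[K] Lam K V) (x : Lam K V) : (derHom X x).fst = x := by
  induction x using ind with
  | h1 r => simp [TrivSqZeroExt.algebraMap_eq_inl']
  | h2 a => simp [derHom_io]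
  | h3 x y hx hy => simp [hx, hy]
  | h4 x y hx hy => simp [hx, hy]

/-- The derivation with prescribed values on the generators. -/
noncomputable def der (X : V →ₗ[K] Lam K V) : Lam K V →ₗ[K] Lam K V :=
  ((TrivSqZeroExt.sndHom (Lam K V) (Lam K V)).restrictScalars K) ∘ₗ (derHom X).toLinearMap

theorem der_apply (X : V →ₗ[K] Lam K V) (x : Lam K V) : der X x = (derHom X x).snd := rfl

@[simp] theorem der_io (X : V →ₗ[K] Lam K V) (a : V) : der X (io a) = X a := by
  simp [der_apply, derHom_io]

@[simp] theorem der_one (X : V →ₗ[K] Lam K V) : der X 1 = 0 := by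
  simp [der_apply]

theorem der_mul (X : V →ₗ[K] Lam K V) (x y : Lam K V) :
    der X (x * y) = x * der X y + der X x * y := by
  simp [der_apply, derHom_fst, mul_comm]

theorem der_algebraMap (X : V →ₗ[K] Lam K V) (r : K) : der X (algebraMap K (Lam K V) r) = 0 := by
  rw [Algebra.algebraMap_eq_smul_one, map_smul, der_one, smul_zero]

theorem der_unique (X : V →ₗ[K] Lam K V) (D : Lam K V →ₗ[K] Lam K V) (h1 : D 1 = 0)
    (h2 : ∀ a, D (io a) = X a) (h3 : ∀ x y, D (x * y) = x * D y + D x * y) : D = der X := by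
  ext x
  induction x using ind with
  | h1 r => rw [der_algebraMap, Algebra.algebraMap_eq_smul_one, map_smul, h1, smul_zero]
  | h2 a => simp [h2]
  | h3 x y hx hy => rw [h3, der_mul, hx, hy]
  | h4 x y hx hy => rw [map_add, map_add, hx, hy]

theorem der_add (X Y : V →ₗ[K] Lam K V) : der (X + Y) = der X + der Y := by
  symm
  apply der_unique
  · simp
  · simp
  · intro x y
    simp only [LinearMap.add_apply, der_mul]
    ring

theorem der_smul (c : K) (X : V →ₗ[K] Lam K V) : der (c • X) = c • der X := by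
  symm
  apply der_unique
  · simp
  · simp
  · intro x y
    simp only [LinearMap.smul_apply, der_mul, smul_add, mul_smul_comm, smul_mul_assoc]

theorem der_der (X : V →ₗ[K] Lam K V) : der X ∘ₗ der X = der (der X ∘ₗ X) := by
  apply der_unique
  · simp
  · simp
  · intro x y
    simp only [LinearMap.comp_apply, der_mul, map_add]
    linear_combination (der X x * der X y) * (two_eq (K := K) (V := V))

/-- `der` as a linear map. -/
noncomputable def derL : (V →ₗ[K] Lam K V) →ₗ[K] Module.End K (Lam K V) where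
  toFun := der
  map_add' := der_add
  map_smul' := der_smul

@[simp] theorem derL_apply (X : V →ₗ[K] Lam K V) : derL X = der X := rfl

theorem der_zero : der (0 : V →ₗ[K] Lam K V) = 0 := map_zero derL

theorem eps_der (X : V →ₗ[K] Lam K V) (h : ∀ a, eps (X a) = 0) (x : Lam K V) :
    eps (der X x) = 0 := by
  induction x using ind with
  | h1 r => simp [der_algebraMap]
  | h2 a => simp [h]
  | h3 x y hx hy => simp [der_mul, hx, hy]
  | h4 x y hx hy => simp [hx, hy]

/-- A submodule containing `1` and stable under multiplication by generators is everything. -/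
theorem eq_top_of (W : Submodule K (Lam K V)) (h1 : (1 : Lam K V) ∈ W)
    (h2 : ∀ a, ∀ x ∈ W, io a * x ∈ W) : W = ⊤ := by
  have key : ∀ y : Lam K V, ∀ x ∈ W, y * x ∈ W := by
    intro y
    induction y using ind with
    | h1 r => intro x hx; rw [← Algebra.smul_def]; exact W.smul_mem r hx
    | h2 a => exact h2 a
    | h3 y z hy hz => intro x hx; rw [mul_assoc]; exact hy _ (hz _ hx)
    | h4 y z hy hz => intro x hx; rw [add_mul]; exact W.add_mem (hy _ hx) (hz _ hx)
  rw [eq_top_iff]
  intro y _
  simpa using key y 1 h1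

end Lam

end Pool.Agent.MP_93f6c2_al

end MrgPart0

-- ======== part 1: formerly Pool.Agent.MP_93f6c2_al.Free
section MrgPart1

set_option autoImplicit false
set_option linter.unusedSectionVars false

namespace Pool.Agent.MP_93f6c2_al

open Module

section act

variable {K V N : Type} [Field K] [AddCommGroup V] [Module K V] [AddCommGroup N] [Module K N]

/-- Apply the operators of a list, first element first. -/
def act (ρ : V →ₗ[K] Module.End K N) (x : N) (l : List V) : N := l.foldl (fun y a => ρ a y) x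

@[simp] theorem act_nil (ρ : V →ₗ[K] Module.End K N) (x : N) : act ρ x [] = x := rfl

@[simp] theorem act_cons (ρ : V →ₗ[K] Module.End K N) (x : N) (a : V) (l : List V) :
    act ρ x (a :: l) = act ρ (ρ a x) l := rfl

theorem act_concat (ρ : V →ₗ[K] Module.End K N) (x : N) (a : V) (l : List V) :
    act ρ x (l ++ [a]) = ρ a (act ρ x l) := by
  simp [act]

theorem act_sub (ρ : V →ₗ[K] Module.End K N) (l : List V) (x y : N) :
    act ρ (x - y) l = act ρ x l - act ρ y l := by
  induction l generalizing x y with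
  | nil => rfl
  | cons a l ih => simp [ih]

theorem act_map {N' : Type} [AddCommGroup N'] [Module K N'] (ρ : V →ₗ[K] Module.End K N)
    (ρ' : V →ₗ[K] Module.End K N') (X : N →ₗ[K] N') (h : ∀ a x, X (ρ a x) = ρ' a (X x))
    (l : List V) (x : N) : X (act ρ x l) = act ρ' (X x) l := by
  induction l generalizing x with
  | nil => rfl
  | cons a l ih => simp [ih, h]

/-- Restricted module over the algebra with product `m`. -/
def Restr (m : V →ₗ[K] V →ₗ[K] V) (ρ : V →ₗ[K] Module.End K N) : Prop :=
  ∀ a x, ρ a (ρ a x) = ρ (m a a) x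

theorem Restr.polar {m : V →ₗ[K] V →ₗ[K] V} {ρ : V →ₗ[K] Module.End K N} (h : Restr m ρ)
    (a b : V) (x : N) : ρ b (ρ a x) + ρ a (ρ b x) = ρ (m a b + m b a) x := by
  have h1 := h (a + b) x
  simp only [map_add, LinearMap.add_apply, h a x, h b x] at h1 ⊢
  linear_combination (norm := skip) h1
  abel_nf

variable {I : Type}

/-- The word attached to a finite set of basis indices. -/
noncomputable def wd (e : I → V) (S : Finset I) : List V := S.toList.map e

@[simp] theorem wd_empty (e : I → V) : wd e ∅ = [] := by simp [wd]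

theorem wd_ne_nil (e : I → V) {S : Finset I} (h : S ≠ ∅) : wd e S ≠ [] := by
  simpa [wd] using h

def Fil (ρ : V →ₗ[K] Module.End K N) (x : N) (e : I → V) (k : ℕ) : Submodule K N :=
  Submodule.span K {y | ∃ l : List I, l.length < k ∧ y = act ρ x (l.map e)}

theorem Fil_step [Fintype I] (ρ : V →ₗ[K] Module.End K N) (x : N) (e : Basis I K V) (k : ℕ)
    (a : V) (y : N) (hy : y ∈ Fil ρ x e k) : ρ a y ∈ Fil ρ x e (k + 1) := by
  induction hy using Submodule.span_induction with
  | mem y hy =>
    obtain ⟨l, hl, rfl⟩ := hy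
    rw [← e.sum_repr a]
    simp only [map_sum, map_smul, LinearMap.coe_sum, Finset.sum_apply, LinearMap.smul_apply]
    refine Submodule.sum_mem _ fun i _ => Submodule.smul_mem _ _ (Submodule.subset_span ?_)
    exact ⟨l ++ [i], by simpa using hl, by rw [List.map_append, List.map_singleton, act_concat]⟩
  | zero => simp
  | add y z _ _ hy hz => rw [map_add]; exact Submodule.add_mem _ hy hz
  | smul c y _ hy => rw [map_smul]; exact Submodule.smul_mem _ _ hy

theorem Fil_act [Fintype I] (ρ : V →ₗ[K] Module.End K N) (x : N) (e : Basis I K V) (l : List V)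
    (k : ℕ) (y : N) (hy : y ∈ Fil ρ x e k) : act ρ y l ∈ Fil ρ x e (k + l.length) := by
  induction l generalizing k y with
  | nil => simpa using hy
  | cons a l ih =>
    have := ih (k + 1) _ (Fil_step ρ x e k a y hy)
    rw [act_cons, List.length_cons]
    convert this using 2
    omega

theorem Fil_perm [CharP K 2] [Fintype I] {m : V →ₗ[K] V →ₗ[K] V} {ρ : V →ₗ[K] Module.End K N}
    (h : Restr m ρ) (x : N) (e : Basis I K V) {l l' : List V} (hp : l.Perm l') :
    ∀ (r : ℕ) (y : N), y ∈ Fil ρ x e (r + 1) →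
      act ρ y l - act ρ y l' ∈ Fil ρ x e (r + l.length) := by
  induction hp with
  | nil => intro r y _; simp
  | cons a _ ih =>
    intro r y hy
    have := ih (r + 1) _ (Fil_step ρ x e _ a y hy)
    rw [act_cons, act_cons, List.length_cons]
    convert this using 2
    omega
  | swap a b l =>
    intro r y hy
    simp only [act_cons, List.length_cons]
    rw [← act_sub]
    have h2 : ρ a (ρ b y) - ρ b (ρ a y) = ρ (m b a + m a b) y := by
      rw [← h.polar b a y, sub_eq_add_neg]
      congr 1
      have h2 : (2 : K) = 0 := CharTwo.two_eq_zero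
      rw [neg_eq_iff_add_eq_zero, ← two_smul K, h2, zero_smul]
    rw [h2]
    have := Fil_act ρ x e l _ _ (Fil_step ρ x e _ (m b a + m a b) y hy)
    convert this using 2
    omega
  | trans h1 _ ih1 ih2 =>
    intro r y hy
    have := Submodule.add_mem _ (ih1 r y hy) (h1.length_eq ▸ ih2 r y hy)
    simpa using this

/-- The span of the words without repeated letters. -/
noncomputable def Orb (ρ : V →ₗ[K] Module.End K N) (x : N) (e : I → V) : Submodule K N :=
  Submodule.span K (Set.range fun S : Finset I => act ρ x (wd e S))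

theorem Fil_le_Orb [CharP K 2] [Fintype I] {m : V →ₗ[K] V →ₗ[K] V} {ρ : V →ₗ[K] Module.End K N}
    (h : Restr m ρ) (x : N) (e : Basis I K V) (k : ℕ) : Fil ρ x e k ≤ Orb ρ x e := by
  classical
  have hx : x ∈ Fil ρ x e (0 + 1) := Submodule.subset_span ⟨[], by simp, rfl⟩
  induction k with
  | zero =>
    refine Submodule.span_le.2 ?_
    rintro y ⟨l, hl, _⟩
    omega
  | succ k ih =>
    refine Submodule.span_le.2 ?_
    rintro y ⟨l, hl, rfl⟩
    rcases Nat.lt_succ_iff_lt_or_eq.1 hl with hl | hl
    · exact ih (Submodule.subset_span ⟨l, hl, rfl⟩)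
    by_cases hn : l.Nodup
    · have hp : (l.map e).Perm (wd e l.toFinset) := (List.toFinset_toList hn).symm.map e
      have h1 := Fil_perm h x e hp 0 x hx
      rw [List.length_map, hl, zero_add] at h1
      have h2 : act ρ x (wd e l.toFinset) ∈ Orb ρ x e := Submodule.subset_span ⟨_, rfl⟩
      simpa using Submodule.add_mem _ (ih h1) h2
    · obtain ⟨a, ha⟩ := List.exists_duplicate_iff_not_nodup.2 hn
      obtain ⟨l', hl'⟩ := (List.duplicate_iff_sublist.1 ha).exists_perm_append
      have h1 := Fil_perm h x e (hl'.map e) 0 x hx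
      rw [List.length_map, hl, zero_add] at h1
      have hlen := hl'.length_eq
      simp only [List.length_append, List.length_cons, List.length_nil] at hlen
      have h2 : act ρ x (List.map e ([a, a] ++ l')) ∈ Fil ρ x e k := by
        have := Fil_act ρ x e (l'.map e) _ _ (Fil_step ρ x e _ (m (e a) (e a)) x hx)
        rw [← h (e a) x, List.length_map, ← hlen, hl] at this
        exact this
      simpa using Submodule.add_mem _ (ih h1) (ih h2)

theorem act_mem_Orb [CharP K 2] [Fintype I] {m : V →ₗ[K] V →ₗ[K] V}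
    {ρ : V →ₗ[K] Module.End K N} (h : Restr m ρ) (x : N) (e : Basis I K V) (l : List V) :
    act ρ x l ∈ Orb ρ x e :=
  Fil_le_Orb h x e _ (Fil_act ρ x e l 1 x (Submodule.subset_span ⟨[], by simp, rfl⟩))

theorem Orb_stable [CharP K 2] [Fintype I] {m : V →ₗ[K] V →ₗ[K] V}
    {ρ : V →ₗ[K] Module.End K N} (h : Restr m ρ) (x : N) (e : Basis I K V) (a : V) (y : N)
    (hy : y ∈ Orb ρ x e) : ρ a y ∈ Orb ρ x e := by
  induction hy using Submodule.span_induction with
  | mem y hy =>
    obtain ⟨S, rfl⟩ := hy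
    rw [← act_concat]
    exact act_mem_Orb h x e _
  | zero => simp
  | add y z _ _ hy hz => rw [map_add]; exact Submodule.add_mem _ hy hz
  | smul c y _ hy => rw [map_smul]; exact Submodule.smul_mem _ _ hy

end act

section lam

variable {K V : Type} [Field K] [CharP K 2] [AddCommGroup V] [Module K V]

open Lam

/-- The derivation of `Lam` extending right multiplication by `a`. -/
noncomputable def dR (m : V →ₗ[K] V →ₗ[K] V) : V →ₗ[K] Module.End K (Lam K V) :=
  derL ∘ₗ (LinearMap.llcomp K V V (Lam K V) io) ∘ₗ m.flip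

theorem dR_apply (m : V →ₗ[K] V →ₗ[K] V) (a : V) : dR m a = der (io ∘ₗ m.flip a) := rfl

theorem dR_io (m : V →ₗ[K] V →ₗ[K] V) (a b : V) : dR m a (io b) = io (m b a) := by
  simp [dR_apply]

/-- The free restricted module of rank one. -/
noncomputable def rhoL (m : V →ₗ[K] V →ₗ[K] V) : V →ₗ[K] Module.End K (Lam K V) :=
  (LinearMap.mul K (Lam K V)) ∘ₗ io + dR m

theorem rhoL_apply (m : V →ₗ[K] V →ₗ[K] V) (a : V) (x : Lam K V) :
    rhoL m a x = io a * x + dR m a x := rfl

/-- Right alternative identity for a bilinear product. -/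
def RA (m : V →ₗ[K] V →ₗ[K] V) : Prop := ∀ x y, m (m y x) x = m y (m x x)

theorem dR_restr {m : V →ₗ[K] V →ₗ[K] V} (hm : RA m) : Restr m (dR m) := by
  intro a x
  have h1 : der (io ∘ₗ m.flip a) ∘ₗ (io ∘ₗ m.flip a) = (io : V →ₗ[K] Lam K V) ∘ₗ m.flip (m a a) := by
    ext b
    simp [hm a b]
  have := LinearMap.congr_fun (der_der ((io : V →ₗ[K] Lam K V) ∘ₗ m.flip a)) x
  rw [h1] at this
  exact this

theorem dR_mul (m : V →ₗ[K] V →ₗ[K] V) (a : V) (x y : Lam K V) :
    dR m a (x * y) = x * dR m a y + dR m a x * y := der_mul _ _ _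

theorem rhoL_restr {m : V →ₗ[K] V →ₗ[K] V} (hm : RA m) : Restr m (rhoL m) := by
  intro a x
  simp only [rhoL_apply, map_add, dR_mul, dR_io, dR_restr hm a x]
  linear_combination x * io_sq (K := K) a + (io a * dR m a x) * (two_eq (K := K) (V := V))

theorem eps_rhoL (m : V →ₗ[K] V →ₗ[K] V) (a : V) (x : Lam K V) : eps (rhoL m a x) = 0 := by
  rw [rhoL_apply, map_add, map_mul, eps_io, dR_apply, eps_der _ (fun b => by simp [eps_io])]
  simp

/-- A submodule containing `1` and stable under the operators is everything. -/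
theorem eq_top_of_rhoL (m : V →ₗ[K] V →ₗ[K] V) (W : Submodule K (Lam K V)) (h1 : (1 : Lam K V) ∈ W)
    (h2 : ∀ a, ∀ x ∈ W, rhoL m a x ∈ W) : W = ⊤ := by
  let G : ℕ → Submodule K (Lam K V) := fun k =>
    Submodule.span K {y | ∃ l : List V, l.length = k ∧ y = (l.map io).prod}
  have hD : ∀ (a : V) (l : List V), dR m a (l.map io).prod ∈ G l.length := by
    intro a l
    induction l with
    | nil => simp [dR_apply]
    | cons b l ih =>
      rw [List.map_cons, List.prod_cons, dR_mul, dR_io]
      refine Submodule.add_mem _ ?_ (Submodule.subset_span ⟨m b a :: l, by simp, by simp⟩)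
      generalize dR m a (l.map io).prod = z at ih
      induction ih using Submodule.span_induction with
      | mem y hy =>
        obtain ⟨l', hl', rfl⟩ := hy
        exact Submodule.subset_span ⟨b :: l', by simp [hl'], by simp⟩
      | zero => simp
      | add y z _ _ hy hz => rw [mul_add]; exact Submodule.add_mem _ hy hz
      | smul c y _ hy => rw [mul_smul_comm]; exact Submodule.smul_mem _ _ hy
  have hG : ∀ k, G k ≤ W := by
    intro k
    induction k with
    | zero =>
      refine Submodule.span_le.2 ?_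
      rintro y ⟨l, hl, rfl⟩
      rw [List.length_eq_zero_iff.1 hl]
      simpa using h1
    | succ k ih =>
      refine Submodule.span_le.2 ?_
      rintro y ⟨l, hl, rfl⟩
      obtain _ | ⟨b, l⟩ := l
      · simp at hl
      have hl' : l.length = k := by simpa using hl
      have h3 := h2 b _ (ih (Submodule.subset_span ⟨l, hl', rfl⟩))
      have h4 := ih (hl' ▸ hD b l)
      rw [rhoL_apply] at h3
      simpa using W.sub_mem h3 h4
  let W' : Submodule K (Lam K V) := Submodule.span K {y | ∃ l : List V, y = (l.map io).prod}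
  have hW' : W' = ⊤ := by
    apply eq_top_of
    · exact Submodule.subset_span ⟨[], by simp⟩
    · intro a x hx
      induction hx using Submodule.span_induction with
      | mem y hy =>
        obtain ⟨l', rfl⟩ := hy
        exact Submodule.subset_span ⟨a :: l', by simp⟩
      | zero => simp
      | add y z _ _ hy hz => rw [mul_add]; exact Submodule.add_mem _ hy hz
      | smul c y _ hy => rw [mul_smul_comm]; exact Submodule.smul_mem _ _ hy
  rw [eq_top_iff, ← hW']
  refine Submodule.span_le.2 ?_
  rintro y ⟨l, rfl⟩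
  exact hG _ (Submodule.subset_span ⟨l, rfl, rfl⟩)

variable {I : Type} [LinearOrder I] [Fintype I] {N : Type} [AddCommGroup N] [Module K N]

/-- The map sending the basis vector of `S` to the word of `S` applied to `x`. -/
noncomputable def hat (e : Basis I K V) (ρ : V →ₗ[K] Module.End K N) (x : N) : Lam K V →ₗ[K] N :=
  (bas e).constr K fun S => act ρ x (wd e S)

omit [Fintype I] in
theorem hat_bas (e : Basis I K V) (ρ : V →ₗ[K] Module.End K N) (x : N) (S : Finset I) :
    hat e ρ x (bas e S) = act ρ x (wd e S) := by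
  simp [hat]

omit [Fintype I] in
theorem hat_range (e : Basis I K V) (ρ : V →ₗ[K] Module.End K N) (x : N) :
    LinearMap.range (hat e ρ x) = Orb ρ x e := by
  rw [hat, Basis.constr_range]; rfl

omit [Fintype I] in
theorem hat_comp {N' : Type} [AddCommGroup N'] [Module K N'] (e : Basis I K V)
    (ρ : V →ₗ[K] Module.End K N) (ρ' : V →ₗ[K] Module.End K N') (X : N →ₗ[K] N')
    (h : ∀ a x, X (ρ a x) = ρ' a (X x)) (x : N) : X ∘ₗ hat e ρ x = hat e ρ' (X x) := by
  refine (bas e).ext fun S => ?_
  simp [hat_bas, act_map ρ ρ' X h]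

theorem hat_bij {m : V →ₗ[K] V →ₗ[K] V} (hm : RA m) (e : Basis I K V) :
    Function.Bijective (hat e (rhoL m) 1) := by
  have : FiniteDimensional K V := Module.Finite.of_basis e
  have hs : Function.Surjective (hat e (rhoL m) 1) := by
    rw [← LinearMap.range_eq_top, hat_range]
    exact eq_top_of_rhoL m _ (act_mem_Orb (rhoL_restr hm) 1 e [])
      fun a x hx => Orb_stable (rhoL_restr hm) 1 e a x hx
  exact ⟨LinearMap.injective_iff_surjective.2 hs, hs⟩

/-- The change of basis to the basis of words. -/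
noncomputable def kap {m : V →ₗ[K] V →ₗ[K] V} (hm : RA m) (e : Basis I K V) :
    Lam K V ≃ₗ[K] Lam K V :=
  LinearEquiv.ofBijective (hat e (rhoL m) 1) (hat_bij hm e)

theorem kap_apply {m : V →ₗ[K] V →ₗ[K] V} (hm : RA m) (e : Basis I K V) (x : Lam K V) :
    kap hm e x = hat e (rhoL m) 1 x := rfl

/-- Freeness of the module `Lam`. -/
theorem free_equiv {m : V →ₗ[K] V →ₗ[K] V} (hm : RA m) (e : Basis I K V)
    {ρ : V →ₗ[K] Module.End K N} (h : Restr m ρ) (x : N) (a : V) (y : Lam K V) :
    hat e ρ x ((kap hm e).symm (rhoL m a y)) = ρ a (hat e ρ x ((kap hm e).symm y)) := by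
  let ρ2 : V →ₗ[K] Module.End K (Lam K V × N) :=
    { toFun := fun a => (rhoL m a).prodMap (ρ a)
      map_add' := fun a b => by ext <;> simp
      map_smul' := fun c a => by ext <;> simp }
  have hρ2 : ∀ a z, ρ2 a z = (rhoL m a z.1, ρ a z.2) := fun a z => rfl
  have h2 : Restr m ρ2 := fun a z => by simp [hρ2, h a, rhoL_restr hm a]
  have h1 : LinearMap.fst K _ _ ∘ₗ hat e ρ2 (1, x) = hat e (rhoL m) 1 :=
    hat_comp e ρ2 (rhoL m) _ (fun a z => rfl) _
  have h3 : LinearMap.snd K _ _ ∘ₗ hat e ρ2 (1, x) = hat e ρ x :=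
    hat_comp e ρ2 ρ _ (fun a z => rfl) _
  have hpair : ∀ z, hat e ρ2 (1, x) z = (kap hm e z, hat e ρ x z) := fun z => by
    ext
    · rw [kap_apply, ← h1]; rfl
    · rw [← h3]; rfl
  have h4 : hat e ρ2 (1, x) ((kap hm e).symm y) ∈ Orb ρ2 (1, x) e := by
    rw [← hat_range]; exact LinearMap.mem_range_self _ _
  have h5 := Orb_stable h2 _ e a _ h4
  rw [← hat_range] at h5
  obtain ⟨z, hz⟩ := h5
  rw [hpair, hpair, hρ2, Prod.ext_iff] at hz
  simp only [LinearEquiv.apply_symm_apply] at hz
  rw [← hz.1, ← hz.2, LinearEquiv.symm_apply_apply]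

end lam

end Pool.Agent.MP_93f6c2_al

end MrgPart1

-- ======== part 2: formerly Pool.Agent.MP_93f6c2_al.Witness
section MrgPart2

set_option autoImplicit false
set_option linter.unusedSectionVars false

namespace Pool.Agent.MP_93f6c2_al

open Module Lam

variable {K V : Type} [Field K] [CharP K 2] [AddCommGroup V] [Module K V]

/-- A basis `y 0, ..., y (N-1)` with its coordinate functionals. -/
structure NB (K V : Type) [Field K] [AddCommGroup V] [Module K V] where
  N : ℕ
  y : ℕ → V
  c : ℕ → V →ₗ[K] K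
  cy : ∀ i j, i < N → j < N → c j (y i) = if i = j then 1 else 0
  sp : ∀ v, v = ∑ i ∈ Finset.range N, c i v • y i

/-- From a basis indexed by `Fin N`. -/
noncomputable def NB.ofBasis {N : ℕ} (b : Basis (Fin N) K V) : NB K V where
  N := N
  y i := if h : i < N then b ⟨i, h⟩ else 0
  c i := if h : i < N then b.coord ⟨i, h⟩ else 0
  cy i j hi hj := by simp [hi, hj, Finsupp.single_apply]
  sp v := by
    rw [Finset.sum_range]
    simp

namespace NB

variable (B : NB K V)

/-- The product of the first `k` generators. -/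
noncomputable def mon (k : ℕ) : Lam K V := ∏ i ∈ Finset.range k, io (B.y i)

/-- The partial derivative. -/
noncomputable def pd (j : ℕ) : Lam K V →ₗ[K] Lam K V := der ((B.c j).smulRight 1)

/-- The span of monomials in the first `k` generators. -/
noncomputable def sub : ℕ → Submodule K (Lam K V)
  | 0 => Submodule.span K {1}
  | k + 1 => sub k ⊔ (sub k).map (LinearMap.mulRight K (io (B.y k)))

theorem mon_succ (k : ℕ) : B.mon (k + 1) = B.mon k * io (B.y k) := Finset.prod_range_succ _ _

theorem mem_zero {x : Lam K V} : x ∈ B.sub 0 ↔ ∃ c : K, c • (1 : Lam K V) = x :=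
  Submodule.mem_span_singleton

theorem mem_succ {k : ℕ} {x : Lam K V} :
    x ∈ B.sub (k + 1) ↔ ∃ p ∈ B.sub k, ∃ q ∈ B.sub k, p + q * io (B.y k) = x := by
  simp only [sub, Submodule.mem_sup, Submodule.mem_map, LinearMap.mulRight_apply]
  constructor
  · rintro ⟨p, hp, _, ⟨q, hq, rfl⟩, h⟩
    exact ⟨p, hp, q, hq, h⟩
  · rintro ⟨p, hp, q, hq, h⟩
    exact ⟨p, hp, _, ⟨q, hq, rfl⟩, h⟩

theorem sub_le (k : ℕ) : B.sub k ≤ B.sub (k + 1) := le_sup_left

theorem one_mem (k : ℕ) : (1 : Lam K V) ∈ B.sub k := by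
  induction k with
  | zero => exact Submodule.subset_span rfl
  | succ k ih => exact B.sub_le k ih

theorem mon_mem (k : ℕ) : B.mon k ∈ B.sub k := by
  induction k with
  | zero => simpa [mon] using B.one_mem 0
  | succ k ih => exact B.mem_succ.2 ⟨0, Submodule.zero_mem _, _, ih, by simp [mon_succ]⟩

theorem mul_mem (k : ℕ) : ∀ i < k, ∀ x ∈ B.sub k, io (B.y i) * x ∈ B.sub k := by
  induction k with
  | zero => intro i hi; omega
  | succ k ih =>
    intro i hi x hx
    obtain ⟨p, hp, q, hq, rfl⟩ := B.mem_succ.1 hx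
    rcases Nat.lt_succ_iff_lt_or_eq.1 hi with hi | rfl
    · exact B.mem_succ.2 ⟨_, ih i hi p hp, _, ih i hi q hq, by ring⟩
    · exact B.mem_succ.2 ⟨0, Submodule.zero_mem _, p, hp, by
        linear_combination (-q) * io_sq (K := K) (B.y i)⟩

theorem sub_top : B.sub B.N = ⊤ := by
  refine eq_top_of _ (B.one_mem _) fun a x hx => ?_
  rw [B.sp a, map_sum, Finset.sum_mul]
  refine Submodule.sum_mem _ fun i hi => ?_
  rw [map_smul, smul_mul_assoc]
  exact Submodule.smul_mem _ _ (B.mul_mem _ i (Finset.mem_range.1 hi) x hx)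

theorem pd_mul (j : ℕ) (x z : Lam K V) : B.pd j (x * z) = x * B.pd j z + B.pd j x * z :=
  der_mul _ _ _

theorem pd_y {i j : ℕ} (hi : i < B.N) (hj : j < B.N) :
    B.pd j (io (B.y i)) = if i = j then 1 else 0 := by
  simp [pd, B.cy i j hi hj]

theorem pd_sub {j : ℕ} (hj : j < B.N) (k : ℕ) (hk : k ≤ j) : ∀ x ∈ B.sub k, B.pd j x = 0 := by
  induction k with
  | zero =>
    intro x hx
    obtain ⟨c, rfl⟩ := B.mem_zero.1 hx
    simp [pd]
  | succ k ih =>
    intro x hx
    obtain ⟨p, hp, q, hq, rfl⟩ := B.mem_succ.1 hx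
    rw [map_add, pd_mul, B.pd_y (by omega) hj, ih (by omega) p hp, ih (by omega) q hq,
      if_neg (by omega)]
    simp

theorem pd_succ {k : ℕ} (hk : k < B.N) {p q : Lam K V} (hp : p ∈ B.sub k) (hq : q ∈ B.sub k) :
    B.pd k (p + q * io (B.y k)) = q := by
  rw [map_add, pd_mul, B.pd_y hk hk, B.pd_sub hk k le_rfl p hp, B.pd_sub hk k le_rfl q hq]
  simp

theorem uniq {k : ℕ} (hk : k < B.N) {p q p' q' : Lam K V} (hp : p ∈ B.sub k) (hq : q ∈ B.sub k)
    (hp' : p' ∈ B.sub k) (hq' : q' ∈ B.sub k)
    (h : p + q * io (B.y k) = p' + q' * io (B.y k)) : p = p' ∧ q = q' := by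
  have h1 : q = q' := by rw [← B.pd_succ hk hp hq, h, B.pd_succ hk hp' hq']
  subst h1
  exact ⟨add_right_cancel h, rfl⟩

theorem mul_mon (k : ℕ) : ∀ x ∈ B.sub k, x * B.mon k = eps x • B.mon k := by
  induction k with
  | zero =>
    intro x hx
    obtain ⟨c, rfl⟩ := B.mem_zero.1 hx
    simp
  | succ k ih =>
    intro x hx
    obtain ⟨p, hp, q, hq, rfl⟩ := B.mem_succ.1 hx
    rw [map_add, map_mul, eps_io, mul_zero, add_zero, mon_succ, ← smul_mul_assoc, ← ih p hp]
    linear_combination (q * B.mon k) * io_sq (K := K) (B.y k)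

theorem mon_ne (k : ℕ) (hk : k ≤ B.N) : B.mon k ≠ 0 := by
  induction k with
  | zero =>
    intro h
    have := congrArg eps h
    simp [mon] at this
  | succ k ih =>
    intro h
    have := B.pd_succ (k := k) (by omega) (Submodule.zero_mem _) (B.mon_mem k)
    rw [zero_add, ← mon_succ, h, map_zero] at this
    exact ih (by omega) this.symm

theorem io_mul_top (a : V) : io a * B.mon B.N = 0 := by
  rw [B.mul_mon _ _ (B.sub_top ▸ Submodule.mem_top), eps_io, zero_smul]

theorem socle (w : Lam K V) (hw : ∀ a, io a * w = 0) : ∃ c : K, w = c • B.mon B.N := by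
  have key : ∀ k ≤ B.N, ∃ w', w = B.mon k * w' := by
    intro k hk
    induction k with
    | zero => exact ⟨w, by simp [mon]⟩
    | succ k ih =>
      obtain ⟨w', hw'⟩ := ih (by omega)
      have h1 := congrArg (B.pd k) (hw (B.y k))
      rw [pd_mul, B.pd_y (by omega) (by omega), if_pos rfl, map_zero] at h1
      have h2 : B.pd k w = B.mon k * B.pd k w' := by
        rw [hw', pd_mul, B.pd_sub (by omega) k le_rfl _ (B.mon_mem k)]
        simp
      refine ⟨B.pd k w', ?_⟩
      rw [h2] at h1
      rw [mon_succ]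
      linear_combination h1 - (io (B.y k) * (B.mon k * B.pd k w')) * (two_eq (K := K) (V := V))
  obtain ⟨w', hw'⟩ := key _ le_rfl
  exact ⟨eps w', by rw [hw', mul_comm, B.mul_mon _ _ (B.sub_top ▸ Submodule.mem_top)]⟩

/-- The binary counter. -/
noncomputable def ctr : V →ₗ[K] Lam K V := ∑ i ∈ Finset.range B.N, (B.c i).smulRight (B.mon i)

theorem ctr_y {k : ℕ} (hk : k < B.N) : B.ctr (B.y k) = B.mon k := by
  simp only [ctr, LinearMap.coe_sum, Finset.sum_apply, LinearMap.smulRight_apply]
  rw [Finset.sum_eq_single k]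
  · simp [B.cy k k hk hk]
  · intro j hj hjk
    rw [B.cy k j hk (Finset.mem_range.1 hj), if_neg (Ne.symm hjk), zero_smul]
  · intro h
    exact absurd (Finset.mem_range.2 hk) h

theorem ctr_succ {k : ℕ} (hk : k < B.N) {q : Lam K V} (p : Lam K V) (hq : q ∈ B.sub k) :
    der B.ctr (p + q * io (B.y k)) =
      (der B.ctr p + eps q • B.mon k) + der B.ctr q * io (B.y k) := by
  rw [map_add, der_mul, der_io, B.ctr_y hk, B.mul_mon k q hq, add_assoc]

theorem ctr_sub (k : ℕ) (hk : k ≤ B.N) : ∀ x ∈ B.sub k, der B.ctr x ∈ B.sub k := by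
  induction k with
  | zero =>
    intro x hx
    obtain ⟨c, rfl⟩ := B.mem_zero.1 hx
    simp
  | succ k ih =>
    intro x hx
    obtain ⟨p, hp, q, hq, rfl⟩ := B.mem_succ.1 hx
    rw [B.ctr_succ (by omega) p hq]
    exact B.mem_succ.2 ⟨_, Submodule.add_mem _ (ih (by omega) p hp)
      (Submodule.smul_mem _ _ (B.mon_mem k)), _, ih (by omega) q hq, rfl⟩

theorem ctr_ker (k : ℕ) (hk : k ≤ B.N) : ∀ x ∈ B.sub k, ∀ c : K, der B.ctr x = c • B.mon k →
    c = 0 ∧ x ∈ B.sub 0 := by
  induction k with
  | zero =>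
    intro x hx c hc
    obtain ⟨d, rfl⟩ := B.mem_zero.1 hx
    refine ⟨?_, hx⟩
    simp only [map_smul, der_one, smul_zero] at hc
    exact (smul_eq_zero.1 hc.symm).resolve_right (B.mon_ne 0 hk)
  | succ k ih =>
    intro x hx c hc
    obtain ⟨p, hp, q, hq, rfl⟩ := B.mem_succ.1 hx
    rw [B.ctr_succ (by omega) p hq, mon_succ, ← smul_mul_assoc, ← zero_add (c • B.mon k * _)] at hc
    obtain ⟨h1, h2⟩ := B.uniq (by omega) (Submodule.add_mem _ (B.ctr_sub k (by omega) p hp)
      (Submodule.smul_mem _ _ (B.mon_mem k))) (B.ctr_sub k (by omega) q hq)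
      (Submodule.zero_mem _) (Submodule.smul_mem _ _ (B.mon_mem k)) hc
    obtain ⟨h3, h4⟩ := ih (by omega) q hq c h2
    obtain ⟨h5, h6⟩ := ih (by omega) p hp (-eps q) (by rw [neg_smul]; exact eq_neg_of_add_eq_zero_left h1)
    obtain ⟨d, rfl⟩ := B.mem_zero.1 h4
    have hd : d = 0 := by simpa using h5
    subst hd
    exact ⟨h3, by simpa using h6⟩

theorem ctr_nil (k : ℕ) (hk : k ≤ B.N) : ∃ n : ℕ, ∀ x ∈ B.sub k, (der B.ctr ^ n) x = 0 := by
  induction k with
  | zero =>
    refine ⟨1, fun x hx => ?_⟩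
    obtain ⟨d, rfl⟩ := B.mem_zero.1 hx
    simp
  | succ k ih =>
    obtain ⟨n, hn⟩ := ih (by omega)
    have key : ∀ (i : ℕ) (p q : Lam K V), p ∈ B.sub k → q ∈ B.sub k → ∃ p' ∈ B.sub k,
        (der B.ctr ^ i) (p + q * io (B.y k)) = p' + (der B.ctr ^ i) q * io (B.y k) := by
      intro i
      induction i with
      | zero => intro p q hp _; exact ⟨p, hp, rfl⟩
      | succ i ih2 =>
        intro p q hp hq
        rw [pow_succ, Module.End.mul_apply, Module.End.mul_apply, B.ctr_succ (by omega) p hq]
        exact ih2 _ _ (Submodule.add_mem _ (B.ctr_sub k (by omega) p hp)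
          (Submodule.smul_mem _ _ (B.mon_mem k))) (B.ctr_sub k (by omega) q hq)
    refine ⟨n + n, fun x hx => ?_⟩
    obtain ⟨p, hp, q, hq, rfl⟩ := B.mem_succ.1 hx
    obtain ⟨p', hp', h⟩ := key n p q hp hq
    rw [pow_add, Module.End.mul_apply, h, hn q hq, zero_mul, add_zero, hn p' hp']

theorem good0 (s0 : Lam K V) (h0 : s0 ≠ 0) (hs : ∀ a, io a * s0 = 0) :
    Good0 eps.toLinearMap s0 (der B.ctr) := by
  obtain ⟨c, rfl⟩ := B.socle s0 hs
  have hc : c ≠ 0 := by rintro rfl; simp at h0
  rw [Good0, injective_iff_map_eq_zero]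
  intro x hx
  simp only [LinearMap.add_apply, LinearMap.smulRight_apply, AlgHom.toLinearMap_apply,
    smul_smul] at hx
  obtain ⟨h1, h2⟩ := B.ctr_ker _ le_rfl x (B.sub_top ▸ Submodule.mem_top) (-(eps x * c))
    (by rw [neg_smul]; exact eq_neg_of_add_eq_zero_left hx)
  obtain ⟨d, rfl⟩ := B.mem_zero.1 h2
  have hd : d = 0 := by simpa [hc] using h1
  simp [hd]

theorem good [FiniteDimensional K V] {n : ℕ} (hN : B.N = n + 1) :
    Good 1 (der B.ctr) (LinearMap.mul K _ (B.ctr (B.y 0))) (LinearMap.mul K _ (io (B.y n))) := by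
  have h1 : B.ctr (B.y 0) = 1 := by rw [B.ctr_y (by omega)]; simp [mon]
  rw [h1]
  refine ⟨fun x y h => by simpa using h, fun W hW hR => ?_⟩
  simp only [LinearMap.mul_apply', one_mul] at hW hR ⊢
  obtain ⟨m, hm⟩ := B.ctr_nil _ le_rfl
  have hsurj := LinearMap.injective_iff_surjective.1
    (B.good0 _ (B.mon_ne _ le_rfl) B.io_mul_top)
  have htop : (1 : Lam K V) ∈ W → W = ⊤ := by
    intro h
    have h2 := hR _ (hW _ (hR _ h))
    rw [mul_one, der_io, B.ctr_y (by omega), mul_comm, ← mon_succ, ← hN] at h2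
    have key : ∀ i : ℕ, ∀ x, ∃ w ∈ W, ∃ z, x = w + (der B.ctr ^ i) z := by
      intro i
      induction i with
      | zero => intro x; exact ⟨0, W.zero_mem, x, by simp⟩
      | succ i ih =>
        intro x
        obtain ⟨w, hw, z, rfl⟩ := ih x
        obtain ⟨z', rfl⟩ := hsurj z
        have h3 : ∀ j : ℕ, (der B.ctr ^ j) (B.mon B.N) ∈ W := by
          intro j
          induction j with
          | zero => exact h2
          | succ j ih2 => rw [pow_succ', Module.End.mul_apply]; exact hW _ ih2
        refine ⟨w + eps z' • (der B.ctr ^ i) (B.mon B.N), W.add_mem hw (W.smul_mem _ (h3 i)), z', ?_⟩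
        simp only [LinearMap.add_apply, LinearMap.smulRight_apply, AlgHom.toLinearMap_apply,
          map_add, map_smul, pow_succ, Module.End.mul_apply]
        abel
    rw [eq_top_iff]
    intro x _
    obtain ⟨w, hw, z, rfl⟩ := key m x
    rw [hm z (B.sub_top ▸ Submodule.mem_top), add_zero]
    exact hw
  refine ⟨htop, fun hr => ?_⟩
  by_contra hne
  have hone : (1 : Lam K V) ∈ W := by
    obtain ⟨x, hx, hx0⟩ := (Submodule.ne_bot_iff W).1 hne
    have key : ∀ i : ℕ, ∀ x ∈ W, x ≠ 0 → (der B.ctr ^ i) x = 0 → (1 : Lam K V) ∈ W := by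
      intro i
      induction i with
      | zero => intro x _ h0 h; exact absurd h h0
      | succ i ih =>
        intro x hx h0 h
        by_cases hd : der B.ctr x = 0
        · obtain ⟨_, h2⟩ := B.ctr_ker _ le_rfl x (B.sub_top ▸ Submodule.mem_top) 0 (by simp [hd])
          obtain ⟨d, rfl⟩ := B.mem_zero.1 h2
          have hd0 : d ≠ 0 := by rintro rfl; simp at h0
          exact (W.smul_mem_iff hd0).1 hx
        · exact ih _ (hW _ hx) hd (by rwa [pow_succ, Module.End.mul_apply] at h)
    exact key m x hx hx0 (hm x (B.sub_top ▸ Submodule.mem_top))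
  rw [htop hone] at hr
  obtain ⟨z, hz⟩ := hr (Submodule.mem_top (x := B.mon B.N))
  have := (B.ctr_ker _ le_rfl z (B.sub_top ▸ Submodule.mem_top) 1 (by simpa using hz)).1
  exact one_ne_zero this

end NB

theorem exists_NB_pair [FiniteDimensional K V] {b1 b2 : V} (h : LinearIndependent K ![b1, b2]) :
    ∃ (B : NB K V) (n : ℕ), B.N = n + 1 ∧ B.y 0 = b1 ∧ B.y n = b2 := by
  classical
  have hne : b1 ≠ b2 := fun e => by
    have := h.injective (a₁ := 0) (a₂ := 1) (by simpa using e)
    simp at this
  have hs : LinearIndepOn K id ({b1, b2} : Set V) := by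
    have := h.linearIndepOn_id
    rwa [Matrix.range_cons, Matrix.range_cons, Matrix.range_empty, Set.union_empty,
      Set.singleton_union] at this
  let b := Basis.extend hs
  let I := hs.extend (Set.subset_univ _)
  have : Finite I := Module.Finite.finite_basis b
  let i1 : I := ⟨b1, hs.subset_extend _ (by simp)⟩
  let i2 : I := ⟨b2, hs.subset_extend _ (by simp)⟩
  have hi : i1 ≠ i2 := fun e => hne (congrArg Subtype.val e)
  obtain ⟨N, ⟨e⟩⟩ := Finite.exists_equiv_fin I
  obtain _ | n := N
  · exact (e i1).elim0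
  let e1 := e.trans (Equiv.swap (e i1) 0)
  have h1 : e1 i1 = 0 := by simp [e1]
  have h2 : e1 i2 ≠ 0 := fun h => hi (e1.injective (h1.trans h.symm))
  have hl : Fin.last n ≠ 0 := by
    intro hl
    apply h2
    have := (e1 i2).le_last
    rw [hl] at this
    exact le_antisymm this (Fin.zero_le _)
  let e2 := e1.trans (Equiv.swap (e1 i2) (Fin.last n))
  have h3 : e2 i1 = 0 := by
    simp only [e2, Equiv.trans_apply, h1]
    exact Equiv.swap_apply_of_ne_of_ne h2.symm hl.symm
  have h4 : e2 i2 = Fin.last n := by simp [e2]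
  refine ⟨NB.ofBasis (b.reindex e2), n, rfl, ?_, ?_⟩
  · have : e2.symm 0 = i1 := by rw [← h3]; simp
    simp [NB.ofBasis, this, b, i1]
  · have : e2.symm ⟨n, by omega⟩ = i2 := by
      rw [show (⟨n, by omega⟩ : Fin (n + 1)) = Fin.last n from rfl, ← h4]; simp
    simp [NB.ofBasis, this, b, i2]

end Pool.Agent.MP_93f6c2_al

end MrgPart2

-- marker of a merged file
example : 731051 + 661323 = 731051 + 661323 := rfl
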