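import Mathlib.Algebra.Lie.OfAssociative
import Mathlib.Algebra.Order.Ring.Star
import Pool.Agent.MP_93f6c2_al.Witness

set_option autoImplicit false
set_option linter.unusedSectionVars false

namespace Pool.Agent.MP_93f6c2_al

open Module Lam Filter

variable {K V : Type} [Field K] [CharP K 2] [AddCommGroup V] [Module K V]

/-- Iterated squaring kills every element. -/
def SqNil (m : V →ₗ[K] V →ₗ[K] V) : Prop := ∀ x, ∃ k : ℕ, (fun z => m z z)^[k] x = 0

theorem Restr.pow {N : Type} [AddCommGroup N] [Module K N] {m : V →ₗ[K] V →ₗ[K] V}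
    {ρ : V →ₗ[K] Module.End K N} (h : Restr m ρ) (k : ℕ) (a : V) :
    ρ a ^ (2 ^ k) = ρ ((fun z => m z z)^[k] a) := by
  induction k with
  | zero => simp
  | succ k ih =>
    rw [pow_succ, pow_mul, ih, Function.iterate_succ_apply', sq]
    ext x
    exact h _ x

/-- Data of a square zero extension. -/
structure BData (m : V →ₗ[K] V →ₗ[K] V) (P : Type) [AddCommGroup P] [Module K P] where
  rP : V →ₗ[K] Module.End K P
  rS : V →ₗ[K] Module.End K P
  X1 : P →ₗ[K] P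
  X : V →ₗ[K] P →ₗ[K] P
  ε : P →ₗ[K] K
  s0 : P
  f : P
  rS_restr : Restr m rS
  eq1 : ∀ p e, X1 (rP e p) = rS e (X1 p) + X e p
  eq2 : ∀ p d e, X d (rP e p) = rS e (X d p) + X (m d e) p
  ε_rP : ∀ p e, ε (rP e p) = 0
  rS_s0 : ∀ e, rS e s0 = 0
  X1_f : X1 f = 0
  ε_f : ε f = 1
  good0 : Good0 ε s0 X1

/-- The module of linear maps from the unital hull to `Lam`. -/
noncomputable def rhoN (m : V →ₗ[K] V →ₗ[K] V) :
    V →ₗ[K] Module.End K (Lam K V × (V →ₗ[K] Lam K V)) :=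
  LinearMap.mk₂ K (fun a z => (rhoL m a z.1 + z.2 a, rhoL m a ∘ₗ z.2 + z.2 ∘ₗ m.flip a))
    (fun a b z => by
      ext
      · simp; abel
      · simp; abel)
    (fun c a z => by
      ext
      · simp
      · simp)
    (fun a z w => by
      ext
      · simp; abel
      · simp; abel)
    (fun c a z => by
      ext
      · simp
      · simp)

theorem rhoN_fst (m : V →ₗ[K] V →ₗ[K] V) (a : V) (z : Lam K V × (V →ₗ[K] Lam K V)) :
    (rhoN m a z).1 = rhoL m a z.1 + z.2 a := rfl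

theorem rhoN_snd (m : V →ₗ[K] V →ₗ[K] V) (a : V) (z : Lam K V × (V →ₗ[K] Lam K V)) (d : V) :
    (rhoN m a z).2 d = rhoL m a (z.2 d) + z.2 (m d a) := rfl

theorem rhoN_restr {m : V →ₗ[K] V →ₗ[K] V} (hm : RA m) : Restr m (rhoN m) := by
  intro a z
  ext d
  · simp only [rhoN_fst, rhoN_snd, map_add, rhoL_restr hm a]
    linear_combination (rhoL m a (z.2 a)) * (two_eq (K := K) (V := V))
  · simp only [rhoN_snd, map_add, rhoL_restr hm a, hm a d]
    linear_combination (rhoL m a (z.2 (m d a))) * (two_eq (K := K) (V := V))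

theorem RA.smul {m : V →ₗ[K] V →ₗ[K] V} (hm : RA m) (c : K) : RA (c • m) := by
  intro x y
  simp [hm x y]

theorem dR_smul (m : V →ₗ[K] V →ₗ[K] V) (c : K) (a : V) : dR (c • m) a = c • dR m a := by
  rw [dR_apply, dR_apply, ← der_smul]
  congr 1
  ext d
  simp

theorem dR_zero (a : V) : dR (0 : V →ₗ[K] V →ₗ[K] V) a = 0 := by
  rw [dR_apply, ← der_zero]
  congr 1
  ext d
  simp

theorem rhoL_smul (m : V →ₗ[K] V →ₗ[K] V) (c : K) (a : V) :
    rhoL (c • m) a = rhoL 0 a + c • dR m a := by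
  ext x
  simp [rhoL_apply, dR_smul, dR_zero]

theorem rhoL_zero (a : V) (x : Lam K V) :
    rhoL (0 : V →ₗ[K] V →ₗ[K] V) a x = io a * x := by
  simp [rhoL_apply, dR_zero]

theorem rhoN_smul (m : V →ₗ[K] V →ₗ[K] V) (c : K) (a : V) :
    rhoN (c • m) a = rhoN 0 a + c • (rhoN m a - rhoN 0 a) := by
  have h1 : rhoL m a = rhoL 0 a + dR m a := by simpa using rhoL_smul m 1 a
  refine LinearMap.ext fun z => Prod.ext ?_ (LinearMap.ext fun d => ?_)
  · simp [rhoN_fst, rhoL_smul, h1]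
    abel
  · simp [rhoN_snd, rhoL_smul, h1]
    module

theorem PF.rhoL (m : V →ₗ[K] V →ₗ[K] V) {τ : K → K} (hτ : PF τ) (a : V) :
    PF fun s => rhoL (τ s • m) a :=
  ((PF.const _).add (hτ.smul (PF.const _))).congr fun s => (rhoL_smul m (τ s) a).symm

theorem PF.actN (m : V →ₗ[K] V →ₗ[K] V) {τ : K → K} (hτ : PF τ) (l : List V)
    {g : K → Lam K V × (V →ₗ[K] Lam K V)} (hg : PF g) :
    PF fun s => act (rhoN (τ s • m)) (g s) l := by
  induction l generalizing g with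
  | nil => exact hg
  | cons a l ih =>
    exact ih (PF.app (((PF.const _).add (hτ.smul (PF.const _))).congr
      fun s => (rhoN_smul m (τ s) a).symm) hg)

variable {I : Type} [LinearOrder I] [Fintype I]

noncomputable def Xh (e : Basis I K V) (m : V →ₗ[K] V →ₗ[K] V) (x : K × (V →ₗ[K] Lam K V)) :
    Lam K V →ₗ[K] Lam K V × (V →ₗ[K] Lam K V) :=
  hat e (rhoN (x.1 • m)) (0, x.2)

noncomputable def Xh1 (e : Basis I K V) (m : V →ₗ[K] V →ₗ[K] V) (x : K × (V →ₗ[K] Lam K V)) :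
    Lam K V →ₗ[K] Lam K V :=
  LinearMap.fst K _ _ ∘ₗ Xh e m x

noncomputable def Xhb (e : Basis I K V) (m : V →ₗ[K] V →ₗ[K] V) (x : K × (V →ₗ[K] Lam K V))
    (b : V) : Lam K V →ₗ[K] Lam K V :=
  (LinearMap.applyₗ b ∘ₗ LinearMap.snd K _ _) ∘ₗ Xh e m x

theorem PF.Xh (e : Basis I K V) (m : V →ₗ[K] V →ₗ[K] V) (x y : K × (V →ₗ[K] Lam K V)) :
    PF fun s : K => Xh e m (x + s • y) := by
  have h1 : PF fun s : K => (x + s • y).1 := (PF.line x y).map (LinearMap.fst K _ _)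
  have h2 : PF fun s : K => (x + s • y).2 := (PF.line x y).map (LinearMap.snd K _ _)
  have h3 : PF fun s : K => ((0 : Lam K V), (x + s • y).2) :=
    (h2.map (LinearMap.inr K (Lam K V) _)).congr fun s => by rw [LinearMap.inr_apply]
  have h4 := PF.constr (bas e) fun S => PF.actN m h1 (wd e S) h3
  unfold Pool.Agent.MP_93f6c2_al.Xh hat
  exact h4

theorem Xh1_f (e : Basis I K V) (m : V →ₗ[K] V →ₗ[K] V) (x : K × (V →ₗ[K] Lam K V)) :
    Xh1 e m x (bas e ∅) = 0 := by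
  simp [Xh1, Xh, hat_bas]

theorem kap_f {m : V →ₗ[K] V →ₗ[K] V} (hm : RA m) (e : Basis I K V) :
    (kap hm e).symm 1 = bas e ∅ := by
  rw [LinearEquiv.symm_apply_eq, kap_apply, hat_bas]
  simp

theorem eps_kap {m : V →ₗ[K] V →ₗ[K] V} (hm : RA m) (e : Basis I K V) :
    eps.toLinearMap ∘ₗ (kap hm e).toLinearMap = (bas e).coord ∅ := by
  refine (bas e).ext fun S => ?_
  simp only [LinearMap.comp_apply, LinearEquiv.coe_coe, kap_apply, hat_bas,
    AlgHom.toLinearMap_apply, Basis.coord_apply, Basis.repr_self]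
  by_cases hS : S = ∅
  · simp [hS]
  · rw [Finsupp.single_eq_of_ne (Ne.symm hS)]
    obtain ⟨l, a, h⟩ := (List.eq_nil_or_concat (wd e S)).resolve_left (wd_ne_nil e hS)
    rw [h, List.concat_eq_append, act_concat, eps_rhoL]

theorem RA.zero : RA (0 : V →ₗ[K] V →ₗ[K] V) := fun x y => by simp

theorem Xh_zero (e : Basis I K V) (m : V →ₗ[K] V →ₗ[K] V) (Ξ : V →ₗ[K] Lam K V) :
    Xh1 e m (0, Ξ) = der Ξ ∘ₗ (kap RA.zero e).toLinearMap ∧
      ∀ b, Xhb e m (0, Ξ) b = LinearMap.mul K _ (Ξ b) ∘ₗ (kap RA.zero e).toLinearMap := by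
  let X0 : Lam K V →ₗ[K] Lam K V × (V →ₗ[K] Lam K V) :=
    (der Ξ).prod (LinearMap.mul K (Lam K V) ∘ₗ Ξ).flip
  have h1 : ∀ a x, X0 (rhoL 0 a x) = rhoN 0 a (X0 x) := by
    intro a x
    refine Prod.ext ?_ (LinearMap.ext fun d => ?_)
    · simp [X0, rhoN_fst, rhoL_zero, der_mul]
    · simp [X0, rhoN_snd, rhoL_zero]
      ring
  have h2 := hat_comp e _ _ X0 h1 1
  have h3 : X0 1 = (0, Ξ) := by
    refine Prod.ext ?_ (LinearMap.ext fun d => ?_) <;> simp [X0]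
  have h4 : Xh e m (0, Ξ) = X0 ∘ₗ (kap RA.zero e).toLinearMap := by
    rw [Xh, zero_smul, ← h3, ← h2]
    rfl
  constructor
  · rw [Xh1, h4]; rfl
  · intro b
    rw [Xhb, h4]; rfl

theorem dR_top (B : NB K V) {m : V →ₗ[K] V →ₗ[K] V} (hm : RA m) (hn : SqNil m) (a : V) :
    dR m a (B.mon B.N) = 0 := by
  obtain ⟨c, hc⟩ := B.socle (dR m a (B.mon B.N)) fun b => by
    have := congrArg (dR m a) (B.io_mul_top b)
    rwa [dR_mul, dR_io, B.io_mul_top, map_zero, add_zero] at this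
  obtain ⟨k, hk⟩ := hn a
  have h1 := (dR_restr hm).pow k a
  rw [hk, map_zero] at h1
  have h2 : ∀ j : ℕ, (dR m a ^ j) (B.mon B.N) = c ^ j • B.mon B.N := by
    intro j
    induction j with
    | zero => simp
    | succ j ih => rw [pow_succ', Module.End.mul_apply, ih, map_smul, hc, smul_smul, pow_succ]
  have h3 := h2 (2 ^ k)
  rw [h1, LinearMap.zero_apply] at h3
  have h4 := (smul_eq_zero.1 h3.symm).resolve_right (B.mon_ne _ le_rfl)
  rw [hc, pow_eq_zero_iff (by positivity) |>.1 h4, zero_smul]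

theorem PF.Xh1 (e : Basis I K V) (m : V →ₗ[K] V →ₗ[K] V) (x y : K × (V →ₗ[K] Lam K V)) :
    PF fun s : K => Xh1 e m (x + s • y) := by
  unfold Pool.Agent.MP_93f6c2_al.Xh1
  exact (PF.const _).comp (PF.Xh e m x y)

theorem PF.Xhb (e : Basis I K V) (m : V →ₗ[K] V →ₗ[K] V) (b : V)
    (x y : K × (V →ₗ[K] Lam K V)) : PF fun s : K => Xhb e m (x + s • y) b := by
  unfold Pool.Agent.MP_93f6c2_al.Xhb
  exact (PF.const _).comp (PF.Xh e m x y)

theorem PF.tau (x y : K × (V →ₗ[K] Lam K V)) : PF fun s : K => (x + s • y).1 :=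
  (PF.line x y).map (LinearMap.fst K _ _)

def Q0 (e : Basis I K V) (m : V →ₗ[K] V →ₗ[K] V) (s0 : Lam K V)
    (x : K × (V →ₗ[K] Lam K V)) : Prop :=
  Good0 ((bas e).coord ∅) s0 (Xh1 e m x)

def Q1 (e : Basis I K V) (m : V →ₗ[K] V →ₗ[K] V) (b : V × V)
    (x : K × (V →ₗ[K] Lam K V)) : Prop :=
  Good (bas e ∅) (Xh1 e m x) (Xhb e m x b.1) (rhoL (x.1 • m) b.2)

theorem Q0_open [FiniteDimensional K V] (e : Basis I K V) (m : V →ₗ[K] V →ₗ[K] V) (s0 : Lam K V)
    (x y : K × (V →ₗ[K] Lam K V)) (h : Q0 e m s0 x) :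
    ∀ᶠ s : K in cofinite, Q0 e m s0 (x + s • y) :=
  good0_open _ s0 (PF.Xh1 e m x y) (t := 0) (by rw [zero_smul, add_zero]; exact h)

theorem Q1_open [FiniteDimensional K V] (e : Basis I K V) (m : V →ₗ[K] V →ₗ[K] V) (s0 : Lam K V)
    (b : V × V) (x y : K × (V →ₗ[K] Lam K V)) (h : Q0 e m s0 x) (h1 : Q1 e m b x) :
    ∀ᶠ s : K in cofinite, Q1 e m b (x + s • y) :=
  good_open ((bas e).coord ∅) s0 (bas e ∅) (by simp) (PF.Xh1 e m x y) (PF.Xhb e m b.1 x y)
    (PF.rhoL m (PF.tau x y) b.2) (fun _ => Xh1_f e m _) (t := 0)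
    (by rw [zero_smul, add_zero]; exact h) (by rw [zero_smul, add_zero]; exact h1)

theorem Q0_wit (e : Basis I K V) (m : V →ₗ[K] V →ₗ[K] V) (s0 : Lam K V) (hs0 : s0 ≠ 0)
    (hs1 : ∀ a, io a * s0 = 0) (B : NB K V) : Q0 e m s0 (0, B.ctr) := by
  rw [Q0, (Xh_zero e m _).1]
  have := (B.good0 s0 hs0 hs1).comp (kap RA.zero e)
  rwa [eps_kap] at this

theorem Q1_wit [FiniteDimensional K V] (e : Basis I K V) (m : V →ₗ[K] V →ₗ[K] V) (B : NB K V)
    {n : ℕ} (hN : B.N = n + 1) : Q1 e m (B.y 0, B.y n) (0, B.ctr) := by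
  rw [Q1, (Xh_zero e m _).1, (Xh_zero e m _).2]
  have := (B.good hN).comp (kap RA.zero e)
  rw [kap_f] at this
  have h : rhoL ((0 : K) • m) (B.y n) = LinearMap.mul K _ (io (B.y n)) := by
    ext z
    rw [zero_smul, rhoL_zero, LinearMap.mul_apply']
  simp only [h]
  exact this

theorem exists_param [Infinite K] [FiniteDimensional K V] (e : Basis I K V)
    (m : V →ₗ[K] V →ₗ[K] V) (s0 : Lam K V) (hs0 : s0 ≠ 0) (hs1 : ∀ a, io a * s0 = 0)
    (F : Set (V × V)) (hF : F.Finite) :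
    ∃ x : K × (V →ₗ[K] Lam K V), x.1 ≠ 0 ∧ Q0 e m s0 x ∧
      ∀ b ∈ F, LinearIndependent K ![b.1, b.2] → Q1 e m b x := by
  obtain ⟨x, ⟨hτ, hx0⟩, hx⟩ := exists_common (K := K)
    (fun x : K × (V →ₗ[K] Lam K V) => x.1 ≠ 0 ∧ Q0 e m s0 x)
    (fun (b : V × V) x => Q0 e m s0 x ∧ Q1 e m b x)
    {b | b ∈ F ∧ LinearIndependent K ![b.1, b.2]} (hF.subset fun b hb => hb.1)
    (fun x y h => ((PF.tau x y).ne_zero (s0 := 0)
      (by rw [zero_smul, add_zero]; exact h.1)).and (Q0_open e m s0 x y h.2))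
    (fun b _ x y h => (Q0_open e m s0 x y h.1).and (Q1_open e m s0 b x y h.1 h.2))
    (by
      let B0 := NB.ofBasis (Module.finBasis K V)
      have e1 := Q0_open e m s0 (0, B0.ctr) (1, 0) (Q0_wit e m s0 hs0 hs1 B0)
      have e2 := (PF.tau ((0 : K), B0.ctr) (1, 0)).ne_zero (s0 := 1) (by simp)
      obtain ⟨s, hs⟩ := (e2.and e1).exists
      exact ⟨_, hs⟩)
    (by
      rintro ⟨b1, b2⟩ ⟨_, hb⟩
      obtain ⟨B, n, hN, rfl, rfl⟩ := exists_NB_pair hb
      exact ⟨(0, B.ctr), Q0_wit e m s0 hs0 hs1 B, Q1_wit e m B hN⟩)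
  exact ⟨x, hτ, hx0, fun b hb hb' => (hx b ⟨hb, hb'⟩).2⟩

theorem Xh_free {m : V →ₗ[K] V →ₗ[K] V} (e : Basis I K V) (τ : K) (Ξ : V →ₗ[K] Lam K V)
    (hm' : RA (τ • m)) (a : V) (p : Lam K V) :
    (Xh e m (τ, Ξ) ∘ₗ (kap hm' e).symm.toLinearMap) (rhoL (τ • m) a p) =
      rhoN (τ • m) a ((Xh e m (τ, Ξ) ∘ₗ (kap hm' e).symm.toLinearMap) p) := by
  simp only [LinearMap.comp_apply, LinearEquiv.coe_coe, Xh]
  exact free_equiv hm' e (rhoN_restr hm') _ a p

theorem exists_BData [Infinite K] [FiniteDimensional K V] {m : V →ₗ[K] V →ₗ[K] V} (hm : RA m)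
    (hn : SqNil m) (F : Set (V × V)) (hF : F.Finite) :
    ∃ D : BData m (Lam K V), ∀ b ∈ F, LinearIndependent K ![b.1, b.2] →
      Good D.f D.X1 (D.X b.1) (D.rS b.2) := by
  let e := Module.finBasis K V
  let B0 := NB.ofBasis e
  obtain ⟨⟨τ, Ξ⟩, hτ, hx0, hx⟩ :=
    exists_param e m (B0.mon B0.N) (B0.mon_ne _ le_rfl) B0.io_mul_top F hF
  simp only at hτ
  have hm' := hm.smul τ
  obtain ⟨XX, hXX0⟩ : ∃ XX, XX = Xh e m (τ, Ξ) ∘ₗ (kap hm' e).symm.toLinearMap := ⟨_, rfl⟩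
  have hXX : ∀ a p, XX (rhoL (τ • m) a p) = rhoN (τ • m) a (XX p) := fun a p => by
    rw [hXX0]
    exact Xh_free e τ Ξ hm' a p
  have hε : (bas e).coord ∅ ∘ₗ (kap hm' e).symm.toLinearMap = eps.toLinearMap := by
    ext z
    simp [← eps_kap hm' e]
  have hf1 : (kap hm' e).symm.symm (bas e ∅) = 1 := by
    rw [← kap_f hm' e]
    simp
  have hX1 : Xh1 e m (τ, Ξ) ∘ₗ (kap hm' e).symm.toLinearMap = LinearMap.fst K _ _ ∘ₗ XX := by
    rw [hXX0, Xh1, LinearMap.comp_assoc]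
  have hXb : ∀ b, Xhb e m (τ, Ξ) b ∘ₗ (kap hm' e).symm.toLinearMap =
      (LinearMap.snd K _ _ ∘ₗ XX).flip b := fun b => by
    ext z
    simp [hXX0, Xhb]
  refine ⟨{ rP := τ⁻¹ • rhoL (τ • m)
            rS := τ⁻¹ • rhoL (τ • m)
            X1 := τ • (LinearMap.fst K _ _ ∘ₗ XX)
            X := (LinearMap.snd K _ _ ∘ₗ XX).flip
            ε := eps.toLinearMap
            s0 := τ • B0.mon B0.N
            f := 1
            rS_restr := fun a z => ?_
            eq1 := fun p a => ?_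
            eq2 := fun p d a => ?_
            ε_rP := fun p a => ?_
            rS_s0 := fun a => ?_
            X1_f := ?_
            ε_f := by simp
            good0 := ?_ }, fun b hb hb' => ?_⟩
  · simp only [LinearMap.smul_apply, map_smul, rhoL_restr hm' a z, smul_smul]
    congr 1
    field_simp
  · simp only [LinearMap.smul_apply, map_smul, LinearMap.comp_apply, hXX, LinearMap.fst_apply,
      rhoN_fst, LinearMap.flip_apply, LinearMap.snd_apply, smul_smul, smul_add]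
    rw [inv_mul_cancel₀ hτ, mul_inv_cancel₀ hτ, one_smul, one_smul]
  · simp only [LinearMap.smul_apply, map_smul, LinearMap.comp_apply, hXX,
      rhoN_snd, LinearMap.flip_apply, LinearMap.snd_apply, smul_smul, smul_add]
    rw [inv_mul_cancel₀ hτ, one_smul]
  · simp [eps_rhoL]
  · simp only [LinearMap.smul_apply, map_smul, rhoL_apply, dR_smul, B0.io_mul_top,
      dR_top B0 hm hn]
    simp
  · rw [← hX1, ← hf1]
    simp [Xh1_f]
  · have := (Good0.comp hx0 (kap hm' e).symm).smul hτ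
    rw [hε, hX1] at this
    exact this
  · have := (Good.comp (hx b hb hb') (kap hm' e).symm).smul hτ (inv_ne_zero hτ)
    rw [hf1, hX1, hXb] at this
    exact this

end Pool.Agent.MP_93f6c2_al
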