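import Mathlib.RingTheory.Finiteness.Prod
import Pool.Agent.MP_93f6c2_al.Exist

-- ======== part 0: formerly Pool.Agent.MP_93f6c2_al.Extend
section MrgPart0

set_option autoImplicit false
set_option linter.unusedSectionVars false

namespace Pool.Agent.MP_93f6c2_al

open Module

/-- A finite dimensional right alternative nil algebra with an alternating cocycle. -/
structure Stage (K : Type) [Field K] where
  V : Type
  [acg : AddCommGroup V]
  [mod : Module K V]
  [fd : FiniteDimensional K V]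
  mul : V →ₗ[K] V →ₗ[K] V
  om : V →ₗ[K] V →ₗ[K] K
  ra : RA mul
  nil : SqNil mul
  om_alt : ∀ x, om x x = 0
  om_ra : ∀ x y, om (mul y x) x = om y (mul x x)

attribute [instance] Stage.acg Stage.mod Stage.fd

variable {K : Type} [Field K]

/-- How a stage sits over the previous one. -/
structure Link (D D' : Stage K) where
  pr : D'.V →ₗ[K] D.V
  inc : D.V →ₗ[K] D'.V
  f : D'.V
  pr_inc : ∀ d, pr (inc d) = d
  pr_f : pr f = 0
  f_ne : f ≠ 0
  pr_mul : ∀ u v, pr (D'.mul u v) = D.mul (pr u) (pr v)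
  inc_mul : ∀ d e (c : K), D'.mul (inc d + c • f) (inc e) = inc (D.mul d e) + D.om d e • f
  inc_om : ∀ d e (c : K), D'.om (inc d + c • f) (inc e) = 0

/-- The irreducibility condition for a pair of elements. -/
def Link.Cond {D D' : Stage K} (L : Link D D') (b1 b2 : D.V) : Prop :=
  ∀ N : Submodule K (D'.V × K),
    (∀ u, (u, (0 : K)) ∈ N → (D'.mul (L.inc b1) u, D'.om (L.inc b1) u) ∈ N) →
    (∀ u (c : K), (u, c) ∈ N → (D'.mul u (L.inc b2), D'.om u (L.inc b2)) ∈ N) →
    ((∃ u, (u, (0 : K)) ∈ N ∧ u ≠ L.inc (L.pr u)) → ∃ u, (u, (1 : K)) ∈ N) ∧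
    ((∃ d, (L.inc d + L.f, (0 : K)) ∈ N) → ∀ v, ∃ d, (v + L.inc d, (0 : K)) ∈ N)

namespace BData

variable {V P : Type} [AddCommGroup V] [Module K V] [AddCommGroup P] [Module K P]
  [FiniteDimensional K P] {m : V →ₗ[K] V →ₗ[K] V} (D : BData m P)

noncomputable def E : P ≃ₗ[K] P :=
  LinearEquiv.ofBijective (D.X1 + D.ε.smulRight D.s0)
    ⟨D.good0, LinearMap.injective_iff_surjective.1 D.good0⟩

theorem E_apply (p : P) : D.E p = D.X1 p + D.ε p • D.s0 := rfl

noncomputable def η : P →ₗ[K] K := D.ε ∘ₗ D.E.symm.toLinearMap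

noncomputable def J : P →ₗ[K] P := D.E.symm.toLinearMap - D.η.smulRight D.f

theorem E_symm_X1 (p : P) : D.E.symm (D.X1 p) = p - D.ε p • D.f := by
  rw [LinearEquiv.symm_apply_eq, E_apply]
  simp [D.X1_f, D.ε_f]

theorem η_X1 (p : P) : D.η (D.X1 p) = 0 := by
  simp [η, E_symm_X1, D.ε_f]

theorem J_X1 (p : P) : D.J (D.X1 p) = p - D.ε p • D.f := by
  simp [J, η_X1, E_symm_X1]

theorem η_s0 : D.η D.s0 = 1 := by
  have : D.E.symm D.s0 = D.f := by
    rw [LinearEquiv.symm_apply_eq, E_apply]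
    simp [D.X1_f, D.ε_f]
  simp [η, this, D.ε_f]

theorem X1_J (s : P) : D.X1 (D.J s) + D.η s • D.s0 = s := by
  have := D.E_apply (D.E.symm s)
  rw [LinearEquiv.apply_symm_apply] at this
  simp only [J, η, LinearMap.sub_apply, LinearMap.smulRight_apply, map_sub, map_smul, D.X1_f,
    smul_zero, sub_zero, LinearMap.comp_apply, LinearEquiv.coe_coe]
  exact this.symm

noncomputable def Ψ : (V × P) →ₗ[K] (V × P) →ₗ[K] P :=
  LinearMap.mk₂ K (fun u v => D.rS v.1 (D.X1 u.2) + D.X u.1 v.2)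
    (fun a b z => by simp; abel) (fun c a z => by simp)
    (fun a b z => by simp; abel) (fun c a z => by simp)

theorem Ψ_apply (u v : V × P) : D.Ψ u v = D.rS v.1 (D.X1 u.2) + D.X u.1 v.2 := rfl

noncomputable def mul' (om : V →ₗ[K] V →ₗ[K] K) : (V × P) →ₗ[K] (V × P) →ₗ[K] (V × P) :=
  LinearMap.mk₂ K (fun u v => (m u.1 v.1, om u.1 v.1 • D.f + D.J (D.Ψ u v)))
    (fun a b z => by simp [add_smul]; abel) (fun c a z => by simp [mul_smul])
    (fun a b z => by simp [add_smul]; abel) (fun c a z => by simp [mul_smul])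

theorem mul'_apply (om : V →ₗ[K] V →ₗ[K] K) (u v : V × P) :
    D.mul' om u v = (m u.1 v.1, om u.1 v.1 • D.f + D.J (D.Ψ u v)) := rfl

noncomputable def om' : (V × P) →ₗ[K] (V × P) →ₗ[K] K := D.Ψ.compr₂ D.η

theorem om'_apply (u v : V × P) : D.om' u v = D.η (D.Ψ u v) := rfl

theorem S_mul (om : V →ₗ[K] V →ₗ[K] K) (u v : V × P) :
    D.X1 (D.mul' om u v).2 + D.om' u v • D.s0 = D.Ψ u v := by
  simp [mul'_apply, om'_apply, D.X1_f, X1_J]

theorem Ψ_self (v : V × P) : D.Ψ v v = D.X1 (D.rP v.1 v.2) := by rw [Ψ_apply, D.eq1]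

theorem sq (om : V →ₗ[K] V →ₗ[K] K) (h : ∀ x, om x x = 0) (v : V × P) :
    D.mul' om v v = (m v.1 v.1, D.rP v.1 v.2) := by
  simp [mul'_apply, h, Ψ_self, J_X1, D.ε_rP]

theorem Ψ_ra (om : V →ₗ[K] V →ₗ[K] K) (h : ∀ x, om x x = 0) (u v : V × P) :
    D.Ψ (D.mul' om u v) v = D.Ψ u (D.mul' om v v) := by
  have h1 : D.X1 (D.mul' om u v).2 = D.Ψ u v - D.om' u v • D.s0 :=
    eq_sub_of_add_eq (D.S_mul om u v)
  rw [D.sq om h, Ψ_apply, h1, Ψ_apply, Ψ_apply]
  simp only [map_sub, map_add, map_smul, D.rS_s0, D.rS_restr v.1, D.eq2, mul'_apply]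
  simp [add_assoc]

theorem inc_mul (om : V →ₗ[K] V →ₗ[K] K) (d e : V) (c : K) :
    D.mul' om ((d, 0) + c • (0, D.f)) (e, 0) = (m d e, 0) + om d e • (0, D.f) := by
  simp [D.mul'_apply, D.Ψ_apply, D.X1_f]

theorem inc_om (d e : V) (c : K) : D.om' ((d, 0) + c • (0, D.f)) (e, 0) = 0 := by
  simp [D.om'_apply, D.Ψ_apply, D.X1_f]

end BData

/-- The next stage. -/
noncomputable def Stage.ext (D : Stage K) {P : Type} [AddCommGroup P] [Module K P]
    [FiniteDimensional K P] (B : BData D.mul P) : Stage K where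
  V := D.V × P
  mul := B.mul' D.om
  om := B.om'
  ra x y := by
    rw [B.mul'_apply D.om (B.mul' D.om y x), B.Ψ_ra D.om D.om_alt, B.mul'_apply D.om y (B.mul' _ x x)]
    simp [B.mul'_apply, D.ra x.1 y.1, D.om_ra]
  nil x := by
    obtain ⟨k, hk⟩ := D.nil x.1
    have h1 : ∀ j : ℕ, ((fun z => B.mul' D.om z z)^[j] x).1 = (fun z => D.mul z z)^[j] x.1 := by
      intro j
      induction j with
      | zero => rfl
      | succ j ih => simp only [Function.iterate_succ_apply', ← ih, B.mul'_apply]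
    refine ⟨k + 1, ?_⟩
    rw [Function.iterate_succ_apply', B.sq D.om D.om_alt, h1, hk]
    simp
  om_alt x := by rw [B.om'_apply, B.Ψ_self, B.η_X1]
  om_ra x y := by rw [B.om'_apply, B.om'_apply, B.Ψ_ra D.om D.om_alt]

noncomputable def Stage.link (D : Stage K) {P : Type} [AddCommGroup P] [Module K P]
    [FiniteDimensional K P] (B : BData D.mul P) : Link D (D.ext B) where
  pr := LinearMap.fst K D.V P
  inc := LinearMap.inl K D.V P
  f := ((0 : D.V), B.f)
  pr_inc _ := rfl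
  pr_f := rfl
  f_ne h := by
    have h1 : B.f = 0 := congrArg Prod.snd h
    have h2 := B.ε_f
    rw [h1, map_zero] at h2
    exact zero_ne_one h2
  pr_mul _ _ := rfl
  inc_mul d e c := B.inc_mul D.om d e c
  inc_om d e c := B.inc_om d e c

theorem BData.cond {V P : Type} [AddCommGroup V] [Module K V] [AddCommGroup P] [Module K P]
    [FiniteDimensional K P] {m : V →ₗ[K] V →ₗ[K] V} (B : BData m P) (om : V →ₗ[K] V →ₗ[K] K)
    {b1 b2 : V} (h : Good B.f B.X1 (B.X b1) (B.rS b2)) (N : Submodule K ((V × P) × K))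
    (h1 : ∀ u, (u, (0 : K)) ∈ N → (B.mul' om (b1, 0) u, B.om' (b1, 0) u) ∈ N)
    (h2 : ∀ u (c : K), (u, c) ∈ N → (B.mul' om u (b2, 0), B.om' u (b2, 0)) ∈ N) :
    ((∃ d p, ((d, p), (0 : K)) ∈ N ∧ p ≠ 0) → ∃ u, (u, (1 : K)) ∈ N) ∧
    ((∃ d, ((d, B.f), (0 : K)) ∈ N) → ∀ p, ∃ d, ((d, p), (0 : K)) ∈ N) := by
  let σ : ((V × P) × K) →ₗ[K] P :=
    B.X1 ∘ₗ LinearMap.snd K V P ∘ₗ LinearMap.fst K _ _ + (LinearMap.snd K _ _).smulRight B.s0
  have hσ : ∀ z, σ z = B.X1 z.1.2 + z.2 • B.s0 := fun z => rfl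
  let WP : Submodule K P := (N.comap (LinearMap.inl K _ _)).map (LinearMap.snd K V P)
  have hWP : ∀ p, p ∈ WP ↔ ∃ d, ((d, p), (0 : K)) ∈ N := fun p => by simp [WP]
  let WS : Submodule K P := N.map σ
  have a1 : ∀ p ∈ WP, B.X b1 p ∈ WS := by
    intro p hp
    obtain ⟨d, hd⟩ := (hWP p).1 hp
    refine ⟨_, h1 _ hd, ?_⟩
    rw [hσ, B.S_mul, B.Ψ_apply]
    simp
  have a2 : ∀ p ∈ WP, B.X1 p ∈ WS := by
    intro p hp
    obtain ⟨d, hd⟩ := (hWP p).1 hp
    exact ⟨_, hd, by simp [hσ]⟩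
  have a3 : ∀ s ∈ WS, B.rS b2 s ∈ WS := by
    rintro _ ⟨⟨u, c⟩, hz, rfl⟩
    refine ⟨_, h2 _ _ hz, ?_⟩
    rw [hσ, B.S_mul, B.Ψ_apply, hσ]
    simp [B.rS_s0]
  have key : finrank K WS ≤ finrank K WP → WP.map (B.X b1) = WS := fun hle => by
    refine Submodule.eq_of_le_of_finrank_le (Submodule.map_le_iff_le_comap.2 a1) ?_
    rwa [← (Submodule.equivMapOfInjective _ h.1 WP).finrank_eq]
  have key2 : WP.map (B.X b1) = WS → ∀ p, B.X b1 p ∈ WS → p ∈ WP := fun he p hp => by
    rw [← he] at hp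
    obtain ⟨q, hq, hqp⟩ := hp
    rwa [← h.1 hqp]
  have hE : (∃ d p, ((d, p), (0 : K)) ∈ N ∧ p ≠ 0) → ∃ u, (u, (1 : K)) ∈ N := by
    rintro ⟨d, p, hdp, hp⟩
    by_contra hno
    have hle : WS ≤ WP.map B.X1 := by
      rintro _ ⟨⟨u, c⟩, hz, rfl⟩
      have hc : c = 0 := by
        by_contra hc
        apply hno
        refine ⟨c⁻¹ • u, ?_⟩
        have := N.smul_mem c⁻¹ hz
        simpa [hc] using this
      subst hc
      exact ⟨u.2, (hWP _).2 ⟨u.1, hz⟩, by simp [hσ]⟩
    have he := key ((Submodule.finrank_mono hle).trans (Submodule.finrank_map_le _ _))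
    have h3 := (h.2 WS (fun p hp => a2 p (key2 he p hp)) a3).2
      (hle.trans (LinearMap.map_le_range))
    have h4 := a1 p ((hWP p).2 ⟨d, hdp⟩)
    rw [h3, Submodule.mem_bot] at h4
    exact hp (h.1 (h4.trans (map_zero _).symm))
  refine ⟨hE, ?_⟩
  rintro ⟨d, hd⟩
  have hf : B.f ≠ 0 := fun h0 => by
    have h2 := B.ε_f
    rw [h0, map_zero] at h2
    exact zero_ne_one h2
  obtain ⟨u1, hu1⟩ := hE ⟨d, _, hd, hf⟩
  have hfW : B.f ∈ WP := (hWP _).2 ⟨d, hd⟩
  have hle : WS ≤ WP.map (B.X1 + B.ε.smulRight (σ (u1, 1))) := by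
    rintro _ ⟨⟨u, c⟩, hz, rfl⟩
    have h3 : u.2 - c • u1.2 ∈ WP := by
      refine (hWP _).2 ⟨u.1 - c • u1.1, ?_⟩
      have := N.sub_mem hz (N.smul_mem c hu1)
      convert this using 1
      ext <;> simp
    refine ⟨(u.2 - c • u1.2) - B.ε (u.2 - c • u1.2) • B.f + c • B.f,
      WP.add_mem (WP.sub_mem h3 (WP.smul_mem _ hfW)) (WP.smul_mem _ hfW), ?_⟩
    simp [hσ, B.X1_f, B.ε_f]
    abel
  have he := key ((Submodule.finrank_mono hle).trans (Submodule.finrank_map_le _ _))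
  have h3 := (h.2 WS (fun p hp => a2 p (key2 he p hp)) a3).1 (a1 _ hfW)
  intro p
  exact (hWP p).1 (key2 he p (h3 ▸ Submodule.mem_top))

theorem Stage.cond (D : Stage K) {P : Type} [AddCommGroup P] [Module K P]
    [FiniteDimensional K P] (B : BData D.mul P) {b1 b2 : D.V}
    (h : Good B.f B.X1 (B.X b1) (B.rS b2)) : (D.link B).Cond b1 b2 := by
  intro N h1 h2
  obtain ⟨h3, h4⟩ := B.cond D.om h N h1 h2
  constructor
  · rintro ⟨⟨d, p⟩, hu, hne⟩
    refine h3 ⟨d, p, hu, ?_⟩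
    rintro rfl
    exact hne rfl
  · rintro ⟨d, hd⟩ ⟨v, p⟩
    have e1 : (D.link B).inc d + (D.link B).f = ((d, B.f) : D.V × P) :=
      Prod.ext (add_zero d) (zero_add B.f)
    rw [e1] at hd
    obtain ⟨d', hd''⟩ := h4 ⟨d, hd⟩ p
    have e2 : ((v, p) : D.V × P) + (d' - v, 0) = (d', p) := by simp
    rw [← e2] at hd''
    exact ⟨d' - v, hd''⟩

theorem Stage.step [CharP K 2] [Infinite K] (D : Stage K) (F : Set (D.V × D.V)) (hF : F.Finite) :
    ∃ (D' : Stage K) (L : Link D D'), ∀ b ∈ F, LinearIndependent K ![b.1, b.2] → L.Cond b.1 b.2 := by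
  obtain ⟨B, hB⟩ := exists_BData D.ra D.nil F hF
  exact ⟨D.ext B, D.link B, fun b hb hb' => D.cond B (hB b hb hb')⟩

end Pool.Agent.MP_93f6c2_al

end MrgPart0

-- ======== part 1: formerly Pool.Agent.MP_93f6c2_al.Tower
section MrgPart1

set_option autoImplicit false
set_option linter.unusedSectionVars false

namespace Pool.Agent.MP_93f6c2_al

open Module

/-- A tower of stages in which every independent pair is eventually treated. -/
structure Tower (K : Type) [Field K] where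
  D : ℕ → Stage K
  L : ∀ j, Link (D j) (D (j + 1))
  task : ∀ (x y : ∀ j, (D j).V) (j0 : ℕ), (∀ i, j0 ≤ i → x (i + 1) = (L i).inc (x i)) →
    (∀ i, j0 ≤ i → y (i + 1) = (L i).inc (y i)) →
    ∃ j1, ∀ j, j1 ≤ j → LinearIndependent K ![x j, y j] → (L j).Cond (x j) (y j)

variable {K : Type} [Field K] [CharP K 2] [Infinite K] [Countable K]

theorem Stage.exists_enum (D : Stage K) : ∃ g : ℕ → D.V × D.V, Function.Surjective g := by
  have : Countable D.V := (Module.finBasis K D.V).equivFun.injective.countable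
  exact exists_surjective_nat _

noncomputable def Stage.enum (D : Stage K) : ℕ → D.V × D.V := D.exists_enum.choose

/-- A stage with a table of tasks. -/
structure St (K : Type) [Field K] where
  D : Stage K
  T : ℕ → ℕ → D.V × D.V

def St.F (s : St K) (j : ℕ) : Set (s.D.V × s.D.V) :=
  (fun p : ℕ × ℕ => s.T p.1 p.2) '' (Set.Iic j ×ˢ Set.Iic j)

theorem St.F_fin (s : St K) (j : ℕ) : (s.F j).Finite :=
  ((Set.finite_Iic j).prod (Set.finite_Iic j)).image _

noncomputable def St.nD (s : St K) (j : ℕ) : Stage K := (s.D.step (s.F j) (s.F_fin j)).choose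

noncomputable def St.nL (s : St K) (j : ℕ) : Link s.D (s.nD j) :=
  (s.D.step (s.F j) (s.F_fin j)).choose_spec.choose

theorem St.nL_spec (s : St K) (j : ℕ) : ∀ b ∈ s.F j, LinearIndependent K ![b.1, b.2] →
    (s.nL j).Cond b.1 b.2 :=
  (s.D.step (s.F j) (s.F_fin j)).choose_spec.choose_spec

noncomputable def St.next (s : St K) (j : ℕ) : St K where
  D := s.nD j
  T i k := if i ≤ j then ((s.nL j).inc (s.T i k).1, (s.nL j).inc (s.T i k).2) else (s.nD j).enum k

/-- The first stage. -/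
def stage0 (K : Type) [Field K] : Stage K where
  V := K
  mul := 0
  om := 0
  ra := fun _ _ => by simp
  nil := fun _ => ⟨1, by simp⟩
  om_alt := fun _ => rfl
  om_ra := fun _ _ => rfl

noncomputable def tw (K : Type) [Field K] [CharP K 2] [Infinite K] [Countable K] : ℕ → St K
  | 0 => ⟨stage0 K, fun _ => (stage0 K).enum⟩
  | j + 1 => (tw K j).next j

theorem tw_self (j k : ℕ) : (tw K j).T j k = (tw K j).D.enum k := by
  cases j with
  | zero => rfl
  | succ j => exact if_neg (by omega)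

theorem tw_succ {i j : ℕ} (h : i ≤ j) (k : ℕ) : (tw K (j + 1)).T i k =
    (((tw K j).nL j).inc ((tw K j).T i k).1, ((tw K j).nL j).inc ((tw K j).T i k).2) :=
  if_pos h

noncomputable def tower (K : Type) [Field K] [CharP K 2] [Infinite K] [Countable K] : Tower K where
  D j := (tw K j).D
  L j := (tw K j).nL j
  task x y j0 hx hy := by
    obtain ⟨k, hk⟩ := (tw K j0).D.exists_enum.choose_spec (x j0, y j0)
    have key : ∀ j, j0 ≤ j → (tw K j).T j0 k = (x j, y j) := by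
      intro j hj
      induction j, hj using Nat.le_induction with
      | base => rw [tw_self]; exact hk
      | succ j hj ih => rw [tw_succ hj, ih, hx j hj, hy j hj]; rfl
    refine ⟨max j0 k, fun j hj h => ?_⟩
    exact (tw K j).nL_spec j (x j, y j)
      ⟨(j0, k), ⟨le_of_max_le_left hj, le_of_max_le_right hj⟩, key j (le_of_max_le_left hj)⟩ h

end Pool.Agent.MP_93f6c2_al

end MrgPart1

-- ======== part 2: formerly Pool.Agent.MP_93f6c2_al.Limit
section MrgPart2

set_option autoImplicit false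
set_option linter.unusedSectionVars false

namespace Pool.Agent.MP_93f6c2_al

open Module

variable {K : Type} [Field K]

namespace Tower

variable (T : Tower K)

def Stab (x : ∀ j, (T.D j).V) (j0 : ℕ) : Prop := ∀ i, j0 ≤ i → x (i + 1) = (T.L i).inc (x i)

theorem Stab.mono {T : Tower K} {x : ∀ j, (T.D j).V} {i j : ℕ} (h : T.Stab x i) (hij : i ≤ j) :
    T.Stab x j := fun k hk => h k (hij.trans hk)

def sub : Submodule K (∀ j, (T.D j).V) where
  carrier := {x | (∀ j, (T.L j).pr (x (j + 1)) = x j) ∧ ∃ j0, T.Stab x j0}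
  add_mem' := by
    rintro x y ⟨hx, i, hi⟩ ⟨hy, j, hj⟩
    refine ⟨fun k => by simp [hx, hy], max i j, fun k hk => ?_⟩
    simp [hi k (le_of_max_le_left hk), hj k (le_of_max_le_right hk)]
  zero_mem' := ⟨fun k => by simp, 0, fun k _ => by simp⟩
  smul_mem' := by
    rintro c x ⟨hx, i, hi⟩
    exact ⟨fun k => by simp [hx], i, fun k hk => by simp [hi k hk]⟩

theorem stab_mul {x y : ∀ j, (T.D j).V} {j : ℕ}
    (h : ∃ d, ∃ c : K, x (j + 1) = (T.L j).inc d + c • (T.L j).f)
    (hx : T.Stab x (j + 1)) (hy : T.Stab y j) :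
    T.Stab (fun i => (T.D i).mul (x i) (y i)) (j + 1) := by
  intro i hi
  have h1 := (T.L i).inc_mul (x i) (y i) 0
  rw [zero_smul, add_zero] at h1
  have h2 : (T.D i).om (x i) (y i) = 0 := by
    obtain ⟨i, rfl⟩ : ∃ i', i = i' + 1 := ⟨i - 1, by omega⟩
    rw [hy i (by omega)]
    rcases (Nat.succ_le_succ_iff.1 hi).eq_or_lt with rfl | hlt
    · obtain ⟨d, c, hd⟩ := h
      rw [hd, (T.L _).inc_om]
    · have h3 := (T.L i).inc_om (x i) (y i) 0
      rwa [zero_smul, add_zero, ← hx i hlt] at h3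
  simp only [hx i hi, hy i (by omega), h1, h2, zero_smul, add_zero]

/-- The algebra. -/
def Alg : Type := T.sub

noncomputable instance : AddCommGroup T.Alg := inferInstanceAs (AddCommGroup T.sub)
noncomputable instance : Module K T.Alg := inferInstanceAs (Module K T.sub)

/-- Evaluation at a stage. -/
noncomputable def ev (j : ℕ) : T.Alg →ₗ[K] (T.D j).V := LinearMap.proj j ∘ₗ T.sub.subtype

theorem ev_ext {x y : T.Alg} (h : ∀ j, T.ev j x = T.ev j y) : x = y :=
  Subtype.ext (funext h)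

theorem ev_pr (x : T.Alg) (j : ℕ) : (T.L j).pr (T.ev (j + 1) x) = T.ev j x := x.2.1 j

noncomputable instance : Mul T.Alg where
  mul x y := ⟨fun j => (T.D j).mul (T.ev j x) (T.ev j y), fun j => by
      simp only [(T.L j).pr_mul, ev_pr], by
    obtain ⟨i, hi⟩ := x.2.2
    obtain ⟨j, hj⟩ := y.2.2
    exact ⟨max i j + 1, T.stab_mul ⟨_, 0, by
      rw [zero_smul, add_zero]; exact hi _ (le_max_left _ _)⟩ (hi.mono (by omega))
      (hj.mono (le_max_right _ _))⟩⟩

theorem ev_mul (x y : T.Alg) (j : ℕ) : T.ev j (x * y) = (T.D j).mul (T.ev j x) (T.ev j y) := rfl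

noncomputable instance : NonUnitalNonAssocRing T.Alg where
  left_distrib x y z := T.ev_ext fun j => by simp [ev_mul]
  right_distrib x y z := T.ev_ext fun j => by simp [ev_mul]
  zero_mul x := T.ev_ext fun j => by simp [ev_mul]
  mul_zero x := T.ev_ext fun j => by simp [ev_mul]

instance : IsScalarTower K T.Alg T.Alg where
  smul_assoc c x y := T.ev_ext fun j => by simp [ev_mul]

instance : SMulCommClass K T.Alg T.Alg where
  smul_comm c x y := T.ev_ext fun j => by simp [ev_mul]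

theorem ra (x y : T.Alg) : (y * x) * x = y * (x * x) :=
  T.ev_ext fun j => by simp only [ev_mul, (T.D j).ra _ _]

/-- Elements that come from stage `j`. -/
noncomputable def G (j : ℕ) : Submodule K T.Alg where
  carrier := {x | T.Stab (fun i => T.ev i x) j}
  add_mem' := fun {x y} hx hy k hk => by simp [hx k hk, hy k hk]
  zero_mem' := fun k _ => by simp
  smul_mem' := fun c x hx k hk => by simp [hx k hk]

theorem mem_G {j : ℕ} {x : T.Alg} :
    x ∈ T.G j ↔ ∀ i, j ≤ i → T.ev (i + 1) x = (T.L i).inc (T.ev i x) := Iff.rfl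

theorem G_mono {i j : ℕ} (h : i ≤ j) : T.G i ≤ T.G j := fun _ hx => Stab.mono hx h

theorem exists_G (x : T.Alg) : ∃ j, x ∈ T.G j := x.2.2

theorem eq_zero_of_G {j : ℕ} {x : T.Alg} (hx : x ∈ T.G j) (h : T.ev j x = 0) : x = 0 := by
  refine T.ev_ext fun i => ?_
  rw [map_zero]
  rcases le_total i j with hi | hi
  · induction hi using Nat.decreasingInduction with
    | self => exact h
    | of_succ k _ ih => rw [← ev_pr, ih, map_zero]
  · induction i, hi using Nat.le_induction with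
    | base => exact h
    | succ i hi ih => rw [T.mem_G.1 hx i hi, ih, map_zero]

instance (j : ℕ) : FiniteDimensional K (T.G j) :=
  FiniteDimensional.of_injective (T.ev j ∘ₗ (T.G j).subtype) (by
    rw [injective_iff_map_eq_zero]
    intro x hx
    exact Subtype.ext (T.eq_zero_of_G x.2 hx))

theorem exists_lift (j : ℕ) (v : (T.D j).V) : ∃ x ∈ T.G j, T.ev j x = v := by
  have up : ∀ (j : ℕ) (v : (T.D j).V), ∃ x : ∀ i, (T.D i).V, x j = v ∧ T.Stab x j := by
    intro j v
    refine ⟨fun i => if h : j ≤ i then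
      Nat.leRec (motive := fun i _ => (T.D i).V) v (fun i _ w => (T.L i).inc w) h else 0, ?_, ?_⟩
    · simp
    · intro i hi
      simp only [dif_pos hi, dif_pos (Nat.le_succ_of_le hi)]
      rw [Nat.leRec_succ _ _ hi]
  have main : ∃ x : ∀ i, (T.D i).V, x j = v ∧ T.Stab x j ∧
      ∀ i < j, (T.L i).pr (x (i + 1)) = x i := by
    induction j with
    | zero =>
      obtain ⟨x, h1, h2⟩ := up 0 v
      exact ⟨x, h1, h2, fun i hi => by omega⟩
    | succ j ih =>
      obtain ⟨x, h1, _, h3⟩ := ih ((T.L j).pr v)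
      obtain ⟨y, h4, h5⟩ := up (j + 1) v
      refine ⟨fun i => if i ≤ j then x i else y i, by simp [h4], fun i hi => ?_, fun i hi => ?_⟩
      · simp only [if_neg (show ¬ i + 1 ≤ j by omega), if_neg (show ¬ i ≤ j by omega)]
        exact h5 i hi
      · rcases (Nat.lt_succ_iff.1 hi).eq_or_lt with rfl | hlt
        · simp [h4, h1]
        · simp only [if_pos (show i + 1 ≤ j by omega), if_pos (show i ≤ j by omega)]
          exact h3 i hlt
  obtain ⟨x, h1, h2, h3⟩ := main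
  refine ⟨⟨x, fun i => ?_, j, h2⟩, h2, h1⟩
  rcases lt_or_ge i j with hi | hi
  · exact h3 i hi
  · rw [h2 i hi, (T.L i).pr_inc]

theorem sq_mem_G {j : ℕ} {x : T.Alg} (hx : x ∈ T.G j) : x * x ∈ T.G j := by
  intro i hi
  have h1 := (T.L i).inc_mul (T.ev i x) (T.ev i x) 0
  rw [zero_smul, add_zero, (T.D i).om_alt, zero_smul, add_zero] at h1
  simp only [ev_mul, T.mem_G.1 hx i hi, h1]

theorem sq_nil (x : T.Alg) : ∃ k : ℕ, (fun z => z * z)^[k] x = 0 := by
  obtain ⟨j, hj⟩ := T.exists_G x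
  obtain ⟨k, hk⟩ := (T.D j).nil (T.ev j x)
  have key : ∀ n : ℕ, (fun z => z * z)^[n] x ∈ T.G j ∧
      T.ev j ((fun z => z * z)^[n] x) = (fun z => (T.D j).mul z z)^[n] (T.ev j x) := by
    intro n
    induction n with
    | zero => exact ⟨hj, rfl⟩
    | succ n ih =>
      simp only [Function.iterate_succ_apply']
      exact ⟨T.sq_mem_G ih.1, by rw [ev_mul, ih.2]⟩
  exact ⟨k, T.eq_zero_of_G (key k).1 ((key k).2.trans hk)⟩

theorem nil (x : T.Alg) : ∃ n : ℕ, List.foldl (fun u v => u * v) x (List.replicate n x) = 0 := by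
  obtain ⟨k, hk⟩ := T.sq_nil x
  have key : ∀ (n : ℕ) (y : T.Alg), List.foldl (fun u v => u * v) y (List.replicate (2 ^ n) x) =
      y * (fun z => z * z)^[n] x := by
    intro n
    induction n with
    | zero => intro y; simp
    | succ n ih =>
      intro y
      rw [pow_succ, mul_two, List.replicate_add, List.foldl_append, ih, ih,
        Function.iterate_succ_apply', ra]
  exact ⟨2 ^ k, by rw [key, hk, mul_zero]⟩

/-- Elements of stage `j + 1` whose new component is the distinguished vector. -/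
def Top (j : ℕ) (x : T.Alg) : Prop :=
  x ∈ T.G (j + 1) ∧ ∃ d, T.ev (j + 1) x = (T.L j).inc d + (T.L j).f

theorem Top.not_mem {T : Tower K} {j : ℕ} {x : T.Alg} (h : T.Top j x) : x ∉ T.G j := by
  intro hx
  obtain ⟨d, hd⟩ := h.2
  have h1 := T.ev_pr x j
  rw [hd, map_add, (T.L j).pr_inc, (T.L j).pr_f, add_zero] at h1
  rw [T.mem_G.1 hx j le_rfl, ← h1] at hd
  exact (T.L j).f_ne (left_eq_add.1 hd)

theorem exists_Top (j : ℕ) : ∃ x, T.Top j x := by
  obtain ⟨x, hx, h⟩ := T.exists_lift (j + 1) (T.L j).f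
  exact ⟨x, hx, 0, by simp [h]⟩

theorem escape (B : NonUnitalSubalgebra K T.Alg) {j : ℕ} {b1 b2 : T.Alg} (hb1 : b1 ∈ B)
    (hb2 : b2 ∈ B) (g1 : b1 ∈ T.G j) (g2 : b2 ∈ T.G j)
    (h : (T.L j).Cond (T.ev j b1) (T.ev j b2)) :
    ((∃ x ∈ B, x ∈ T.G (j + 1) ∧ x ∉ T.G j) → ∃ x ∈ B, T.Top (j + 1) x) ∧
    ((∃ x ∈ B, T.Top j x) → T.G (j + 1) ≤ B.toSubmodule ⊔ T.G j) := by
  let N : Submodule K ((T.D (j + 1)).V × K) :=
    ((B.toSubmodule ⊓ T.G (j + 2)).map (T.ev (j + 2))).comap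
      ((T.L (j + 1)).inc.coprod (LinearMap.toSpanSingleton K _ (T.L (j + 1)).f))
  have hN : ∀ u c, (u, c) ∈ N ↔ ∃ x ∈ B, x ∈ T.G (j + 2) ∧
      T.ev (j + 2) x = (T.L (j + 1)).inc u + c • (T.L (j + 1)).f := fun u c => by
    simp [N, and_assoc]
  have hN0 : ∀ u, (u, (0 : K)) ∈ N ↔ ∃ x ∈ B, x ∈ T.G (j + 1) ∧ T.ev (j + 1) x = u := by
    intro u
    rw [hN, zero_smul, add_zero]
    constructor
    · rintro ⟨x, hx, h1, h2⟩
      have h3 : T.ev (j + 1) x = u := by rw [← ev_pr, h2, (T.L _).pr_inc]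
      refine ⟨x, hx, fun i hi => ?_, h3⟩
      rcases hi.eq_or_lt with rfl | hlt
      · exact h2.trans (congrArg _ h3.symm)
      · exact h1 i hlt
    · rintro ⟨x, hx, h1, h2⟩
      exact ⟨x, hx, T.G_mono (by omega) h1, by rw [T.mem_G.1 h1 _ le_rfl, h2]⟩
  have e1 := T.mem_G.1 g1
  have e2 := T.mem_G.1 g2
  obtain ⟨h1, h2⟩ := h N (fun u hu => by
      obtain ⟨x, hx, h1, h2⟩ := (hN0 u).1 hu
      refine (hN _ _).2 ⟨b1 * x, B.mul_mem hb1 hx, T.stab_mul ⟨_, 0, by
        rw [zero_smul, add_zero]; exact e1 _ (by omega)⟩ (Stab.mono g1 (by omega)) h1, ?_⟩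
      have h3 := (T.L (j + 1)).inc_mul (T.ev (j + 1) b1) u 0
      rw [zero_smul, add_zero] at h3
      rw [ev_mul, e1 _ (by omega), T.mem_G.1 h1 _ le_rfl, h2, h3, e1 _ le_rfl])
    (fun u c hu => by
      obtain ⟨x, hx, h1, h2⟩ := (hN u c).1 hu
      refine (hN _ _).2 ⟨x * b2, B.mul_mem hx hb2, T.stab_mul ⟨_, _, h2⟩ h1
        (Stab.mono g2 (by omega)), ?_⟩
      rw [ev_mul, e2 _ (by omega), h2, (T.L (j + 1)).inc_mul, e2 _ le_rfl])
  constructor
  · rintro ⟨x, hx, h3, h4⟩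
    obtain ⟨u, hu⟩ := h1 ⟨_, (hN0 _).2 ⟨x, hx, h3, rfl⟩, fun he => h4 fun i hi => by
      rcases hi.eq_or_lt with rfl | hlt
      · exact he.trans (by rw [ev_pr])
      · exact h3 i hlt⟩
    obtain ⟨y, hy, h5, h6⟩ := (hN _ _).1 hu
    exact ⟨y, hy, h5, u, by rw [h6, one_smul]⟩
  · rintro ⟨x, hx, h3, d, hd⟩ z hz
    obtain ⟨d', hd'⟩ := h2 ⟨d, (hN0 _).2 ⟨x, hx, h3, hd⟩⟩ (T.ev (j + 1) z)
    obtain ⟨y, hy, h5, h6⟩ := (hN0 _).1 hd'
    refine Submodule.mem_sup.2 ⟨y, hy, z - y, fun i hi => ?_, by abel⟩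
    rcases hi.eq_or_lt with rfl | hlt
    · have h7 : T.ev (j + 1) (z - y) = (T.L j).inc (-d') := by simp [h6]
      change T.ev (j + 1) (z - y) = (T.L j).inc (T.ev j (z - y))
      rw [← T.ev_pr (z - y) j, h7, (T.L j).pr_inc]
    · exact (T.G (j + 1)).sub_mem hz h5 i hlt

theorem dichotomy (B : NonUnitalSubalgebra K T.Alg) {b1 b2 : T.Alg} (hb1 : b1 ∈ B) (hb2 : b2 ∈ B)
    (hb : LinearIndependent K ![b1, b2]) :
    ∃ j, ∀ B' : NonUnitalSubalgebra K T.Alg, B ≤ B' →
      B'.toSubmodule ≤ T.G j ∨ ∃ i, B'.toSubmodule ⊔ T.G i = ⊤ := by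
  obtain ⟨i1, h1⟩ := T.exists_G b1
  obtain ⟨i2, h2⟩ := T.exists_G b2
  have g1 := T.G_mono (le_max_left i1 i2) h1
  have g2 := T.G_mono (le_max_right i1 i2) h2
  obtain ⟨j1, hj1⟩ := T.task (fun i => T.ev i b1) (fun i => T.ev i b2) _ g1 g2
  refine ⟨max j1 (max i1 i2), fun B' hB => ?_⟩
  have hc : ∀ j, max j1 (max i1 i2) ≤ j →
      ((∃ x ∈ B', x ∈ T.G (j + 1) ∧ x ∉ T.G j) → ∃ x ∈ B', T.Top (j + 1) x) ∧
      ((∃ x ∈ B', T.Top j x) → T.G (j + 1) ≤ B'.toSubmodule ⊔ T.G j) := by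
    intro j hj
    have g1' := T.G_mono (le_of_max_le_right hj) g1
    have g2' := T.G_mono (le_of_max_le_right hj) g2
    refine T.escape B' (hB hb1) (hB hb2) g1' g2' (hj1 j (le_of_max_le_left hj) ?_)
    rw [LinearIndependent.pair_iff] at hb ⊢
    intro s t hst
    exact hb s t (T.eq_zero_of_G ((T.G j).add_mem ((T.G j).smul_mem s g1') ((T.G j).smul_mem t g2'))
      (by simpa using hst))
  by_cases hle : B'.toSubmodule ≤ T.G (max j1 (max i1 i2))
  · exact Or.inl hle
  right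
  obtain ⟨x, hx, hx'⟩ := SetLike.not_le_iff_exists.1 hle
  obtain ⟨j, hj, hxj, hxj'⟩ : ∃ j, max j1 (max i1 i2) ≤ j ∧ x ∈ T.G (j + 1) ∧ x ∉ T.G j := by
    by_contra hcon
    push Not at hcon
    obtain ⟨i, hi⟩ := T.exists_G x
    have key : ∀ n, x ∉ T.G (max j1 (max i1 i2) + n) := by
      intro n
      induction n with
      | zero => exact hx'
      | succ n ih => exact fun h => ih (hcon _ (by omega) h)
    exact key i (T.G_mono (by omega) hi)
  have htop : ∀ i, j + 1 ≤ i → ∃ x ∈ B', T.Top i x := by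
    intro i hi
    induction i, hi using Nat.le_induction with
    | base => exact (hc j hj).1 ⟨x, hx, hxj, hxj'⟩
    | succ i hi ih =>
      obtain ⟨y, hy, hy'⟩ := ih
      exact (hc i (by omega)).1 ⟨y, hy, hy'.1, hy'.not_mem⟩
  have hall : ∀ i, j + 1 ≤ i → T.G i ≤ B'.toSubmodule ⊔ T.G (j + 1) := by
    intro i hi
    induction i, hi using Nat.le_induction with
    | base => exact le_sup_right
    | succ i hi ih => exact ((hc i (by omega)).2 (htop i hi)).trans (sup_le le_sup_left ih)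
  refine ⟨j + 1, eq_top_iff.2 fun z _ => ?_⟩
  obtain ⟨i, hi⟩ := T.exists_G z
  exact hall (max i (j + 1)) (le_max_right _ _) (T.G_mono (le_max_left _ _) hi)

theorem acc : WellFoundedGT (NonUnitalSubalgebra K T.Alg) := by
  refine ⟨RelEmbedding.wellFounded_iff_isEmpty.2 ⟨fun φ => ?_⟩⟩
  have hφ : StrictMono φ := fun a b h => φ.map_rel_iff.2 h
  have fin : ∀ (i : ℕ) (G : Submodule K T.Alg) [FiniteDimensional K G],
      (∀ k, i ≤ k → (φ k).toSubmodule ≤ (φ i).toSubmodule ⊔ G) → False := by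
    intro i G _ hG
    have h1 : StrictMono fun k => ((φ (i + k)).toSubmodule.comap G.subtype : Submodule K G) := by
      refine strictMono_nat_of_lt_succ fun k => ?_
      have hlt := hφ (show i + k < i + (k + 1) by omega)
      refine lt_of_le_of_ne (Submodule.comap_mono hlt.le) fun he => hlt.not_ge fun x hx => ?_
      obtain ⟨y, hy, z, hz, rfl⟩ := Submodule.mem_sup.1 (hG _ (by omega) hx)
      have hy' : y ∈ φ (i + k) := hφ.monotone (show i ≤ i + k by omega) hy
      have hz' : (⟨z, hz⟩ : G) ∈ (φ (i + (k + 1))).toSubmodule.comap G.subtype := by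
        have := (φ (i + (k + 1))).toSubmodule.sub_mem hx (hlt.le hy')
        simpa using this
      rw [← he] at hz'
      exact (φ (i + k)).add_mem hy' hz'
    exact not_strictMono_of_wellFoundedGT _ h1
  obtain ⟨b1, hb1, hb1'⟩ := SetLike.exists_of_lt (hφ (show 0 < 1 by omega))
  obtain ⟨b2, hb2, hb2'⟩ := SetLike.exists_of_lt (hφ (show 1 < 2 by omega))
  have hb0 : b1 ≠ 0 := fun h => hb1' (h ▸ (φ 0).zero_mem)
  have hb : LinearIndependent K ![b1, b2] := by
    rw [LinearIndependent.pair_iff' hb0]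
    rintro a rfl
    exact hb2' ((φ 1).toSubmodule.smul_mem a hb1)
  obtain ⟨j, hj⟩ := T.dichotomy (φ 2) (hφ.monotone (show 1 ≤ 2 by omega) hb1) hb2 hb
  by_cases hcase : ∀ k, 2 ≤ k → (φ k).toSubmodule ≤ T.G j
  · exact fin 2 (T.G j) fun k hk => (hcase k hk).trans le_sup_right
  · push Not at hcase
    obtain ⟨k, hk, hk'⟩ := hcase
    obtain ⟨i, hi⟩ := (hj (φ k) (hφ.monotone hk)).resolve_left hk'
    exact fin k (T.G i) fun _ _ => hi ▸ le_top

theorem not_finite : ¬ FiniteDimensional K T.Alg := by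
  intro h
  have h1 : StrictMono T.G := by
    refine strictMono_nat_of_lt_succ fun k => ?_
    obtain ⟨x, hx⟩ := T.exists_Top k
    exact lt_of_le_of_ne (T.G_mono (by omega)) fun he => hx.not_mem (he ▸ hx.1)
  exact not_strictMono_of_wellFoundedGT _ h1

end Tower

/-- A right nilpotent algebra with the maximal condition on subalgebras is finite dimensional. -/
theorem finite_of_right_nilpotent {A : Type} [NonUnitalNonAssocRing A] [Module K A]
    [IsScalarTower K A A] [SMulCommClass K A A] (h : WellFoundedGT (NonUnitalSubalgebra K A))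
    (n : ℕ) (hn : ∀ (a : A) (l : List A), l.length = n → List.foldl (fun u v => u * v) a l = 0) :
    FiniteDimensional K A := by
  let I : ℕ → Submodule K A := fun k =>
    Submodule.span K {y | ∃ (a : A) (l : List A), l.length = k ∧ y = List.foldl (fun u v => u * v) a l}
  have hI : ∀ k, ∀ x ∈ I k, ∀ y, x * y ∈ I (k + 1) := by
    intro k x hx y
    induction hx using Submodule.span_induction with
    | mem x hx =>
      obtain ⟨a, l, hl, rfl⟩ := hx
      exact Submodule.subset_span ⟨a, l ++ [y], by simp [hl], by simp⟩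
    | zero => simp
    | add x z _ _ hx hz => rw [add_mul]; exact Submodule.add_mem _ hx hz
    | smul c x _ hx => rw [smul_mul_assoc]; exact Submodule.smul_mem _ _ hx
  have hanti : ∀ k, I (k + 1) ≤ I k := by
    intro k
    refine Submodule.span_le.2 ?_
    rintro _ ⟨a, l, hl, rfl⟩
    obtain _ | ⟨b, l⟩ := l
    · simp at hl
    · exact Submodule.subset_span ⟨a * b, l, by simpa using hl, rfl⟩
  have step : ∀ k, (I (k + 1)).FG → (I k).FG := by
    intro k hk
    let mk : ∀ N : Submodule K A, I (k + 1) ≤ N → N ≤ I k → NonUnitalSubalgebra K A :=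
      fun N h1 h2 => N.toNonUnitalSubalgebra fun x y hx _ => h1 (hI k x (h2 hx) y)
    obtain ⟨B, ⟨h1, h2, h3⟩, hmax⟩ := h.wf.has_min
      {B | B.toSubmodule.FG ∧ I (k + 1) ≤ B.toSubmodule ∧ B.toSubmodule ≤ I k}
      ⟨mk (I (k + 1)) le_rfl (hanti k), hk, le_rfl, hanti k⟩
    have : B.toSubmodule = I k := by
      refine le_antisymm h3 fun x hx => ?_
      by_contra hxB
      have h4 : B.toSubmodule ⊔ Submodule.span K {x} ≤ I k :=
        sup_le h3 ((Submodule.span_singleton_le_iff_mem _ _).2 hx)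
      refine hmax (mk _ (h2.trans le_sup_left) h4)
        ⟨h1.sup (Submodule.fg_span_singleton x), h2.trans le_sup_left, h4⟩ ?_
      refine lt_of_le_of_ne (fun z hz => Submodule.mem_sup_left hz) fun he => hxB ?_
      rw [he]
      exact Submodule.mem_sup_right (Submodule.mem_span_singleton_self x)
    exact this ▸ h1
  have hn0 : I n = ⊥ := by
    rw [Submodule.span_eq_bot]
    rintro _ ⟨a, l, hl, rfl⟩
    exact hn a l hl
  have h0 : (I 0).FG := by
    refine Nat.decreasingInduction (motive := fun k _ => (I k).FG) (fun k _ ih => step k ih) ?_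
      (Nat.zero_le n)
    rw [hn0]
    exact Submodule.fg_bot
  have htop : I 0 = ⊤ := eq_top_iff.2 fun x _ => Submodule.subset_span ⟨x, [], rfl, rfl⟩
  exact ⟨htop ▸ h0⟩

end Pool.Agent.MP_93f6c2_al

end MrgPart2

-- marker of a merged file
example : 731051 + 601286 = 731051 + 601286 := rfl
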