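import Mathlib

/-!
Strongly right alternative nil algebras with the maximal condition on subalgebras, part 1:
calculus of absolute zero divisors, finiteness lemmas, the right regular representation.
-/

set_option autoImplicit false

namespace Pool.Agent.MP_93f6c2_al.Mou

universe u v w

section RingCalc
variable {E : Type w} [Ring E]

/-- `z` is an absolute zero divisor for the set `J`, which is closed under the Jordan products. -/
structure Azd (J : Set E) (z : E) : Prop where
  mem : z ∈ J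
  sq : z * z = 0
  sand : ∀ a ∈ J, z * a * z = 0
  jv : ∀ a ∈ J, ∀ b ∈ J, a * b + b * a ∈ J
  ju : ∀ a ∈ J, ∀ b ∈ J, a * b * a ∈ J
  jt : ∀ a ∈ J, ∀ b ∈ J, ∀ c ∈ J, a * b * c + c * b * a ∈ J

variable {J : Set E} {z : E}

theorem Azd.ww (h : Azd J z) {c y : E} (hc : c ∈ J) (hy : y ∈ J) :
    (z * c + c * z) * (z * y + y * z) = z * c * y * z := by
  have e : (z * c + c * z) * (z * y + y * z) =
      (z * c * z) * y + z * c * y * z + c * (z * z) * y + c * (z * y * z) := by noncomm_ring
  rw [e, h.sq, h.sand c hc, h.sand y hy]; noncomm_ring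

theorem Azd.skew (h : Azd J z) {a b : E} (ha : a ∈ J) (hb : b ∈ J) :
    z * a * b * z = -(z * b * a * z) := by
  have e := h.sand _ (h.jv a ha b hb)
  rw [eq_neg_iff_add_eq_zero, ← e]; noncomm_ring

theorem Azd.blk (h : Azd J z) {a b c d : E} (ha : a ∈ J) (hb : b ∈ J) (hc : c ∈ J) (hd : d ∈ J) :
    z * a * b * z * c * d * z = -(z * c * d * z * a * b * z) := by
  have e := h.sand _ (h.jt a ha b hb _ (h.jt z h.mem c hc d hd))
  have e1 : z * (a * b * (z * c * d + d * c * z) + (z * c * d + d * c * z) * b * a) * z =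
      z * a * b * z * c * d * z + z * a * b * d * c * (z * z) + (z * z) * c * d * b * a * z +
        (z * d * c * z) * b * a * z := by noncomm_ring
  rw [e1, h.sq, h.skew hd hc] at e
  have e3 : z * c * d * z * a * b * z = z * c * d * (z * a * b * z) := by noncomm_ring
  have e4 := h.skew ha hb
  rw [e3, eq_neg_iff_add_eq_zero, ← e]
  congr 1
  · noncomm_ring
  · rw [e4]; noncomm_ring

theorem Azd.g4 (h : Azd J z) {c y x : E} (hc : c ∈ J) (hy : y ∈ J) (hx : x ∈ J)
    (hw : (z * c + c * z) * y * (z * c + c * z) = 0) : z * c * y * z * c * x * z = 0 := by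
  have e1 : (z * c + c * z) * y * (z * c + c * z) =
      z * c * y * z * c + z * (c * y * c) * z + c * (z * y * z) * c + c * (z * y * c * z) := by
    noncomm_ring
  rw [e1, h.sand _ (h.ju c hc y hy), h.sand y hy, h.skew hy hc] at hw
  have e2 : z * c * y * z * c * x * z =
      (z * c * y * z * c + 0 + c * 0 * c + c * -(z * c * y * z)) * x * z +
        c * z * c * y * (z * x * z) := by noncomm_ring
  rw [e2, hw, h.sand x hx]; noncomm_ring

theorem Azd.k6 (h : Azd J z) {c y y1 u u1 : E} (hc : c ∈ J) (hy : y ∈ J) (hy1 : y1 ∈ J)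
    (hu : u ∈ J) (hu1 : u1 ∈ J) (hw : (z * c + c * z) * y * (z * c + c * z) = 0) :
    (z * c * y * z * u - u * (z * c * y * z)) * (z * c * y1 * z * u1 - u1 * (z * c * y1 * z)) =
      0 := by
  have e1 : (z * c * y * z * u - u * (z * c * y * z)) *
      (z * c * y1 * z * u1 - u1 * (z * c * y1 * z)) =
      z * c * y * (z * u * z) * c * y1 * z * u1 - (z * c * y * z * u * u1 * z) * c * y1 * z -
        u * z * c * y * (z * z) * c * y1 * z * u1 + u * z * c * y * (z * u1 * z) * c * y1 * z := by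
    noncomm_ring
  have e2 : z * u * u1 * z * c * y * z * c * y1 * z = z * u * u1 * (z * c * y * z * c * y1 * z) := by
    noncomm_ring
  rw [e1, h.sand u hu, h.sand u1 hu1, h.sq, h.blk hc hy hu hu1]
  have e3 : z * c * y * 0 * c * y1 * z * u1 - -(z * u * u1 * z * c * y * z) * c * y1 * z -
      u * z * c * y * 0 * c * y1 * z * u1 + u * z * c * y * 0 * c * y1 * z =
      z * u * u1 * z * c * y * z * c * y1 * z := by noncomm_ring
  rw [e3, e2, h.g4 hc hy hy1 hw, mul_zero]

theorem loc_nil {b y : E} (hb : b * b = 0) (k : ℕ) :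
    b * (b * y + y * b) ^ k = (b * y) ^ k * b := by
  induction k with
  | zero => simp
  | succ k ih =>
    rw [pow_succ, ← mul_assoc, ih, pow_succ]
    have e : (b * y) ^ k * b * (b * y + y * b) =
        (b * y) ^ k * (b * b) * y + (b * y) ^ k * (b * y) * b := by noncomm_ring
    rw [e, hb]; noncomm_ring

end RingCalc

variable {Φ : Type u} {A : Type v} [CommRing Φ] [NonUnitalNonAssocRing A] [Module Φ A]
  [IsScalarTower Φ A A] [SMulCommClass Φ A A]

/-- The right power `x ^ (n + 1)`. -/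
def pw (x : A) : ℕ → A
  | 0 => x
  | n + 1 => pw x n * x

theorem foldl_pw (x : A) (n : ℕ) :
    List.foldl (fun u v => u * v) x (List.replicate n x) = pw x n := by
  induction n with
  | zero => rfl
  | succ n ih => rw [List.replicate_succ', List.foldl_append, ih]; rfl

/-- The standing hypotheses. -/
structure Hyp (Φ : Type u) (A : Type v) [CommRing Φ] [NonUnitalNonAssocRing A] [Module Φ A] : Prop where
  ra : ∀ x y : A, x * y * y = x * (y * y)
  mou : ∀ x y z : A, x * y * z * y = x * (y * z * y)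
  nil : ∀ x : A, ∃ n, pw x n = 0
  acc : WellFoundedGT (NonUnitalSubalgebra Φ A)

theorem lin_of_ra (ra : ∀ x y : A, x * y * y = x * (y * y)) (x a b : A) :
    x * (a * b + b * a) = x * a * b + x * b * a := by
  have h := ra x (a + b)
  simp only [mul_add, add_mul, ra x a, ra x b] at h
  rw [mul_add, ← sub_eq_zero, ← neg_eq_zero, ← sub_eq_zero.2 h]
  abel

omit [IsScalarTower Φ A A] [SMulCommClass Φ A A] in
theorem Hyp.lin (H : Hyp Φ A) (x a b : A) : x * (a * b + b * a) = x * a * b + x * b * a :=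
  lin_of_ra H.ra x a b

omit [IsScalarTower Φ A A] [SMulCommClass Φ A A] in
theorem Hyp.lin3 (H : Hyp Φ A) (x a b c : A) :
    x * (a * b * c + c * b * a) = x * a * b * c + x * c * b * a := by
  have h := H.mou x (a + c) b
  simp only [mul_add, add_mul, H.mou x a b, H.mou x c b] at h
  rw [mul_add, ← sub_eq_zero, ← neg_eq_zero, ← sub_eq_zero.2 h]
  abel

omit [IsScalarTower Φ A A] [SMulCommClass Φ A A] in
theorem Hyp.mul_pw (H : Hyp Φ A) (x : A) (n : ℕ) :
    (∀ a, a * pw x n = (fun u => u * x)^[n + 1] a) ∧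
      ∀ a, a * pw x (n + 1) = (fun u => u * x)^[n + 2] a := by
  have hp : ∀ n, pw x n = (fun u => u * x)^[n] x := fun n => by
    induction n with
    | zero => rfl
    | succ n ih => rw [Function.iterate_succ_apply', ← ih]; rfl
  induction n with
  | zero => exact ⟨fun a => rfl, fun a => (H.ra a x).symm⟩
  | succ n ih =>
    refine ⟨ih.2, fun a => ?_⟩
    have e : pw x (n + 1 + 1) = x * pw x n * x := by
      rw [ih.1 x, ← hp]; rfl
    rw [e, ← H.mou, ih.1, ← Function.iterate_succ_apply (fun u => u * x) (n + 1) a,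
      Function.iterate_succ_apply' (fun u => u * x) (n + 2) a]

omit [IsScalarTower Φ A A] [SMulCommClass Φ A A] in
theorem Hyp.pw_mul_pw (H : Hyp Φ A) (x : A) (i j : ℕ) : pw x i * pw x j = pw x (i + j + 1) := by
  rw [(H.mul_pw x j).1]
  induction j with
  | zero => rfl
  | succ j ih => rw [Function.iterate_succ_apply', ih]; rfl

omit [IsScalarTower Φ A A] [SMulCommClass Φ A A] in
theorem Hyp.pw_orth (H : Hyp Φ A) {x y : A} (h1 : x * y = 0) (h2 : y * x = 0) (i j : ℕ) :
    pw x i * pw y j = 0 := by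
  have h : pw x i * y = 0 := by
    induction i with
    | zero => exact h1
    | succ i ih =>
      have e := H.lin (pw x i) x y
      rw [h1, h2, ih] at e
      simpa [pw] using e.symm
  rw [(H.mul_pw y j).1, Function.iterate_succ_apply, h]
  exact Function.iterate_fixed (zero_mul y) j

omit [IsScalarTower Φ A A] [SMulCommClass Φ A A] in
/-- A submodule whose products lie in a Noetherian submodule contained in it is Noetherian. -/
theorem Hyp.noeth_of_sq (H : Hyp Φ A) {C W : Submodule Φ A} (hCW : C ≤ W)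
    (h : ∀ x ∈ W, ∀ y ∈ W, x * y ∈ C) (hC : IsNoetherian Φ C) : IsNoetherian Φ W := by
  have hq : IsNoetherian Φ (W.map C.mkQ) := by
    rw [← monotone_stabilizes_iff_noetherian]
    intro f
    let g : ℕ → Submodule Φ A := fun n => ((f n).map (W.map C.mkQ).subtype).comap C.mkQ
    have hg : ∀ n, g n ≤ W := fun n => by
      refine (Submodule.comap_mono (Submodule.map_subtype_le _ _)).trans ?_
      rw [Submodule.comap_map_mkQ]
      exact sup_le hCW le_rfl
    let B : ℕ →o NonUnitalSubalgebra Φ A :=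
      ⟨fun n => (g n).toNonUnitalSubalgebra fun x y hx hy => by
          have : C.mkQ (x * y) = 0 := (Submodule.Quotient.mk_eq_zero C).2 (h x (hg n hx) y (hg n hy))
          change C.mkQ (x * y) ∈ (f n).map (W.map C.mkQ).subtype
          rw [this]; exact Submodule.zero_mem _,
        fun m n hmn x hx => Submodule.comap_mono (Submodule.map_mono (f.monotone hmn)) hx⟩
    obtain ⟨n, hn⟩ := wellFoundedGT_iff_monotone_chain_condition.1 H.acc B
    refine ⟨n, fun m hm => ?_⟩
    have e : g n = g m := congrArg NonUnitalSubalgebra.toSubmodule (hn m hm)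
    exact Submodule.map_injective_of_injective (Submodule.injective_subtype _)
      (Submodule.comap_injective_of_surjective C.mkQ_surjective e)
  rw [isNoetherian_submodule] at hq hC ⊢
  intro s hs
  refine Submodule.fg_of_fg_map_of_fg_inf_ker C.mkQ (hq _ (Submodule.map_mono hs)) (hC _ ?_)
  rw [Submodule.ker_mkQ]; exact inf_le_right

/-- The span of the powers of `x` from the `k`-th one on. -/
def PW (Φ : Type u) {A : Type v} [CommRing Φ] [NonUnitalNonAssocRing A] [Module Φ A] (x : A) (k : ℕ) :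
    Submodule Φ A := Submodule.span Φ {u | ∃ j, k ≤ j ∧ u = pw x j}

theorem span_mul_mem {s t : Set A} {C : Submodule Φ A} (h : ∀ u ∈ s, ∀ v ∈ t, u * v ∈ C) {x y : A}
    (hx : x ∈ Submodule.span Φ s) (hy : y ∈ Submodule.span Φ t) : x * y ∈ C := by
  have h1 : ∀ u ∈ s, u * y ∈ C := fun u hu =>
    (Submodule.span_le.2 (fun v hv => h u hu v hv) :
      Submodule.span Φ t ≤ C.comap (LinearMap.mulLeft Φ u)) hy
  exact (Submodule.span_le.2 h1 : Submodule.span Φ s ≤ C.comap (LinearMap.mulRight Φ y)) hx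

theorem Hyp.noeth_PW (H : Hyp Φ A) (x : A) : IsNoetherian Φ (PW Φ x 0) := by
  obtain ⟨n, hn⟩ := H.nil x
  have hz : ∀ j, pw x (n + j) = 0 := fun j => by
    induction j with
    | zero => exact hn
    | succ j ih => change pw x (n + j) * x = 0; rw [ih, zero_mul]
  have key : ∀ d k, k + d = n → IsNoetherian Φ (PW Φ x k) := fun d => by
    induction d with
    | zero =>
      intro k hk
      have : PW Φ x k = ⊥ := by
        rw [PW, Submodule.span_eq_bot]
        rintro _ ⟨j, hj, rfl⟩
        obtain ⟨i, rfl⟩ : ∃ i, j = n + i := ⟨j - n, by omega⟩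
        exact hz i
      rw [this]; infer_instance
    | succ d ih =>
      intro k hk
      refine H.noeth_of_sq (C := PW Φ x (k + 1)) (Submodule.span_mono ?_)
        (fun u hu v hv => span_mul_mem ?_ hu hv) (ih _ (by omega))
      · rintro _ ⟨j, hj, rfl⟩; exact ⟨j, by omega, rfl⟩
      · rintro _ ⟨i, hi, rfl⟩ _ ⟨j, hj, rfl⟩
        rw [H.pw_mul_pw]
        exact Submodule.subset_span ⟨_, by omega, rfl⟩
  exact key n 0 (by omega)

theorem Hyp.noeth (H : Hyp Φ A) {X : Submodule Φ A} (hX : X.FG) : IsNoetherian Φ X := by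
  refine Submodule.fg_induction (motive := fun (X : Submodule Φ A) _ => IsNoetherian Φ X)
    (fun x => ?_) (fun M N _ _ hM hN => isNoetherian_sup M N) X hX
  have := H.noeth_PW x
  refine isNoetherian_of_le (t := PW Φ x 0) (Submodule.span_mono ?_)
  rintro _ rfl; exact ⟨0, le_rfl, rfl⟩

theorem Hyp.fg_mono (H : Hyp Φ A) {X X' : Submodule Φ A} (hX : X.FG) (h : X' ≤ X) : X'.FG :=
  isNoetherian_submodule.1 (H.noeth hX) _ h

/-- No infinite orthogonal families: a submodule on which all multiplications by its elements have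
finitely generated image is finitely generated. -/
theorem Hyp.fg_of_rank (H : Hyp Φ A) {X : Submodule Φ A}
    (h : ∀ x ∈ X, (X.map (LinearMap.mulLeft Φ x)).FG ∧ (X.map (LinearMap.mulRight Φ x)).FG) :
    X.FG := by
  classical
  by_contra hX
  let P : Finset A → Submodule Φ A := fun s => Submodule.span Φ {u | ∃ x ∈ s, ∃ j, u = pw x j}
  let O : Finset A → Prop := fun s => (∀ x ∈ s, x ∈ X) ∧ ∀ x ∈ s, ∀ y ∈ s, x ≠ y → x * y = 0
  have hP : ∀ s, O s → ∀ u v, u ∈ P s → v ∈ P s → u * v ∈ P s := fun s hs u v hu hv => by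
    refine span_mul_mem ?_ hu hv
    rintro _ ⟨x, hx, i, rfl⟩ _ ⟨y, hy, j, rfl⟩
    by_cases hxy : x = y
    · subst hxy
      rw [H.pw_mul_pw]; exact Submodule.subset_span ⟨x, hx, _, rfl⟩
    · rw [H.pw_orth (hs.2 x hx y hy hxy) (hs.2 y hy x hx (Ne.symm hxy))]
      exact Submodule.zero_mem _
  have hPfg : ∀ s, (P s).FG := fun s => by
    refine H.fg_mono (X := ⨆ x ∈ s, PW Φ x 0) (Submodule.fg_biSup s _ fun x _ => ?_)
      (Submodule.span_le.2 ?_)
    · exact isNoetherian_submodule.1 (H.noeth_PW x) _ le_rfl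
    · rintro _ ⟨x, hx, j, rfl⟩
      exact (le_iSup₂_of_le (f := fun x (_ : x ∈ s) => PW Φ x 0) x hx le_rfl :
        PW Φ x 0 ≤ _) (Submodule.subset_span ⟨j, Nat.zero_le _, rfl⟩)
  have hK : ∀ s : Finset A, (∀ x ∈ s, x ∈ X) → ∃ X' ≤ X, ¬ X'.FG ∧
      ∀ y ∈ X', ∀ x ∈ s, x * y = 0 ∧ y * x = 0 := fun s => by
    induction s using Finset.induction_on with
    | empty => exact fun _ => ⟨X, le_rfl, hX, by simp⟩
    | insert a s _ ih =>
      intro hs
      obtain ⟨X', hle, hfg, ho⟩ := ih fun x hx => hs x (Finset.mem_insert_of_mem hx)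
      have ha := h a (hs a (Finset.mem_insert_self _ _))
      refine ⟨X' ⊓ LinearMap.ker (LinearMap.mulLeft Φ a) ⊓ LinearMap.ker (LinearMap.mulRight Φ a),
        inf_le_left.trans (inf_le_left.trans hle), fun h' => hfg ?_, fun y hy x hx => ?_⟩
      · exact Submodule.fg_of_fg_map_of_fg_inf_ker _ (H.fg_mono ha.1 (Submodule.map_mono hle))
          (Submodule.fg_of_fg_map_of_fg_inf_ker _
            (H.fg_mono ha.2 (Submodule.map_mono (inf_le_left.trans hle))) h')
      · rcases Finset.mem_insert.1 hx with rfl | hx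
        · exact ⟨hy.1.2, hy.2⟩
        · exact ho y hy.1.1 x hx
  have := H.acc
  obtain ⟨B, ⟨s, hs, rfl⟩, hmax⟩ := wellFounded_gt.has_min
    {B : NonUnitalSubalgebra Φ A | ∃ s, ∃ hs : O s, B = (P s).toNonUnitalSubalgebra (hP s hs)}
    ⟨_, ∅, ⟨by simp, by simp⟩, rfl⟩
  obtain ⟨X', hle, hfg, ho⟩ := hK s hs.1
  obtain ⟨y, hy, hyP⟩ : ∃ y ∈ X', y ∉ P s := by
    by_contra hc
    push Not at hc
    exact hfg (H.fg_mono (hPfg s) hc)
  have hs' : O (insert y s) := by
    refine ⟨fun x hx => ?_, fun x hx w hw hxw => ?_⟩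
    · rcases Finset.mem_insert.1 hx with rfl | hx
      exacts [hle hy, hs.1 x hx]
    · rcases Finset.mem_insert.1 hx with rfl | hx' <;>
        rcases Finset.mem_insert.1 hw with rfl | hw'
      exacts [absurd rfl hxw, (ho _ hy w hw').2, (ho _ hy x hx').1, hs.2 x hx' w hw' hxw]
  refine hmax _ ⟨_, hs', rfl⟩ (lt_of_le_of_ne (fun u hu => ?_) fun e => hyP ?_)
  · refine (Submodule.span_mono ?_ : P s ≤ P (insert y s)) hu
    rintro _ ⟨x, hx, j, rfl⟩; exact ⟨x, Finset.mem_insert_of_mem hx, j, rfl⟩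
  · have : y ∈ (P (insert y s)).toNonUnitalSubalgebra (hP _ hs') :=
      Submodule.subset_span ⟨y, Finset.mem_insert_self _ _, 0, rfl⟩
    rw [← e] at this
    exact this

theorem Hyp.fg_of_mul (H : Hyp Φ A) {X S : Submodule Φ A} (hS : S.FG)
    (h : ∀ x ∈ X, ∀ y ∈ X, x * y ∈ S) : X.FG := by
  refine H.fg_of_rank fun x hx => ⟨H.fg_mono hS ?_, H.fg_mono hS ?_⟩
  · rintro _ ⟨y, hy, rfl⟩; exact h x hx y hy
  · rintro _ ⟨y, hy, rfl⟩; exact h y hy x hx

omit [IsScalarTower Φ A A] [SMulCommClass Φ A A] in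
/-- An image is finitely generated if it is so on a submodule with finitely generated quotient. -/
theorem fg_map_of {M : Type w} [AddCommGroup M] [Module Φ M] {X : Submodule Φ A} (f : A →ₗ[Φ] A)
    (g : A →ₗ[Φ] M) (hg : (X.map g).FG) (hf : ((X ⊓ LinearMap.ker g).map f).FG) :
    (X.map f).FG := by
  refine Submodule.fg_of_fg_map_of_fg_inf_ker ((X ⊓ LinearMap.ker g).map f).mkQ ?_ ?_
  · obtain ⟨T, hT, hTX, hTg⟩ : ∃ T : Submodule Φ A, T.FG ∧ T ≤ X ∧ X.map g ≤ T.map g := by
      refine Submodule.fg_induction (motive := fun (N : Submodule Φ M) _ =>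
        N ≤ X.map g → ∃ T : Submodule Φ A, T.FG ∧ T ≤ X ∧ N ≤ T.map g)
        (fun m hm => ?_) (fun M N _ _ hM hN h => ?_) _ hg le_rfl
      · obtain ⟨x, hx, rfl⟩ := hm (Submodule.mem_span_singleton_self m)
        exact ⟨Submodule.span Φ {x}, Submodule.fg_span_singleton x,
          (Submodule.span_singleton_le_iff_mem _ _).2 hx,
          (Submodule.span_singleton_le_iff_mem _ _).2
            ⟨x, Submodule.mem_span_singleton_self x, rfl⟩⟩
      · obtain ⟨T, a, b, c⟩ := hM (le_sup_left.trans h)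
        obtain ⟨T', a', b', c'⟩ := hN (le_sup_right.trans h)
        exact ⟨T ⊔ T', a.sup a', sup_le b b', by rw [Submodule.map_sup]; exact sup_le_sup c c'⟩
    have e : (X.map f).map ((X ⊓ LinearMap.ker g).map f).mkQ =
        (T.map f).map ((X ⊓ LinearMap.ker g).map f).mkQ := by
      refine le_antisymm ?_ (Submodule.map_mono (Submodule.map_mono hTX))
      rintro _ ⟨_, ⟨x, hx, rfl⟩, rfl⟩
      obtain ⟨t, ht, e⟩ := hTg ⟨x, hx, rfl⟩
      refine ⟨f t, ⟨t, ht, rfl⟩, (Submodule.Quotient.eq _).2 ⟨t - x, ⟨X.sub_mem (hTX ht) hx, ?_⟩,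
        map_sub f t x⟩⟩
      change g (t - x) = 0
      rw [map_sub, e, sub_self]
    rw [e]; exact (hT.map _).map _
  · rw [Submodule.ker_mkQ, inf_eq_right.2 (Submodule.map_mono inf_le_left)]; exact hf

end Pool.Agent.MP_93f6c2_al.Mou
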