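import Pool.Agent.MP_93f6c2_al.Mou1

/-!
Strongly right alternative nil algebras with the maximal condition on subalgebras, part 2:
the algebra is a Noetherian module.
-/

set_option autoImplicit false
set_option linter.unusedSectionVars false

namespace Pool.Agent.MP_93f6c2_al.Mou

universe u v w

open LinearMap

variable {Φ : Type u} {A : Type v} [CommRing Φ] [NonUnitalNonAssocRing A] [Module Φ A]
  [IsScalarTower Φ A A] [SMulCommClass Φ A A]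

theorem aux1 {E : Type w} [Ring E] (a t s : E) : a + t * -s = a - t * s := by noncomm_ring

theorem aux2 {E : Type w} [Ring E] (z a p : E) :
    -(z * a) * p + -(z * p) * a = z * -(a * p + p * a) := by noncomm_ring

/-- A right ideal. -/
structure RI (Φ : Type u) (A : Type v) [CommRing Φ] [NonUnitalNonAssocRing A] [Module Φ A] where
  Y : Submodule Φ A
  mul : ∀ y ∈ Y, ∀ a, y * a ∈ Y

/-- Right multiplication on the unital hull modulo a right ideal. -/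
noncomputable def RI.rb (I : RI Φ A) (a : A) : Module.End Φ (Φ × (A ⧸ I.Y)) :=
  inr Φ Φ (A ⧸ I.Y) ∘ₗ ((fst Φ Φ (A ⧸ I.Y)).smulRight (I.Y.mkQ a) +
    I.Y.mapQ I.Y (mulRight Φ a) (fun y hy => I.mul y hy a) ∘ₗ snd Φ Φ (A ⧸ I.Y))

theorem RI.rb_apply (I : RI Φ A) (a : A) (c : Φ) (x : A) :
    I.rb a (c, I.Y.mkQ x) = (0, I.Y.mkQ (c • a + x * a)) := by
  simp [RI.rb]

theorem RI.ext_q (I : RI Φ A) {f g : Module.End Φ (Φ × (A ⧸ I.Y))}
    (h : ∀ c x, f (c, I.Y.mkQ x) = g (c, I.Y.mkQ x)) : f = g :=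
  LinearMap.ext fun ⟨c, q⟩ => by
    obtain ⟨x, rfl⟩ := I.Y.mkQ_surjective q
    exact h c x

/-- The ring of operators, written on the right. -/
abbrev RI.E (I : RI Φ A) : Type (max u v) := (Module.End Φ (Φ × (A ⧸ I.Y)))ᵐᵒᵖ

/-- The right regular representation. -/
noncomputable def RI.ρ (I : RI Φ A) : A →ₗ[Φ] I.E where
  toFun a := MulOpposite.op (I.rb a)
  map_add' a b := by
    rw [← MulOpposite.op_add]
    refine congrArg _ (I.ext_q fun c x => ?_)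
    simp only [LinearMap.add_apply, RI.rb_apply, Prod.mk_add_mk, ← map_add, add_zero, smul_add, mul_add]
    congr 2; abel
  map_smul' r a := by
    rw [RingHom.id_apply, ← MulOpposite.op_smul]
    refine congrArg _ (I.ext_q fun c x => ?_)
    simp only [LinearMap.smul_apply, RI.rb_apply, Prod.smul_mk, ← map_smul, smul_zero, smul_add,
      mul_smul_comm, smul_comm r c a]

/-- The operator `e` sends the unit to the class of `x`. -/
def RI.Rep (I : RI Φ A) (e : I.E) (x : A) : Prop := e.unop (1, I.Y.mkQ 0) = (0, I.Y.mkQ x)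

variable (I : RI Φ A)

theorem RI.rep_ρ (a : A) : I.Rep (I.ρ a) a := by
  change I.rb a _ = _
  rw [RI.rb_apply]; simp

variable {I}

theorem RI.Rep.mul {e : I.E} {x : A} (h : I.Rep e x) (b : A) : I.Rep (e * I.ρ b) (x * b) := by
  change I.rb b (e.unop _) = _
  rw [h, RI.rb_apply]; simp

theorem RI.Rep.swap {e g : I.E} {x y : A} (h : I.Rep e x) (h' : I.Rep (e * g) y) :
    I.Rep (I.ρ x * g) y := by
  change g.unop ((I.ρ x).unop _) = _
  rw [I.rep_ρ x, ← h]; exact h'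

theorem RI.Rep.sub {e g : I.E} {x y : A} (h : I.Rep e x) (h' : I.Rep g y) :
    I.Rep (e - g) (x - y) := by
  change e.unop _ - g.unop _ = _
  rw [h, h', map_sub]; simp

theorem RI.rep_zero {x : A} : I.Rep 0 x ↔ x ∈ I.Y := by
  change ((0 : Φ), (0 : A ⧸ I.Y)) = _ ↔ _
  rw [Prod.mk.injEq, eq_comm (a := (0 : A ⧸ I.Y)), Submodule.mkQ_apply,
    Submodule.Quotient.mk_eq_zero]
  simp

theorem RI.mul_mem {a b : A} (h : I.ρ a * I.ρ b = 0) : a * b ∈ I.Y :=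
  RI.rep_zero.1 (h ▸ (I.rep_ρ a).mul b)

theorem RI.mem_of_ρ {a : A} (h : I.ρ a = 0) : a ∈ I.Y := RI.rep_zero.1 (h ▸ I.rep_ρ a)

theorem RI.ρ_eq_zero {a : A} (h : a ∈ I.Y) (h' : ∀ x, x * a ∈ I.Y) : I.ρ a = 0 := by
  refine MulOpposite.unop_injective (I.ext_q fun c x => ?_)
  change I.rb a _ = 0
  rw [RI.rb_apply, Submodule.mkQ_apply,
    (Submodule.Quotient.mk_eq_zero _).2 (I.Y.add_mem (I.Y.smul_mem c h) (h' x))]
  rfl

variable (I)

theorem Hyp.ρ_v (H : Hyp Φ A) (a b : A) : I.ρ (a * b + b * a) = I.ρ a * I.ρ b + I.ρ b * I.ρ a := by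
  refine MulOpposite.unop_injective (I.ext_q fun c x => ?_)
  change I.rb _ _ = I.rb b (I.rb a _) + I.rb a (I.rb b _)
  simp only [RI.rb_apply, Prod.mk_add_mk, ← map_add, add_zero, zero_smul, zero_add, H.lin,
    add_mul, smul_mul_assoc, smul_add]
  congr 2; abel

theorem Hyp.ρ_sq (H : Hyp Φ A) (a : A) : I.ρ (a * a) = I.ρ a * I.ρ a := by
  refine MulOpposite.unop_injective (I.ext_q fun c x => ?_)
  change I.rb _ _ = I.rb a (I.rb a _)
  simp only [RI.rb_apply, zero_smul, zero_add, H.ra, add_mul, smul_mul_assoc]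

theorem Hyp.ρ_u (H : Hyp Φ A) (a b : A) : I.ρ (a * b * a) = I.ρ a * I.ρ b * I.ρ a := by
  refine MulOpposite.unop_injective (I.ext_q fun c x => ?_)
  change I.rb _ _ = I.rb a (I.rb b (I.rb a _))
  simp only [RI.rb_apply, zero_smul, zero_add, H.mou, add_mul, smul_mul_assoc]

theorem Hyp.ρ_t (H : Hyp Φ A) (a b d : A) :
    I.ρ (a * b * d + d * b * a) = I.ρ a * I.ρ b * I.ρ d + I.ρ d * I.ρ b * I.ρ a := by
  refine MulOpposite.unop_injective (I.ext_q fun c x => ?_)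
  change I.rb _ _ = I.rb d (I.rb b (I.rb a _)) + I.rb a (I.rb b (I.rb d _))
  simp only [RI.rb_apply, Prod.mk_add_mk, ← map_add, add_zero, zero_smul, zero_add, H.lin3,
    add_mul, smul_mul_assoc, smul_add]
  congr 2; abel

theorem Hyp.ρ_pw (H : Hyp Φ A) (x : A) (n : ℕ) :
    I.ρ (pw x n) = I.ρ x ^ (n + 1) ∧ I.ρ (pw x (n + 1)) = I.ρ x ^ (n + 2) := by
  induction n with
  | zero => exact ⟨(pow_one _).symm, (H.ρ_sq I x).trans (pow_two _).symm⟩
  | succ n ih =>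
    refine ⟨ih.2, ?_⟩
    have e : pw x (n + 1 + 1) = x * pw x n * x := by
      have := H.pw_mul_pw x 0 n
      rw [zero_add] at this
      exact congrArg (· * x) this.symm
    rw [e, H.ρ_u, ih.1, ← pow_succ', ← pow_succ]

theorem Hyp.ρ_nil (H : Hyp Φ A) (x : A) : ∃ n, I.ρ x ^ (n + 1) = 0 := by
  obtain ⟨n, hn⟩ := H.nil x
  exact ⟨n, by rw [← (H.ρ_pw I x n).1, hn, map_zero]⟩

theorem Hyp.azd (H : Hyp Φ A) {z : A} (h0 : I.ρ z * I.ρ z = 0)
    (h1 : ∀ a, I.ρ z * I.ρ a * I.ρ z = 0) : Azd (Set.range I.ρ) (I.ρ z) where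
  mem := ⟨z, rfl⟩
  sq := h0
  sand := by rintro _ ⟨a, rfl⟩; exact h1 a
  jv := by rintro _ ⟨a, rfl⟩ _ ⟨b, rfl⟩; exact ⟨_, H.ρ_v I a b⟩
  ju := by rintro _ ⟨a, rfl⟩ _ ⟨b, rfl⟩; exact ⟨_, H.ρ_u I a b⟩
  jt := by rintro _ ⟨a, rfl⟩ _ ⟨b, rfl⟩ _ ⟨c, rfl⟩; exact ⟨_, H.ρ_t I a b c⟩

/-- The Jordan multiplication. -/
noncomputable def V (Φ : Type u) {A : Type v} [CommRing Φ] [NonUnitalNonAssocRing A] [Module Φ A]
    [IsScalarTower Φ A A] [SMulCommClass Φ A A] (a : A) : A →ₗ[Φ] A := mulLeft Φ a + mulRight Φ a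

theorem V_apply (a x : A) : V Φ a x = a * x + x * a := rfl

/-- The quadratic Jordan operator. -/
noncomputable def U (Φ : Type u) {A : Type v} [CommRing Φ] [NonUnitalNonAssocRing A] [Module Φ A]
    [IsScalarTower Φ A A] [SMulCommClass Φ A A] (a : A) : A →ₗ[Φ] A := mulRight Φ a ∘ₗ mulLeft Φ a

theorem U_apply (a x : A) : U Φ a x = a * x * a := rfl

variable {I}

theorem Hyp.fg_U (H : Hyp Φ A) (hY : I.Y.FG) {b : A} (hb : I.ρ b * I.ρ b = 0) :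
    ((⊤ : Submodule Φ A).map (U Φ b)).FG := by
  refine H.fg_of_mul hY ?_
  rintro _ ⟨x, -, rfl⟩ _ ⟨y, -, rfl⟩
  refine RI.mul_mem ?_
  rw [U_apply, U_apply, H.ρ_u, H.ρ_u]
  have e : I.ρ b * I.ρ x * I.ρ b * (I.ρ b * I.ρ y * I.ρ b) =
      I.ρ b * I.ρ x * (I.ρ b * I.ρ b) * I.ρ y * I.ρ b := by noncomm_ring
  rw [e, hb]; simp

/-- Step A: a nonzero representation has a nonzero absolute zero divisor. -/
theorem Hyp.exists_azd (H : Hyp Φ A) (hY : I.Y.FG) {x : A} (hx : I.ρ x ≠ 0) :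
    ∃ z, I.ρ z ≠ 0 ∧ I.ρ z * I.ρ z = 0 ∧ ∀ a, I.ρ z * I.ρ a * I.ρ z = 0 := by
  obtain ⟨b0, hb0, hb0'⟩ : ∃ b, I.ρ b ≠ 0 ∧ I.ρ b * I.ρ b = 0 := by
    obtain ⟨n, hn⟩ := H.ρ_nil I x
    induction n with
    | zero => exact absurd (by simpa using hn) hx
    | succ n ih =>
      by_cases h : I.ρ x ^ (n + 1) = 0
      · exact ih h
      · refine ⟨pw x n, by rwa [(H.ρ_pw I x n).1], ?_⟩
        rw [(H.ρ_pw I x n).1, ← pow_add, show n + 1 + (n + 1) = n + 1 + 1 + n by omega, pow_add,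
          hn, zero_mul]
  let K : A → Submodule Φ A := fun b => ker (I.ρ ∘ₗ U Φ b)
  have hK : ∀ b v, v ∈ K b ↔ I.ρ b * I.ρ v * I.ρ b = 0 := fun b v => by
    rw [← H.ρ_u]; rfl
  have hN : IsNoetherian Φ (A ⧸ ker (U Φ b0)) := by
    have := H.noeth (H.fg_U hY hb0')
    rw [Submodule.map_top] at this
    exact isNoetherian_of_linearEquiv (U Φ b0).quotKerEquivRange.symm
  have h0 : ker (U Φ b0) ≤ K b0 := ker_le_ker_comp _ _
  obtain ⟨_, ⟨b, ⟨hb, hb', hbK⟩, rfl⟩, hmax⟩ := set_has_maximal_iff_noetherian.2 hN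
    ((fun b => (K b).map (ker (U Φ b0)).mkQ) ''
      {b | I.ρ b ≠ 0 ∧ I.ρ b * I.ρ b = 0 ∧ ker (U Φ b0) ≤ K b}) ⟨_, b0, ⟨hb0, hb0', h0⟩, rfl⟩
  refine ⟨b, hb, hb', fun y => ?_⟩
  by_contra hy
  have hle : K b ≤ K (b * y * b) := fun v hv => by
    rw [hK] at hv ⊢
    have e : I.ρ b * I.ρ y * I.ρ b * I.ρ v * (I.ρ b * I.ρ y * I.ρ b) =
        I.ρ b * I.ρ y * (I.ρ b * I.ρ v * I.ρ b) * I.ρ y * I.ρ b := by noncomm_ring
    rw [H.ρ_u, e, hv]; simp
  have hge : K (b * y * b) ≤ K b := by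
    have h1 := hmax _ ⟨b * y * b, ⟨by rwa [H.ρ_u], ?_, hbK.trans hle⟩, rfl⟩
    · have h2 := eq_of_le_of_not_lt (Submodule.map_mono hle) h1
      have h3 := congrArg (Submodule.comap (ker (U Φ b0)).mkQ) h2
      simp only [Submodule.comap_map_mkQ, sup_eq_right.2 hbK,
        sup_eq_right.2 (hbK.trans hle)] at h3
      exact h3.ge
    · have e : I.ρ b * I.ρ y * I.ρ b * (I.ρ b * I.ρ y * I.ρ b) =
          I.ρ b * I.ρ y * (I.ρ b * I.ρ b) * I.ρ y * I.ρ b := by noncomm_ring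
      rw [H.ρ_u, e, hb']; simp
  have key : ∀ k v, (I.ρ b * I.ρ y) ^ k * I.ρ b * I.ρ v * I.ρ b * (I.ρ y * I.ρ b) ^ k = 0 →
      I.ρ b * I.ρ v * I.ρ b = 0 := fun k => by
    induction k with
    | zero => intro v hv; simpa using hv
    | succ k ih =>
      intro v hv
      have h1 := ih (y * (b * v * b) * y) (by
        rw [H.ρ_u, H.ρ_u, ← hv, pow_succ, pow_succ']; noncomm_ring)
      refine (hK b v).1 (hge ((hK _ v).2 ?_))
      rw [H.ρ_u, H.ρ_u] at h1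
      rw [H.ρ_u, ← h1]; noncomm_ring
  obtain ⟨n, hn⟩ := H.ρ_nil I (b * y + y * b)
  have h2 := loc_nil (y := I.ρ y) hb' (n + 1)
  rw [← H.ρ_v, hn, mul_zero] at h2
  exact hy (key (n + 1) y (by rw [← h2]; simp))

/-- Step B: the Jordan multiplication by an absolute zero divisor has finitely generated image. -/
theorem Hyp.fg_V (H : Hyp Φ A) (hY : I.Y.FG) {z : A} (h0 : I.ρ z * I.ρ z = 0)
    (h1 : ∀ a, I.ρ z * I.ρ a * I.ρ z = 0) : ((⊤ : Submodule Φ A).map (V Φ z)).FG := by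
  have hz := H.azd I h0 h1
  have m : ∀ a, I.ρ a ∈ Set.range I.ρ := fun a => ⟨a, rfl⟩
  have hw : ∀ c, I.ρ (V Φ z c) = I.ρ z * I.ρ c + I.ρ c * I.ρ z := fun c => H.ρ_v I z c
  have hww : ∀ c y, I.ρ (V Φ z c) * I.ρ (V Φ z y) = I.ρ z * I.ρ c * I.ρ y * I.ρ z := fun c y => by
    rw [hw, hw, hz.ww (m c) (m y)]
  have hL : ∀ c, ((⊤ : Submodule Φ A).map (mulLeft Φ (V Φ z c) ∘ₗ V Φ z)).FG := fun c => by
    have hc : I.ρ (V Φ z c) * I.ρ (V Φ z c) = 0 := by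
      rw [hww, mul_assoc (I.ρ z), ← H.ρ_sq, h1]
    refine fg_map_of _ _ (H.fg_U hY hc) ?_
    let S : Submodule Φ A := Submodule.span Φ {d | ∃ y u, U Φ (V Φ z c) y = 0 ∧
      I.ρ d = I.ρ z * I.ρ c * I.ρ y * I.ρ z * I.ρ u - I.ρ u * (I.ρ z * I.ρ c * I.ρ y * I.ρ z)}
    have hS : S.FG := by
      refine H.fg_of_mul hY fun x hx y hy => span_mul_mem ?_ hx hy
      rintro d ⟨y, u, hy, hd⟩ d' ⟨y1, u1, -, hd'⟩
      refine RI.mul_mem ?_
      rw [hd, hd']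
      refine hz.k6 (m c) (m y) (m y1) (m u) (m u1) ?_
      rw [← hw, ← H.ρ_u, ← U_apply (Φ := Φ), hy, map_zero]
    refine H.fg_of_mul (hS.sup hY) ?_
    rintro _ ⟨y, ⟨-, hy⟩, rfl⟩ _ ⟨y1, -, rfl⟩
    change (V Φ z c * V Φ z y) * (V Φ z c * V Φ z y1) ∈ _
    generalize ht : V Φ z c * V Φ z y1 = t
    have r0 : I.Rep (I.ρ z * I.ρ c * I.ρ y1 * I.ρ z) t := by
      rw [← hww, ← ht]; exact (I.rep_ρ _).mul _
    have r1 : I.Rep (I.ρ z * I.ρ c * I.ρ y * I.ρ z * I.ρ t) (V Φ z c * V Φ z y * t) := by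
      rw [← hww]; exact ((I.rep_ρ _).mul _).mul _
    have r2 : I.Rep (I.ρ t * (I.ρ z * I.ρ c * I.ρ y * I.ρ z)) 0 := by
      refine r0.swap ?_
      have e : I.ρ z * I.ρ c * I.ρ y1 * I.ρ z * (I.ρ z * I.ρ c * I.ρ y * I.ρ z) =
          I.ρ z * I.ρ c * I.ρ y1 * (I.ρ z * I.ρ z) * I.ρ c * I.ρ y * I.ρ z := by noncomm_ring
      rw [e, h0]
      simpa using RI.rep_zero.2 I.Y.zero_mem
    have hd : I.ρ (V Φ z c * V Φ z y * t + t * V Φ z y * V Φ z c) =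
        I.ρ z * I.ρ c * I.ρ y * I.ρ z * I.ρ t - I.ρ t * (I.ρ z * I.ρ c * I.ρ y * I.ρ z) := by
      rw [H.ρ_t, mul_assoc (I.ρ t), hww, hww, hz.skew (m y) (m c)]
      exact aux1 _ _ _
    have r3 := (r1.sub r2).sub (hd ▸ I.rep_ρ _)
    rw [sub_self] at r3
    have h3 := (S ⊔ I.Y).add_mem (Submodule.mem_sup_right (RI.rep_zero.1 r3))
      (Submodule.mem_sup_left (Submodule.subset_span ⟨y, t, hy, hd⟩))
    simpa using h3
  refine H.fg_of_rank ?_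
  rintro _ ⟨c, -, rfl⟩
  have h2 := hL c
  rw [Submodule.map_comp] at h2
  refine ⟨h2, H.fg_mono (h2.sup hY) ?_⟩
  rintro _ ⟨_, ⟨y, -, rfl⟩, rfl⟩
  have h3 : V Φ z c * V Φ z y + V Φ z y * V Φ z c ∈ I.Y := by
    refine RI.mem_of_ρ ?_
    rw [H.ρ_v, hww, hww, hz.skew (m y) (m c), add_neg_cancel]
  have h4 := Submodule.sub_mem _ (Submodule.mem_sup_right h3) (Submodule.mem_sup_left
    (S := ((⊤ : Submodule Φ A).map (V Φ z)).map (mulLeft Φ (V Φ z c)))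
    ⟨_, ⟨y, trivial, rfl⟩, rfl⟩)
  simpa using h4

/-- Step C: so has the right multiplication. -/
theorem Hyp.fg_R (H : Hyp Φ A) (hY : I.Y.FG) {z : A} (h0 : I.ρ z * I.ρ z = 0)
    (h1 : ∀ a, I.ρ z * I.ρ a * I.ρ z = 0) : ((⊤ : Submodule Φ A).map (mulRight Φ z)).FG := by
  have hV := H.fg_V hY h0 h1
  let Q : Submodule Φ A := Submodule.span Φ {q | ∃ u, I.ρ q = I.ρ z * I.ρ u}
  have hQ : Q.FG := by
    refine H.fg_of_mul hY fun x hx y hy => span_mul_mem ?_ hx hy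
    rintro q ⟨u, hq⟩ q' ⟨u', hq'⟩
    refine RI.mul_mem ?_
    rw [hq, hq', ← mul_assoc, h1, zero_mul]
  refine fg_map_of _ _ hV (fg_map_of _ (V Φ z ∘ₗ mulRight Φ z) (H.fg_mono hV ?_) ?_)
  · rintro _ ⟨a, -, rfl⟩; exact ⟨_, trivial, rfl⟩
  refine H.fg_of_mul (hQ.sup hY) ?_
  rintro _ ⟨a, ⟨⟨-, ha⟩, -⟩, rfl⟩ _ ⟨b, ⟨-, hb⟩, rfl⟩
  change a * z * (b * z) ∈ _
  have hc : ∀ c, V Φ z c = 0 → I.ρ c * I.ρ z = -(I.ρ z * I.ρ c) := fun c h => by
    rw [eq_neg_iff_add_eq_zero, add_comm, ← H.ρ_v, ← V_apply (Φ := Φ), h, map_zero]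
  have e1 : a * z * (b * z) + b * z * z * a ∈ Q := by
    refine Submodule.subset_span ⟨-(a * (b * z) + b * z * a), ?_⟩
    rw [H.ρ_t, hc a ha, hc (b * z) hb, map_neg, H.ρ_v]
    exact aux2 _ _ _
  have e2 : b * z * z * a ∈ I.Y := by
    refine I.mul _ (RI.rep_zero.1 ?_) a
    have := ((I.rep_ρ b).mul z).mul z
    rwa [mul_assoc, h0, mul_zero] at this
  simpa using Submodule.sub_mem _ (Submodule.mem_sup_left e1) (Submodule.mem_sup_right e2)

/-- The elements whose two multiplications have finitely generated image. -/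
def F0 (H : Hyp Φ A) : Submodule Φ A where
  carrier := {x | ((⊤ : Submodule Φ A).map (mulLeft Φ x)).FG ∧
    ((⊤ : Submodule Φ A).map (mulRight Φ x)).FG}
  zero_mem' := ⟨H.fg_mono Submodule.fg_bot (by rintro _ ⟨a, -, rfl⟩; simp),
    H.fg_mono Submodule.fg_bot (by rintro _ ⟨a, -, rfl⟩; simp)⟩
  add_mem' := fun {x y} hx hy =>
    ⟨H.fg_mono (hx.1.sup hy.1) (by
      rintro _ ⟨a, -, rfl⟩
      rw [mulLeft_apply, add_mul]
      exact Submodule.add_mem_sup ⟨a, trivial, rfl⟩ ⟨a, trivial, rfl⟩),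
    H.fg_mono (hx.2.sup hy.2) (by
      rintro _ ⟨a, -, rfl⟩
      rw [mulRight_apply, mul_add]
      exact Submodule.add_mem_sup ⟨a, trivial, rfl⟩ ⟨a, trivial, rfl⟩)⟩
  smul_mem' := fun c x hx =>
    ⟨H.fg_mono hx.1 (by
      rintro _ ⟨a, -, rfl⟩
      rw [mulLeft_apply, smul_mul_assoc]
      exact Submodule.smul_mem _ c ⟨a, trivial, rfl⟩),
    H.fg_mono hx.2 (by
      rintro _ ⟨a, -, rfl⟩
      rw [mulRight_apply, mul_smul_comm]
      exact Submodule.smul_mem _ c ⟨a, trivial, rfl⟩)⟩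

theorem Hyp.F0_v (H : Hyp Φ A) {x : A} (hx : x ∈ F0 H) (a : A) : x * a + a * x ∈ F0 H := by
  refine ⟨H.fg_mono ((hx.1.sup (hx.1.map (mulRight Φ a))).sup
      (((hx.1.sup hx.2).map (mulLeft Φ a)).sup hx.2)) ?_,
    H.fg_mono ((hx.2.map (mulRight Φ a)).sup hx.2) ?_⟩
  · rintro _ ⟨y, -, rfl⟩
    have e : (x * a + a * x) * y =
        (x * (a * y + y * a) - x * y * a) + (a * (x * y + y * x) - a * y * x) := by
      rw [H.lin, H.lin, add_mul]; abel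
    rw [mulLeft_apply, e]
    exact Submodule.add_mem_sup
      (Submodule.sub_mem _ (Submodule.mem_sup_left ⟨_, trivial, rfl⟩)
        (Submodule.mem_sup_right ⟨_, ⟨y, trivial, rfl⟩, rfl⟩))
      (Submodule.sub_mem _ (Submodule.mem_sup_left
        ⟨_, Submodule.add_mem_sup ⟨y, trivial, rfl⟩ ⟨y, trivial, rfl⟩, rfl⟩)
        (Submodule.mem_sup_right ⟨_, trivial, rfl⟩))
  · rintro _ ⟨y, -, rfl⟩
    rw [mulRight_apply, H.lin]
    exact Submodule.add_mem_sup ⟨_, ⟨y, trivial, rfl⟩, rfl⟩ ⟨_, trivial, rfl⟩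

theorem Hyp.fg_top (H : Hyp Φ A) : (⊤ : Submodule Φ A).FG := by
  have hF : (F0 H).FG := H.fg_of_rank fun x hx =>
    ⟨H.fg_mono hx.1 (Submodule.map_mono le_top), H.fg_mono hx.2 (Submodule.map_mono le_top)⟩
  let Z : Submodule Φ A := Submodule.span Φ {u | ∃ a, ∃ f ∈ F0 H, u = a * f}
  have hZ : ∀ a, ∀ f ∈ F0 H, a * f ∈ Z := fun a f hf => Submodule.subset_span ⟨a, f, hf, rfl⟩
  have hZfg : Z.FG := by
    obtain ⟨S, hS, h⟩ : ∃ S : Submodule Φ A, S.FG ∧ ∀ a, (F0 H).map (mulLeft Φ a) ≤ S := by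
      refine Submodule.fg_induction (motive := fun (N : Submodule Φ A) _ => N ≤ F0 H →
        ∃ S : Submodule Φ A, S.FG ∧ ∀ a, N.map (mulLeft Φ a) ≤ S)
        (fun f hf => ?_) (fun M N _ _ hM hN h => ?_) _ hF le_rfl
      · refine ⟨_, (hf (Submodule.mem_span_singleton_self f)).2, fun a => ?_⟩
        rw [Submodule.map_span, Set.image_singleton, Submodule.span_singleton_le_iff_mem]
        exact ⟨a, trivial, rfl⟩
      · obtain ⟨T, a, b⟩ := hM (le_sup_left.trans h)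
        obtain ⟨T', a', b'⟩ := hN (le_sup_right.trans h)
        exact ⟨T ⊔ T', a.sup a', fun x => by rw [Submodule.map_sup]; exact sup_le_sup (b x) (b' x)⟩
    refine H.fg_mono hS (Submodule.span_le.2 ?_)
    rintro _ ⟨a, f, hf, rfl⟩
    exact h a ⟨f, hf, rfl⟩
  let I : RI Φ A := ⟨F0 H ⊔ Z, fun y hy b => by
    refine (sup_le (fun f hf => ?_) (Submodule.span_le.2 ?_) :
      F0 H ⊔ Z ≤ (F0 H ⊔ Z).comap (mulRight Φ b)) hy
    · simpa using Submodule.sub_mem _ (Submodule.mem_sup_left (H.F0_v hf b))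
        (Submodule.mem_sup_right (hZ b f hf))
    · rintro _ ⟨a, f, hf, rfl⟩
      have h := Submodule.sub_mem _ (hZ a _ (H.F0_v hf b)) (hZ (a * b) f hf)
      rw [H.lin, add_sub_cancel_right] at h
      exact Submodule.mem_sup_right h⟩
  have hY : I.Y.FG := hF.sup hZfg
  refine H.fg_mono hY fun x _ => RI.mem_of_ρ ?_
  by_contra hx
  obtain ⟨z, hz, h0, h1⟩ := H.exists_azd hY hx
  have hzF : z ∈ F0 H := by
    refine ⟨H.fg_mono ((H.fg_V hY h0 h1).sup (H.fg_R hY h0 h1)) ?_, H.fg_R hY h0 h1⟩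
    rintro _ ⟨a, -, rfl⟩
    have h := Submodule.sub_mem _ (Submodule.mem_sup_left
      (S := (⊤ : Submodule Φ A).map (V Φ z)) ⟨a, trivial, rfl⟩) (Submodule.mem_sup_right
      (T := (⊤ : Submodule Φ A).map (mulRight Φ z)) ⟨a, trivial, rfl⟩)
    simpa [V_apply] using h
  exact hz (RI.ρ_eq_zero (Submodule.mem_sup_left hzF)
    fun a => Submodule.mem_sup_right (hZ a z hzF))

end Pool.Agent.MP_93f6c2_al.Mou
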