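import Pool.Agent.MP_93f6c2_al.Mou2

/-!
Strongly right alternative nil algebras with the maximal condition on subalgebras, part 3:
the argument of Jacobson on weakly closed sets gives right nilpotence.
-/

set_option autoImplicit false

namespace Pool.Agent.MP_93f6c2_al.Mou

universe u v w

section Weak
variable {Φ : Type u} {E : Type w} [CommRing Φ] [Ring E] [Algebra Φ E]

theorem nilp_mono {M N : Submodule Φ E} (h : M ≤ N) (hN : IsNilpotent N) : IsNilpotent M := by
  obtain ⟨n, hn⟩ := hN
  exact ⟨n, le_bot_iff.1 ((pow_le_pow_left' h n).trans hn.le)⟩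

theorem nilp_sup {N P : Submodule Φ E} (hN : IsNilpotent N) (hP : IsNilpotent P)
    (h : P * N ≤ N + N * P) : IsNilpotent (N + P) := by
  obtain ⟨n, hn⟩ := hN
  obtain ⟨m, hm⟩ := hP
  let G : Submodule Φ E := ⨆ i : ℕ, (N + P) ^ i
  have hG : ∀ i : ℕ, (N + P) ^ i ≤ G := fun i => le_iSup (fun i : ℕ => (N + P) ^ i) i
  have h1 : 1 ≤ G := by simpa using hG 0
  have hNP : N + P ≤ G := by simpa using hG 1
  have hGG : G * G ≤ G := by
    rw [Submodule.iSup_mul]
    refine iSup_le fun i => ?_
    rw [Submodule.mul_iSup]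
    exact iSup_le fun j => by rw [← pow_add]; exact hG _
  have hGN : G * N ≤ N * G := by
    rw [Submodule.iSup_mul]
    refine iSup_le fun i => ?_
    induction i with
    | zero => rw [pow_zero, one_mul]; simpa using mul_le_mul_right h1 N
    | succ i ih =>
      have e : (N + P) * N ≤ N * G := by
        rw [add_mul]
        refine sup_le (mul_le_mul_right (le_sup_left.trans hNP) N) (h.trans (sup_le ?_ ?_))
        · simpa using mul_le_mul_right h1 N
        · exact mul_le_mul_right (le_sup_right.trans hNP) N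
      calc (N + P) ^ (i + 1) * N = (N + P) ^ i * ((N + P) * N) := by rw [pow_succ, mul_assoc]
        _ ≤ (N + P) ^ i * (N * G) := mul_le_mul_right e _
        _ = (N + P) ^ i * N * G := (mul_assoc _ _ _).symm
        _ ≤ N * G * G := mul_le_mul_left ih _
        _ = N * (G * G) := mul_assoc _ _ _
        _ ≤ N * G := mul_le_mul_right hGG _
  have hI : ∀ k : ℕ, (N * G) ^ k ≤ N ^ k * G := fun k => by
    induction k with
    | zero => simpa using h1
    | succ k ih =>
      calc (N * G) ^ (k + 1) = (N * G) ^ k * (N * G) := pow_succ _ _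
        _ ≤ N ^ k * G * (N * G) := mul_le_mul_left ih _
        _ = N ^ k * (G * N * G) := by simp only [mul_assoc]
        _ ≤ N ^ k * (N * G * G) := mul_le_mul_right (mul_le_mul_left hGN _) _
        _ = N ^ (k + 1) * (G * G) := by simp only [pow_succ, mul_assoc]
        _ ≤ N ^ (k + 1) * G := mul_le_mul_right hGG _
  have hk : ∀ k : ℕ, (N + P) ^ k ≤ P ^ k + N * G := fun k => by
    induction k with
    | zero => simp
    | succ k ih =>
      rw [pow_succ]
      refine (mul_le_mul_left ih _).trans ?_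
      rw [add_mul, mul_add, ← pow_succ]
      refine sup_le (sup_le (le_sup_of_le_right ?_) le_sup_left) (le_sup_of_le_right ?_)
      · exact (mul_le_mul_left ((pow_le_pow_left' le_sup_right k).trans (hG k)) N).trans hGN
      · rw [mul_assoc]
        exact mul_le_mul_right ((mul_le_mul_right hNP G).trans hGG) N
  refine ⟨m * n, le_bot_iff.1 ?_⟩
  have h2 := hk m
  rw [hm, zero_add] at h2
  rw [pow_mul]
  refine (pow_le_pow_left' h2 n).trans ((hI n).trans ?_)
  rw [hn, zero_mul]; rfl

/-- Products with `k` factors from `N` distributed on both sides. -/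
def twoSided (N : Submodule Φ E) : ℕ → Submodule Φ E
  | 0 => ⊤
  | k + 1 => N * twoSided N k + twoSided N k * N

theorem twoSided_eq {N : Submodule Φ E} {n : ℕ} (hn : N ^ n = 0) (k : ℕ) :
    ∀ i j, 2 * n ≤ i + j + k → N ^ i * twoSided N k * N ^ j = 0 := by
  induction k with
  | zero =>
    intro i j h
    rcases le_total n i with h' | h'
    · rw [pow_eq_zero_of_le h' hn, zero_mul, zero_mul]
    · rw [pow_eq_zero_of_le (by omega : n ≤ j) hn, mul_zero]
  | succ k ih =>
    intro i j h
    rw [twoSided, mul_add, add_mul, ← mul_assoc, ← pow_succ, ih _ _ (by omega), ← mul_assoc,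
      mul_assoc _ N, ← pow_succ', ih _ _ (by omega), add_zero]

end Weak

variable {Φ : Type u} {A : Type v} [CommRing Φ] [NonUnitalNonAssocRing A] [Module Φ A]
  [IsScalarTower Φ A A] [SMulCommClass Φ A A]

theorem Hyp.nilp_top (H : Hyp Φ A) {E : Type w} [Ring E] [Algebra Φ E] (ρ : A →ₗ[Φ] E)
    (hinj : ∀ a, ρ a = 0 → a = 0) (hv : ∀ a b, ρ (a * b + b * a) = ρ a * ρ b + ρ b * ρ a)
    (hnil : ∀ a, IsNilpotent (ρ a)) : IsNilpotent ((⊤ : Submodule Φ A).map ρ) := by
  have hN : IsNoetherian Φ A := by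
    have := H.noeth H.fg_top
    exact isNoetherian_of_linearEquiv Submodule.topEquiv
  obtain ⟨S, hS, hmax⟩ := set_has_maximal_iff_noetherian.2 hN
    {S : Submodule Φ A | IsNilpotent (S.map ρ)} ⟨⊥, 1, by simp⟩
  have hcl : ∀ s ∈ S, ∀ t ∈ S, s * t + t * s ∈ S := by
    have h1 : IsNilpotent (S.map ρ + S.map ρ * S.map ρ) := by
      have e : S.map ρ + S.map ρ * S.map ρ = S.map ρ * (1 + S.map ρ) := by rw [mul_add, mul_one]
      rw [e]
      exact ((Commute.one_right _).add_right (Commute.refl _)).isNilpotent_mul_right hS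
    have h2 := eq_of_le_of_not_lt (Submodule.map_le_iff_le_comap.1 le_sup_left)
      (hmax _ (nilp_mono (Submodule.map_comap_le ρ _) h1))
    intro s hs t ht
    rw [h2, Submodule.mem_comap, hv]
    exact Submodule.mem_sup_right (Submodule.add_mem _
      (Submodule.mul_mem_mul ⟨s, hs, rfl⟩ ⟨t, ht, rfl⟩)
      (Submodule.mul_mem_mul ⟨t, ht, rfl⟩ ⟨s, hs, rfl⟩))
  by_cases hT : S = ⊤
  · exact hT ▸ hS
  obtain ⟨x, hx, hxS⟩ : ∃ x, x ∉ S ∧ ∀ s ∈ S, s * x + x * s ∈ S := by
    by_contra hc
    push Not at hc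
    have key : ∀ k, ∃ x, x ∉ S ∧ ρ x ∈ twoSided (S.map ρ) k := fun k => by
      induction k with
      | zero =>
        by_contra h
        push Not at h
        exact hT (eq_top_iff.2 fun x _ => by_contra fun hx => h x hx trivial)
      | succ k ih =>
        obtain ⟨x, hx, hx'⟩ := ih
        obtain ⟨s, hs, hs'⟩ := hc x hx
        refine ⟨_, hs', ?_⟩
        rw [hv]
        exact Submodule.add_mem_sup (Submodule.mul_mem_mul ⟨s, hs, rfl⟩ hx')
          (Submodule.mul_mem_mul hx' ⟨s, hs, rfl⟩)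
    obtain ⟨n, hn⟩ := hS
    obtain ⟨x, hx, hx'⟩ := key (2 * n)
    have h0 := twoSided_eq hn (2 * n) 0 0 (by omega)
    rw [pow_zero, one_mul, mul_one] at h0
    rw [h0] at hx'
    exact hx (hinj x hx' ▸ S.zero_mem)
  have hP : IsNilpotent (Submodule.span Φ {ρ x}) := by
    obtain ⟨m, hm⟩ := hnil x
    exact ⟨m, by rw [Submodule.span_pow, Set.singleton_pow, hm]; simp⟩
  have hPN : Submodule.span Φ {ρ x} * S.map ρ ≤ S.map ρ + S.map ρ * Submodule.span Φ {ρ x} := by
    refine Submodule.mul_le.2 fun p hp q hq => ?_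
    obtain ⟨c, rfl⟩ := Submodule.mem_span_singleton.1 hp
    obtain ⟨s, hs, rfl⟩ := hq
    have e : ρ x * ρ s = ρ (s * x + x * s) - ρ s * ρ x := by rw [hv]; abel
    rw [smul_mul_assoc, e]
    exact Submodule.smul_mem _ c (Submodule.sub_mem _
      (Submodule.mem_sup_left ⟨_, hxS s hs, rfl⟩) (Submodule.mem_sup_right
        (Submodule.mul_mem_mul ⟨s, hs, rfl⟩ (Submodule.mem_span_singleton_self _))))
  refine absurd (lt_of_le_of_ne le_sup_left fun e => hx ?_) (hmax (S ⊔ Submodule.span Φ {x}) ?_)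
  · rw [e]; exact Submodule.mem_sup_right (Submodule.mem_span_singleton_self x)
  · change IsNilpotent _
    rw [Submodule.map_sup, Submodule.map_span, Set.image_singleton]
    exact nilp_sup hS hP hPN

theorem Hyp.right_nilpotent (H : Hyp Φ A) :
    ∃ n : ℕ, ∀ (a : A) (l : List A), l.length = n → List.foldl (fun u v => u * v) a l = 0 := by
  let I : RI Φ A := ⟨⊥, fun y hy a => by rw [(Submodule.mem_bot Φ).1 hy, zero_mul]; rfl⟩
  obtain ⟨n, hn⟩ := H.nilp_top I.ρ (fun a h => RI.mem_of_ρ h) (H.ρ_v I)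
    fun a => (H.ρ_nil I a).elim fun n h => ⟨_, h⟩
  refine ⟨n, fun a l hl => ?_⟩
  have key : ∀ (l : List A) (e : I.E) (a : A), I.Rep e a →
      ∃ g ∈ ((⊤ : Submodule Φ A).map I.ρ) ^ l.length,
        I.Rep (e * g) (List.foldl (fun u v => u * v) a l) := fun l => by
    induction l with
    | nil => exact fun e a h => ⟨1, by simp [Submodule.one_le.1 le_rfl], by simpa using h⟩
    | cons b l ih =>
      intro e a h
      obtain ⟨g, hg, h'⟩ := ih _ _ (h.mul b)
      refine ⟨I.ρ b * g, ?_, by rwa [← mul_assoc]⟩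
      rw [List.length_cons, pow_succ']
      exact Submodule.mul_mem_mul ⟨b, trivial, rfl⟩ hg
  obtain ⟨g, hg, h⟩ := key l _ a (I.rep_ρ a)
  rw [hl, hn] at hg
  rw [(Submodule.mem_bot Φ).1 hg, mul_zero] at h
  exact RI.rep_zero.1 h

omit [Module Φ A] [IsScalarTower Φ A A] [SMulCommClass Φ A A] in
/-- Without additive two-torsion the right Moufang identity is automatic. -/
theorem moufang_of_two (ra : ∀ x y : A, x * y * y = x * (y * y))
    (h2 : ∀ x : A, x + x = 0 → x = 0) (x y z : A) : x * y * z * y = x * (y * z * y) := by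
  have l := lin_of_ra ra
  have e1 : y * z * y + y * z * y =
      (y * (y * z + z * y) + (y * z + z * y) * y) - (y * y * z + z * (y * y)) := by
    rw [l y y z, add_mul, ra z y]; abel
  have e2 : x * (y * z * y) + x * (y * z * y) = x * y * z * y + x * y * z * y := by
    rw [← mul_add, e1, mul_sub, l, l x (y * y), l (x * y), l x y z, add_mul, ← ra x y,
      ← ra (x * z) y]
    abel
  rw [← sub_eq_zero]
  refine h2 _ ?_
  rw [← sub_eq_zero.2 e2.symm]; abel

end Pool.Agent.MP_93f6c2_al.Mou
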